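import Pool.Agent.Work.MP_c6c039_lc.NC.P2
import Pool.Agent.Work.PT.BitEnc

/-!
# Polynomial time for the search of block NC (helper87)
-/

set_option autoImplicit false

namespace Pool.Agent.Work.MP_c6c039_lc.NC

open Pool.Agent.PT Pool.Agent.Work.MP_c6c039_lc.FP Function

variable {α : Type} [Enc α]

theorem sz_filter_le {β : Type} [Enc β] (p : β → Bool) (l : List β) : sz (l.filter p) ≤ sz l := by
  induction l with
  | nil => simp
  | cons b l ih =>
    rw [List.filter_cons]
    split_ifs
    · rw [sz_cons, sz_cons]
      omega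
    · rw [sz_cons]
      omega

theorem ptf_sat0 : PTF (fun d : Dt => sat d) := by
  refine PTF.nat_iterate (n := fun d : Dt => (allF d).length + 1) (init := fun _ => [])
    (step := fun p : Dt × List Fa => stp p.1 p.2) (by fun_prop) (by fun_prop) (by fun_prop)
    (fun d => sz (allF d) + 1) ?_ ?_
  · exact (PTF.size (ptf_allF PTF.id)).add (PB.const 1)
  · intro a i _
    cases i with
    | zero =>
      rw [iterate_zero, id_eq, sz_nil]
      omega
    | succ i =>
      rw [iterate_succ_apply']
      exact (sz_filter_le _ _).trans (Nat.le_succ _)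

@[fun_prop]
theorem ptf_dp {d : α → Dt} (hd : PTF d) : PTF (fun a => dp (d a)) := by
  have h : PTF (fun a => sat (d a)) := ptf_sat0.comp hd
  unfold dp
  fun_prop

@[fun_prop]
theorem ptf_chk {f : α → In} {D C : α → List ℕ} {s : α → List (ℕ × ℕ)} (hf : PTF f)
    (hD : PTF D) (hC : PTF C) (hs : PTF s) : PTF (fun a => chk (f a) (D a) (C a) (s a)) := by
  unfold chk
  fun_prop

@[fun_prop]
theorem ptf_allL {β : Type} [Enc β] (K : ℕ) {S : α → List β} (hS : PTF S) :
    PTF (fun a => allL K (S a)) := by
  have h0 : ∀ K : ℕ, PTF (fun l : List β => allL K l) := by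
    intro K
    induction K with
    | zero =>
      show PTF (fun _ : List β => ([[]] : List (List β)))
      fun_prop
    | succ K ih =>
      have h1 : PTF (fun p : (List β) × β => allL K p.1) := ih.comp PTF.fst
      have h2 : PTF (fun p : (List β) × β => (allL K p.1).map fun l => p.2 :: l) := by fun_prop
      show PTF (fun S : List β => ([] : List β) :: S.flatMap fun a => (allL K S).map fun l => a :: l)
      exact (PTF.const _).cons (PTF.flatMap' h2 PTF.id)
  exact (h0 K).comp hS

@[fun_prop]
theorem ptf_near (k : ℕ) {f : α → In} (hf : PTF f) : PTF (fun a => near k (f a)) := by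
  unfold near
  fun_prop

end Pool.Agent.Work.MP_c6c039_lc.NC
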