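import Pool.Agent.Work.MP_c6c039_lc.NC.StmtsM
import Pool.Agent.Work.MP_c6c039_lc.NC.P3
import Pool.Agent.Work.PT.BitEnc

/-!
# Block NC: the theorem from the statements (helper87)
-/

set_option autoImplicit false

namespace Pool.Agent.Work.MP_c6c039_lc.NC

open Pool.Agent.PT Pool.Agent.Work.MP_c6c039_lc.FP N487b59b3

theorem final (hPF : FP.St_PF) (hGD : FP.St_GD) (hEX : FP.St_EX) (hNe : St_Ne) (hFd : St_Fd)
    (k : ℕ) : ∃ f : List (ℚ × ℚ) × List (ℚ × ℚ) → Bool, N68a2faeb.IsPolyTime f ∧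
      ∀ I : List (ℚ × ℚ) × List (ℚ × ℚ), GenPos I →
        (f I = true → ∃ l : List (ℝ × ℝ), IsPath (pts I.1) (pts I.2) l) ∧
        (DC k I → (∃ l : List (ℝ × ℝ), IsPath (pts I.1) (pts I.2) l) → f I = true) := by
  refine ⟨fun I => near k (full (bitEncode I)), ?_, fun I hI => ?_⟩
  · have h : PTF (fun x : List Bool => full x) := hPF
    have h2 : PTF (fun x : List Bool => [near k (full x)]) := by fun_prop
    exact tm2_of (g := fun x => [near k (full x)]) h2 fun a => rfl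
  · have hG : Good (full (bitEncode I)) := hGD I hI
    refine ⟨fun h => (hEX I hI).1 ((hNe _ hG k).1 h), fun hD hp => ?_⟩
    obtain ⟨D, h1, h2, h3, h4⟩ := hFd I hI k hD
    exact (hNe _ hG k).2 D h1 h2 h3 h4 ((hEX I hI).2 hp)

end Pool.Agent.Work.MP_c6c039_lc.NC
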