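import Pool.Agent.Work.MP_c6c039_lc.NC.StmtsK

/-! Item Al: the list of all lists of bounded length. -/

namespace Pool.Agent.Work.MP_c6c039_lc.NC

/-- Item Al. -/
theorem pr_Al : St_Al := by
  intro α K
  induction K with
  | zero =>
    intro S l
    cases l with
    | nil => simp [allL]
    | cons a t => simp [allL]
  | succ K ih =>
    intro S l
    cases l with
    | nil => simp [allL]
    | cons a t =>
      simp only [allL, List.mem_cons, List.mem_flatMap, List.mem_map, List.length_cons]
      constructor
      · rintro (h | ⟨b, hb, m, hm, h⟩)
        · cases h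
        · injection h with h1 h2
          subst h1
          subst h2
          obtain ⟨h3, h4⟩ := (ih S m).1 hm
          refine ⟨Nat.succ_le_succ h3, ?_⟩
          rintro c (rfl | hc)
          · exact hb
          · exact h4 c hc
      · rintro ⟨h1, h2⟩
        right
        exact ⟨a, h2 a (Or.inl rfl), t, (ih S t).2 ⟨Nat.le_of_succ_le_succ h1, fun c hc => h2 c (Or.inr hc)⟩, rfl⟩

end Pool.Agent.Work.MP_c6c039_lc.NC
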