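import Pool.Agent.Work.MP_c6c039_lc.NC.StmtsK

set_option autoImplicit false

namespace Pool.Agent.Work.MP_c6c039_lc.NC

open Pool.Agent.Work.MP_c6c039_lc.FP

namespace ICi

theorem bt_eq (a b c : ℕ) : bt a b c = decide ((a < c ∧ c < b) ∨ (b < c ∧ c < a)) := by
  rw [Bool.eq_iff_iff]
  simp [bt]

theorem getD_ne {C : List ℕ} (hC : C.Nodup) {x y : ℕ} (hx : x < C.length) (hy : y < C.length)
    (h : x ≠ y) : C.getD x 0 ≠ C.getD y 0 := by
  rw [List.getD_eq_getElem _ _ hx, List.getD_eq_getElem _ _ hy]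
  intro e
  exact h ((List.Nodup.getElem_inj_iff hC).1 e)

theorem getD_lt {C : List ℕ} {n x : ℕ} (hC : ∀ v ∈ C, v < n) (hx : x < C.length) :
    C.getD x 0 < n := by
  rw [List.getD_eq_getElem _ _ hx]
  exact hC _ (List.getElem_mem hx)

theorem ds {I : In} {C : List ℕ} (hC : C.Nodup) (hn : ∀ v ∈ C, v < nn I) {x y z : ℕ}
    (hx : x < C.length) (hy : y < C.length) (hz : z < C.length) (hxy : x ≠ y) (hxz : x ≠ z)
    (hyz : y ≠ z) : Ds I [C.getD x 0, C.getD y 0, C.getD z 0] := by
  have h1 := getD_ne hC hx hy hxy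
  have h2 := getD_ne hC hx hz hxz
  have h3 := getD_ne hC hy hz hyz
  have l1 := getD_lt hn hx
  have l2 := getD_lt hn hy
  have l3 := getD_lt hn hz
  refine ⟨?_, ?_⟩
  · simp only [List.nodup_cons, List.mem_cons, List.not_mem_nil, or_false, not_or, not_false_iff,
      List.nodup_nil, and_true]
    exact ⟨⟨h1, h2⟩, h3⟩
  · intro a ha
    simp only [List.mem_cons, List.not_mem_nil, or_false] at ha
    rcases ha with rfl | rfl | rfl <;> assumption

theorem sgn {I : In} (hI : CH I) {C : List ℕ} (hC : C.Nodup) (hn : ∀ v ∈ C, v < nn I)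
    (hT : ∀ x y z, x < y → y < z → z < C.length →
      chi I (C.getD x 0) (C.getD y 0) (C.getD z 0) = true) {x y z : ℕ}
    (hx : x < C.length) (hy : y < C.length) (hz : z < C.length) (hxy : x ≠ y) (hxz : x ≠ z)
    (hyz : y ≠ z) :
    chi I (C.getD x 0) (C.getD y 0) (C.getD z 0) = xor (bt x y z) (decide (x < y)) := by
  rw [bt_eq]
  have c1 := hI.cyc _ _ _ (ds hC hn hx hy hz hxy hxz hyz)
  have c2 := hI.cyc _ _ _ (ds hC hn hz hx hy hxz.symm hyz.symm hxy)
  have c3 := hI.cyc _ _ _ (ds hC hn hz hy hx hyz.symm hxz.symm hxy.symm)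
  have c4 := hI.cyc _ _ _ (ds hC hn hx hz hy hxz hxy hyz.symm)
  have a1 := hI.anti _ _ _ (ds hC hn hy hx hz hxy.symm hyz hxz)
  rcases lt_or_gt_of_ne hxy with h1 | h1
  · rcases lt_or_gt_of_ne hyz with h2 | h2
    · rw [hT x y z h1 h2 hz, decide_eq_true h1, decide_eq_false (by omega)]
      rfl
    · rcases lt_or_gt_of_ne hxz with h3 | h3
      · rw [a1, c3, c4, hT x z y h3 h2 hy, decide_eq_true h1, decide_eq_true (by omega)]
        rfl
      · rw [c2, hT z x y h3 h1 hy, decide_eq_true h1, decide_eq_false (by omega)]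
        rfl
  · rcases lt_or_gt_of_ne hyz with h2 | h2
    · rcases lt_or_gt_of_ne hxz with h3 | h3
      · rw [a1, hT y x z h1 h3 hz, decide_eq_false (p := x < y) (by omega),
          decide_eq_false (by omega)]
        rfl
      · rw [← c1, hT y z x h2 h3 hx, decide_eq_false (p := x < y) (by omega),
          decide_eq_true (by omega)]
        rfl
    · rw [a1, c3, hT z y x h2 h1 hx, decide_eq_false (p := x < y) (by omega),
        decide_eq_false (by omega)]
      rfl

theorem xx (a b s : Bool) : (!(xor a s == xor b s)) = xor a b := by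
  cases a <;> cases b <;> cases s <;> rfl

end ICi

open ICi

theorem pr_Ci (hSy : FP.St_Sy) (hIl : St_Il) : St_Ci := by
  intro I hG C hC hn hT x y z w hx hy hz hw hdj hxy hzw
  have hI : CH I := hSy I hG.real
  obtain ⟨h1, h2, h3, h4⟩ := hdj
  simp only at h1 h2 h3 h4
  rw [cr, sgn hI hC hn hT hx hy hz hxy h1 h3, sgn hI hC hn hT hx hy hw hxy h2 h4,
    sgn hI hC hn hT hz hw hx hzw h1.symm h2.symm, sgn hI hC hn hT hz hw hy hzw h3.symm h4.symm,
    xx, xx]
  show (il x y z w && il z w x y) = il x y z w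
  rw [(hIl x y z w).2.2 ⟨h1, h2, h3, h4⟩ hxy hzw, Bool.and_self]

end Pool.Agent.Work.MP_c6c039_lc.NC
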