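import Pool.Agent.Work.MP_c6c039_lc.NC.StmtsK

set_option autoImplicit false

namespace Pool.Agent.Work.MP_c6c039_lc.NC

open Pool.Agent.PT Pool.Agent.Work.MP_c6c039_lc.FP

namespace ICk

theorem sh_iff (f g : ℕ × ℕ) : sh f g = true ↔ ¬ dj f g := by
  unfold sh dj
  simp only [Bool.or_eq_true, beq_iff_eq]
  tauto

theorem ndp_iff (l : List ℕ) : ndp l = true ↔ l.Nodup := by
  unfold ndp
  simp only [List.all_eq_true, List.mem_range, Bool.or_eq_true, beq_iff_eq, Bool.not_eq_true',
    beq_eq_false_iff_ne]
  rw [List.nodup_iff_injective_get]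
  constructor
  · intro h
    rintro ⟨i, hi⟩ ⟨j, hj⟩ hij
    rcases h i hi j hj with h1 | h1
    · exact Fin.ext h1
    · exfalso
      apply h1
      rw [List.getD_eq_getElem _ _ hi, List.getD_eq_getElem _ _ hj]
      simpa using hij
  · intro h i hi j hj
    by_cases hij : i = j
    · exact Or.inl hij
    · right
      intro h2
      rw [List.getD_eq_getElem _ _ hi, List.getD_eq_getElem _ _ hj] at h2
      have h3 : (⟨i, hi⟩ : Fin l.length) = ⟨j, hj⟩ := h (by simpa using h2)
      exact hij (congrArg Fin.val h3)

end ICk

theorem pr_Ck : St_Ck := by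
  intro I D C σ
  unfold chk
  rw [Bool.and_eq_true, Bool.and_eq_true, Bool.and_eq_true, Bool.and_eq_true, Bool.and_eq_true]
  rw [ICk.ndp_iff]
  simp only [List.all_eq_true, beq_iff_eq, Bool.and_eq_true, decide_eq_true_iff]
  constructor
  · rintro ⟨h1, h2, h3, h4, h5, h6⟩
    refine ⟨h1, ?_, h3, ?_, ?_, ?_, h6⟩
    · intro τ hτ
      obtain ⟨a, b⟩ := h2 τ hτ
      refine ⟨a, ?_, ?_⟩
      · intro hD
        rw [if_pos hD] at b
        simpa using b
      · intro hD
        rw [if_neg hD] at b
        simpa using b
    · intro v hv hD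
      have := h4 v (List.mem_range.2 hv)
      simp only [Bool.or_eq_true, Bool.not_eq_true', decide_eq_false_iff_not, List.any_eq_true,
        beq_iff_eq] at this
      rcases this with h | h
      · exact absurd hD h
      · exact h
    · intro f hf
      have := (h5 f hf).1
      simpa using this
    · intro f hf g hg hd
      have := (h5 f hf).2 g hg
      rw [Bool.or_eq_true, ICk.sh_iff] at this
      rcases this with h | h
      · exact absurd hd h
      · simpa using h
  · rintro ⟨h1, h2, h3, h4, h5, h5', h6⟩
    refine ⟨h1, ?_, h3, ?_, ?_, h6⟩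
    · intro τ hτ
      obtain ⟨a, b, c⟩ := h2 τ hτ
      refine ⟨a, ?_⟩
      by_cases hD : τ.1 ∈ D
      · rw [if_pos hD]
        simpa using b hD
      · rw [if_neg hD]
        simpa using c hD
    · intro v hv
      simp only [Bool.or_eq_true, Bool.not_eq_true', decide_eq_false_iff_not, List.any_eq_true,
        beq_iff_eq]
      by_cases hD : v ∈ D
      · right
        exact h4 v (List.mem_range.1 hv) hD
      · exact Or.inl hD
    · intro f hf
      refine ⟨?_, ?_⟩
      · simpa using h5 f hf
      · intro g hg
        rw [Bool.or_eq_true, ICk.sh_iff]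
        by_cases hd : dj f g
        · right
          simpa using h5' f hf g hg hd
        · exact Or.inl hd

end Pool.Agent.Work.MP_c6c039_lc.NC
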