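import Pool.Agent.Work.MP_c6c039_lc.NC.StmtsK

/-!
# Item Cn of block NC: the connecting edges of a list of tokens
-/

set_option autoImplicit false

namespace Pool.Agent.Work.MP_c6c039_lc.NC

namespace ICn

/-- entry of a zip with the tail -/
theorem mem_ed {α : Type} (l : List α) (p : α × α) :
    p ∈ ed l ↔ ∃ (i : ℕ) (h : i + 1 < l.length), p = (l[i], l[i + 1]) := by
  unfold ed
  rw [List.mem_iff_getElem]
  constructor
  · rintro ⟨i, hi, rfl⟩
    have h2 : i + 1 < l.length := by
      simp only [List.length_zip, List.length_tail] at hi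
      omega
    refine ⟨i, h2, ?_⟩
    simp only [List.getElem_zip, List.getElem_tail]
  · rintro ⟨i, hi, rfl⟩
    refine ⟨i, ?_, ?_⟩
    · simp only [List.length_zip, List.length_tail]
      omega
    · simp only [List.getElem_zip, List.getElem_tail]

end ICn

open ICn in
/-- the connecting edges are the edges between consecutive tokens -/
theorem pr_Cn : St_Cn := by
  intro σ f
  unfold cn
  rw [List.mem_map]
  constructor
  · rintro ⟨i, hi, rfl⟩
    rw [List.mem_range] at hi
    have h1 : i + 1 < σ.length := by omega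
    have h0 : i < σ.length := by omega
    refine ⟨σ[i], σ[i + 1], (mem_ed σ _).2 ⟨i, h1, rfl⟩, ?_⟩
    rw [List.getD_eq_getElem _ _ h0, List.getD_eq_getElem _ _ h1]
  · rintro ⟨τ, τ', h, rfl⟩
    obtain ⟨i, hi, he⟩ := (mem_ed σ _).1 h
    have h0 : i < σ.length := by omega
    have e1 : τ = σ[i] := congrArg Prod.fst he
    have e2 : τ' = σ[i + 1] := congrArg Prod.snd he
    refine ⟨i, ?_, ?_⟩
    · rw [List.mem_range]
      omega
    · rw [List.getD_eq_getElem _ _ h0, List.getD_eq_getElem _ _ hi, e1, e2]

end Pool.Agent.Work.MP_c6c039_lc.NC
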