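import Pool.Agent.Work.MP_c6c039_lc.NC.StmtsL

/-!
# Block NC, item Cu: the cut between the extreme vertices
-/

set_option autoImplicit false

namespace Pool.Agent.Work.MP_c6c039_lc.NC

namespace ICu

theorem key (p : List ℕ) (i j : ℕ) (hp : p.Nodup) (hj : j < p.length) (hij : i < j) :
    p.getD i 0 ∈ p.take j ∧ p.getD j 0 ∉ p.take j := by
  have hi : i < p.length := lt_trans hij hj
  constructor
  · rw [List.getD_eq_getElem _ _ hi, List.mem_take_iff_getElem]
    exact ⟨i, by omega, rfl⟩
  · rw [List.getD_eq_getElem _ _ hj, List.mem_take_iff_getElem]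
    rintro ⟨k, hk, he⟩
    have hk' : k < p.length := by omega
    have := (List.Nodup.getElem_inj_iff hp (hi := hk') (hj := hj)).1 he
    omega

end ICu

theorem pr_Cu : St_Cu := by
  intro p A X hp hA hX hne
  obtain ⟨i, hi, rfl⟩ := List.getElem_of_mem hA
  obtain ⟨j, hj, rfl⟩ := List.getElem_of_mem hX
  rcases lt_trichotomy i j with h | h | h
  · refine ⟨j, by omega, hj, Or.inl ?_⟩
    have hk := ICu.key p i j hp hj h
    rw [List.getD_eq_getElem _ _ hi, List.getD_eq_getElem _ _ hj] at hk
    exact ⟨hk.1, hk.2, List.getD_eq_getElem _ _ hj⟩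
  · subst h
    exact absurd rfl hne
  · refine ⟨i, by omega, hi, Or.inr ?_⟩
    have hk := ICu.key p j i hp hi h
    rw [List.getD_eq_getElem _ _ hi, List.getD_eq_getElem _ _ hj] at hk
    exact ⟨hk.1, hk.2, List.getD_eq_getElem _ _ hi⟩

end Pool.Agent.Work.MP_c6c039_lc.NC
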