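import Pool.Agent.Work.MP_c6c039_lc.NC.StmtsK

/-! Item Cy of block NC: the cyclic order of the points outside `D`. -/

set_option autoImplicit false

namespace Pool.Agent.Work.MP_c6c039_lc.NC

open Pool.Agent.Work.MP_c6c039_lc.FP

namespace ICy

/-- every element below the length of the list occurs in a nodup list of full length -/
lemma mem_of_full {l : List ℕ} {n : ℕ} (hd : l.Nodup) (hb : ∀ v ∈ l, v < n) (hn : l.length = n)
    {i : ℕ} (hi : i < n) : i ∈ l := by
  classical
  have h1 : l.toFinset ⊆ Finset.range n := fun v hv =>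
    Finset.mem_range.2 (hb v (List.mem_toFinset.1 hv))
  have h2 : l.toFinset.card = n := by rw [List.toFinset_card_of_nodup hd, hn]
  have h3 : l.toFinset = Finset.range n := Finset.eq_of_subset_of_card_le h1 (by
    rw [Finset.card_range, h2])
  have : i ∈ l.toFinset := by rw [h3]; exact Finset.mem_range.2 hi
  exact List.mem_toFinset.1 this

lemma getD_map {α β : Type} (f : α → β) (l : List α) (i : ℕ) (a : α) (b : β)
    (hi : i < l.length) : (l.map f).getD i b = f (l.getD i a) := by
  rw [List.getD_eq_getElem _ _ (by simpa using hi), List.getD_eq_getElem _ _ hi,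
    List.getElem_map]

end ICy

/-- Cy -/
theorem pr_Cy (hSy : FP.St_Sy) (hHl : FP.St_Hl) (hSg : St_Sg) : St_Cy := by
  intro I hI D
  set C := cm I D with hC
  have hCn : C.Nodup := (List.nodup_range).filter _
  have hCm : ∀ v, v ∈ C ↔ v < nn I ∧ v ∉ D := by
    intro v
    simp [hC, cm, List.mem_filter, List.mem_range]
  obtain ⟨hlen, hchi, hgood⟩ := hSg I hI C hCn (fun v hv => ((hCm v).1 hv).1)
  have hH := hHl (sub I C) (hSy _ hgood.real) hgood.hull
  obtain ⟨h1, h2, h3⟩ := hH
  have hb : ∀ i ∈ hu (sub I C), i < C.length := fun i hi => hlen ▸ ((h2 i).1 hi).1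
  have hcy : cyl I D = (hu (sub I C)).map fun i => C.getD i 0 := rfl
  have hcl : (cyl I D).length = (hu (sub I C)).length := by rw [hcy, List.length_map]
  have hget : ∀ x, x < (hu (sub I C)).length →
      (cyl I D).getD x 0 = C.getD ((hu (sub I C)).getD x 0) 0 := by
    intro x hx
    rw [hcy]
    exact ICy.getD_map _ _ _ _ _ hx
  have hlt : ∀ x, x < (hu (sub I C)).length → (hu (sub I C)).getD x 0 < C.length := by
    intro x hx
    refine hb _ ?_
    rw [List.getD_eq_getElem _ _ hx]
    exact List.getElem_mem hx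
  refine ⟨?_, ?_, ?_, ?_⟩
  · rw [hcy]
    refine List.Nodup.map_on ?_ h1
    intro i hi j hj hij
    have hi' := hb i hi
    have hj' := hb j hj
    rw [List.getD_eq_getElem _ _ hi', List.getD_eq_getElem _ _ hj'] at hij
    exact (List.Nodup.getElem_inj_iff hCn).1 hij
  · intro v hv
    rw [hcy, List.mem_map] at hv
    obtain ⟨i, hi, rfl⟩ := hv
    have hi' := hb i hi
    refine (hCm _).1 ?_
    rw [List.getD_eq_getElem _ _ hi']
    exact List.getElem_mem hi'
  · intro x y z hxy hyz hz
    rw [hcl] at hz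
    have hy : y < (hu (sub I C)).length := lt_trans hyz hz
    have hx : x < (hu (sub I C)).length := lt_trans hxy hy
    rw [hget x hx, hget y hy, hget z hz, ← hchi _ _ _ (hlt x hx) (hlt y hy) (hlt z hz)]
    exact h3 x y z hxy hyz hz
  · intro hfull v hv hvD
    rw [hcl] at hfull
    have hvC : v ∈ C := (hCm v).2 ⟨hv, hvD⟩
    obtain ⟨i, hi, hiv⟩ := List.mem_iff_getElem.1 hvC
    rw [hcy, List.mem_map]
    refine ⟨i, ICy.mem_of_full h1 hb hfull hi, ?_⟩
    rw [List.getD_eq_getElem _ _ hi]
    exact hiv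

end Pool.Agent.Work.MP_c6c039_lc.NC
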