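import Pool.Agent.Work.MP_c6c039_lc.NC.StmtsK

/-!
# Block NC, item Da: the data of the problem on the line (helper34)
-/

set_option autoImplicit false

namespace Pool.Agent.Work.MP_c6c039_lc.NC

open Pool.Agent.Work.MP_c6c039_lc.FP

namespace IDa

/-- entries of a list of values -/
theorem getD_map_range {α : Type} (n : ℕ) (f : ℕ → α) (x : ℕ) (d : α) :
    ((List.range n).map f).getD x d = if x < n then f x else d := by
  by_cases h : x < n
  · rw [if_pos h, List.getD_eq_getElem _ _ (by simpa using h)]
    simp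
  · rw [if_neg h, List.getD_eq_default _ _ (by simpa using h)]

/-- no common end -/
theorem sh_false (e f : ℕ × ℕ) : sh e f = false ↔ dj e f := by
  unfold sh dj
  simp only [Bool.or_eq_false_iff, beq_eq_false_iff_ne, ne_eq]

/-- the entries of the table -/
theorem okd_dat (I : In) (D C : List ℕ) (σ : List (ℕ × ℕ)) (x y : ℕ) :
    okd (dat I D C σ) x y = true ↔ (x < C.length ∧ y < C.length ∧
      okx I σ (C.getD x 0) (C.getD y 0) = true ∧ okx I σ (C.getD y 0) (C.getD x 0) = true) := by
  unfold okd dat
  simp only []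
  rw [getD_map_range]
  by_cases h : x < C.length
  · rw [if_pos h, getD_map_range]
    by_cases h' : y < C.length
    · rw [if_pos h', Bool.and_eq_true]
      exact ⟨fun h1 => ⟨h, h', h1⟩, fun h1 => h1.2.2⟩
    · rw [if_neg h']
      constructor
      · intro h1
        cases h1
      · intro h1
        exact absurd h1.2.1 h'
  · rw [if_neg h]
    constructor
    · intro h1
      simp at h1
    · intro h1
      exact absurd h1.1 h

/-- allowed edges -/
theorem okx_iff (I : In) (σ : List (ℕ × ℕ)) (x y : ℕ) :
    okx I σ x y = true ↔ (co I x ≠ co I y ∧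
      ∀ f ∈ cn σ, dj (x, y) f → cr I x y f.1 f.2 = false) := by
  unfold okx
  rw [Bool.and_eq_true, List.all_eq_true]
  constructor
  · rintro ⟨h1, h2⟩
    refine ⟨?_, ?_⟩
    · intro h
      rw [h] at h1
      simp at h1
    · intro f hf hd
      have h3 := h2 f hf
      rw [(sh_false _ _).2 hd] at h3
      simpa using h3
  · rintro ⟨h1, h2⟩
    refine ⟨?_, ?_⟩
    · cases hx : co I x <;> cases hy : co I y <;> simp_all
    · intro f hf
      cases hs : sh (x, y) f with
      | true => simp
      | false =>
        have h3 := h2 f hf ((sh_false _ _).1 hs)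
        simp [h3]

end IDa

/-- the data of the problem on the line -/
theorem pr_Da : St_Da := by
  intro I D C σ
  refine ⟨?_, rfl, IDa.okd_dat I D C σ, ?_, IDa.okx_iff I σ⟩
  · intro x y
    rw [Bool.eq_iff_iff, IDa.okd_dat, IDa.okd_dat]
    constructor
    · rintro ⟨h1, h2, h3, h4⟩
      exact ⟨h2, h1, h4, h3⟩
    · rintro ⟨h1, h2, h3, h4⟩
      exact ⟨h2, h1, h4, h3⟩
  · intro t
    unfold dat
    simp only [List.mem_map, List.mem_filter]
    constructor
    · rintro ⟨τ, ⟨h1, h2⟩, rfl⟩
      refine ⟨τ, h1, ?_, rfl⟩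
      intro h3
      rw [decide_eq_true h3] at h2
      cases h2
    · rintro ⟨τ, h1, h2, rfl⟩
      refine ⟨τ, ⟨h1, ?_⟩, rfl⟩
      rw [decide_eq_false h2]
      rfl

end Pool.Agent.Work.MP_c6c039_lc.NC
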