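import Pool.Agent.Work.MP_c6c039_lc.NC.StmtsL

/-! Block NC, item Dq: the line problem. -/

set_option autoImplicit false

namespace Pool.Agent.Work.MP_c6c039_lc.NC

open Pool.Agent.PT Pool.Agent.Work.MP_c6c039_lc.FP

theorem pr_Dq (hS7 : St_S7) (hSa : St_Sa) (hEc : St_Ec) : St_Dq := by
  intro d hd
  constructor
  · intro h
    have h1 : (0, 0, d.1, false) ∈ sat d := of_decide_eq_true h
    exact ((hS7 d hd _ _ h1).1 rfl).2
  · rintro ⟨M, hM⟩
    apply decide_eq_true
    apply hEc d hd M (sat d) hM (fun f hf hr => hSa d f hf hr) 0 d.1 (Nat.zero_le _) le_rfl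
    intro p hp _ z hz
    exact (hM.cov z).mp ⟨p, hp, hz⟩

end Pool.Agent.Work.MP_c6c039_lc.NC
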