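import Pool.Agent.Work.MP_c6c039_lc.NC.StmtsL

/-!
# Item Ed of block NC: edges of a path
-/

set_option autoImplicit false

namespace Pool.Agent.Work.MP_c6c039_lc.NC

namespace IEd

theorem nil (α : Type) : ed ([] : List α) = [] := rfl

theorem one {α : Type} (a : α) : ed [a] = [] := rfl

theorem two {α : Type} (a b : α) (l : List α) : ed (a :: b :: l) = (a, b) :: ed (b :: l) := rfl

theorem mem {α : Type} : ∀ (l : List α) (e : α × α), e ∈ ed l → e.1 ∈ l ∧ e.2 ∈ l
  | [], e, h => by simp [nil] at h
  | [a], e, h => by simp [one] at h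
  | a :: b :: l, e, h => by
    rw [two, List.mem_cons] at h
    rcases h with rfl | h
    · exact ⟨List.mem_cons_self, List.mem_cons_of_mem _ List.mem_cons_self⟩
    · have := mem (b :: l) e h
      exact ⟨List.mem_cons_of_mem _ this.1, List.mem_cons_of_mem _ this.2⟩

theorem app {α : Type} : ∀ (l r : List α) (e : α × α), e ∈ ed (l ++ r) ↔
    (e ∈ ed l ∨ e ∈ ed r ∨ (l.getLast? = some e.1 ∧ r.head? = some e.2))
  | [], r, e => by simp [nil]
  | [a], [], e => by simp [one, nil]
  | [a], b :: r, e => by
    rw [List.singleton_append, two, List.mem_cons, one]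
    simp only [List.getLast?_singleton, List.head?_cons, Option.some.injEq, List.not_mem_nil,
      false_or]
    constructor
    · rintro (rfl | h)
      · exact Or.inr ⟨rfl, rfl⟩
      · exact Or.inl h
    · rintro (h | ⟨h1, h2⟩)
      · exact Or.inr h
      · left
        rw [h1, h2]
  | a :: b :: l, r, e => by
    rw [List.cons_append, List.cons_append, two, List.mem_cons, two, List.mem_cons,
      ← List.cons_append, app (b :: l) r e, List.getLast?_cons_cons, or_assoc]

theorem rev {α : Type} : ∀ (l : List α) (e : α × α), e ∈ ed l.reverse ↔ (e.2, e.1) ∈ ed l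
  | [], e => by simp [nil]
  | [a], e => by simp [one]
  | a :: b :: l, e => by
    rw [List.reverse_cons, app, rev (b :: l) e, two, List.mem_cons, one]
    simp only [List.getLast?_reverse, List.head?_cons, Option.some.injEq, List.not_mem_nil,
      false_or, Prod.mk.injEq]
    constructor
    · rintro (h | ⟨h1, h2⟩)
      · exact Or.inr h
      · exact Or.inl ⟨h2.symm, h1.symm⟩
    · rintro (⟨h1, h2⟩ | h)
      · exact Or.inr ⟨h2.symm, h1.symm⟩
      · exact Or.inl h

theorem ne {α : Type} : ∀ (l : List α) (e : α × α), l.Nodup → e ∈ ed l → e.1 ≠ e.2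
  | [], e, _, h => by simp [nil] at h
  | [a], e, _, h => by simp [one] at h
  | a :: b :: l, e, hn, h => by
    rw [two, List.mem_cons] at h
    rcases h with rfl | h
    · intro hab
      have hab' : a = b := hab
      rw [List.nodup_cons] at hn
      exact hn.1 (hab' ▸ List.mem_cons_self)
    · exact ne (b :: l) e (List.nodup_cons.mp hn).2 h

theorem map {α β : Type} (f : α → β) : ∀ (l : List α),
    ed (l.map f) = (ed l).map fun e => (f e.1, f e.2)
  | [] => rfl
  | [a] => rfl
  | a :: b :: l => by
    have := map f (b :: l)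
    rw [List.map_cons, List.map_cons, two, two, List.map_cons, ← List.map_cons, this]

theorem get {α : Type} : ∀ (l : List α) (i : ℕ) (h : i + 1 < l.length),
    (l[i], l[i + 1]) ∈ ed l
  | [], i, h => by simp at h
  | [a], i, h => by simp at h
  | a :: b :: l, 0, h => by
    rw [two]
    exact List.mem_cons_self
  | a :: b :: l, i + 1, h => by
    rw [two]
    refine List.mem_cons_of_mem _ ?_
    have h' : i + 1 < (b :: l).length := by simpa using h
    exact get (b :: l) i h'

end IEd

/-- Item Ed. -/
theorem pr_Ed : St_Ed := by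
  refine ⟨fun α l e => IEd.mem l e, fun α l r e => IEd.app l r e, fun α l e => IEd.rev l e,
    fun α l t e => ⟨fun h => ?_, fun h => ?_⟩, fun α l e => IEd.ne l e,
    fun α β f l => IEd.map f l, fun α l i h => IEd.get l i h⟩
  · have := (IEd.app (l.take t) (l.drop t) e).mpr (Or.inl h)
    rwa [List.take_append_drop] at this
  · have := (IEd.app (l.take t) (l.drop t) e).mpr (Or.inr (Or.inl h))
    rwa [List.take_append_drop] at this

end Pool.Agent.Work.MP_c6c039_lc.NC
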