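import Pool.Agent.Work.MP_c6c039_lc.NC.StmtsK

/-!
# Block NC, item Ep
-/

set_option autoImplicit false

namespace Pool.Agent.Work.MP_c6c039_lc.NC

open Pool.Agent.PT Pool.Agent.Work.MP_c6c039_lc.FP

namespace IEp

/-- the ends of one token -/
def g (τ : ℕ × ℕ) : List ℕ := if τ.1 = τ.2 then [τ.1] else [τ.1, τ.2]

theorem fst_mem (τ : ℕ × ℕ) : τ.1 ∈ g τ := by
  unfold g
  split_ifs <;> simp

theorem snd_mem (τ : ℕ × ℕ) : τ.2 ∈ g τ := by
  unfold g
  split_ifs with h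
  · simp [h]
  · simp

theorem dj_of {τ τ' : ℕ × ℕ} (h : List.Disjoint (g τ) (g τ')) : dj τ τ' := by
  refine ⟨?_, ?_, ?_, ?_⟩
  · intro e
    exact h (fst_mem τ) (e ▸ fst_mem τ')
  · intro e
    exact h (fst_mem τ) (e ▸ snd_mem τ')
  · intro e
    exact h (snd_mem τ) (e ▸ fst_mem τ')
  · intro e
    exact h (snd_mem τ) (e ▸ snd_mem τ')

end IEp

theorem pr_Ep : St_Ep := by
  intro σ h
  have h1 : (σ.flatMap IEp.g).Nodup := h
  rw [List.nodup_flatMap] at h1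
  have h2 : σ.Pairwise fun τ τ' => List.Disjoint (IEp.g τ) (IEp.g τ') := h1.2
  refine ⟨?_, ?_⟩
  · refine h2.imp ?_
    intro a b hab e
    subst e
    exact hab (IEp.fst_mem a) (IEp.fst_mem a)
  · intro τ hτ τ' hτ' hne
    have hs : Std.Symm fun τ τ' : ℕ × ℕ => List.Disjoint (IEp.g τ) (IEp.g τ') :=
      ⟨fun a b hab => hab.symm⟩
    exact IEp.dj_of (h2.forall hτ hτ' hne)

end Pool.Agent.Work.MP_c6c039_lc.NC
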