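import Pool.Agent.Work.MP_c6c039_lc.NC.StmtsM

/-!
Block NC, item Fd: a few removed points as a list of numbers (helper65).
-/

set_option autoImplicit false

namespace Pool.Agent.Work.MP_c6c039_lc.NC

open Pool.Agent.PT Pool.Agent.Work.MP_c6c039_lc.FP N487b59b3

namespace IFd

theorem mem_cm (F : In) (D : List ℕ) (i : ℕ) : i ∈ cm F D ↔ i < nn F ∧ i ∉ D := by
  unfold cm
  rw [List.mem_filter, List.mem_range]
  simp

end IFd

theorem pr_Fd (hCT : FP.St_CT) (hPI : FP.St_PI) (hGx : St_Gx) : St_Fd := by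
  classical
  intro I hG k ⟨D, hDk, hD⟩
  obtain ⟨hnn, -, -⟩ := hCT I
  obtain ⟨hinj, -, hall, -⟩ := hPI I hG
  obtain ⟨D', hD'⟩ : ∃ D' : List ℕ, D' = (List.range (I.1 ++ I.2).length).filter
      fun i => decide (pnt I i ∈ D) := ⟨_, rfl⟩
  have hmem : ∀ i, i ∈ D' ↔ i < (I.1 ++ I.2).length ∧ pnt I i ∈ D := by
    intro i
    rw [hD', List.mem_filter, List.mem_range, decide_eq_true_iff]
  have hnd : D'.Nodup := by
    rw [hD']
    exact List.Nodup.filter _ List.nodup_range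
  have hlen : D'.length ≤ D.card := by
    have h1 : (D'.map (pnt I)).Nodup := by
      refine List.Nodup.map_on ?_ hnd
      intro a ha b hb hab
      exact hinj a b ((hmem a).1 ha).1 ((hmem b).1 hb).1 hab
    have h2 : (D'.map (pnt I)).toFinset ⊆ D := by
      intro q hq
      rw [List.mem_toFinset, List.mem_map] at hq
      obtain ⟨a, ha, rfl⟩ := hq
      exact ((hmem a).1 ha).2
    have h3 := Finset.card_le_card h2
    rwa [List.toFinset_card_of_nodup h1, List.length_map] at h3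
  refine ⟨D', hnd, hlen.trans hDk, ?_, hGx I hG D' ?_⟩
  · intro v hv
    rw [hnn]
    exact ((hmem v).1 hv).1
  · intro i hi
    rw [IFd.mem_cm, hnn, hmem] at hi
    have hiD : pnt I i ∉ D := fun h => hi.2 ⟨hi.1, h⟩
    intro h
    refine hD (pnt I i) ((hall _).2 ⟨i, hi.1, rfl⟩) hiD (convexHull_mono ?_ h)
    rintro q ⟨j, hj, hji, rfl⟩
    rw [IFd.mem_cm, hnn, hmem] at hj
    exact ⟨(hall _).2 ⟨j, hj.1, rfl⟩, fun h => hj.2 ⟨hj.1, h⟩,
      fun h => hji (hinj j i hj.1 hi.1 h)⟩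

end Pool.Agent.Work.MP_c6c039_lc.NC
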