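import Pool.Agent.Work.MP_c6c039_lc.NC.StmtsK

/-!
# Block NC, item Fm: the edges of a concatenation of groups
-/

set_option autoImplicit false

namespace Pool.Agent.Work.MP_c6c039_lc.NC

namespace IFm

theorem ed_cons₂ {α : Type} (a b : α) (l : List α) : ed (a :: b :: l) = (a, b) :: ed (b :: l) := rfl

end IFm

theorem pr_Fm (hEd : St_Ed) (hCn : St_Cn) : St_Fm := by
  obtain ⟨-, hA, -⟩ := hEd
  intro σ
  induction σ with
  | nil =>
    intro h _ e he
    simp [ed] at he
  | cons τ σ ih =>
    intro h hh e he
    rw [List.flatMap_cons, hA] at he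
    rcases he with he | he | ⟨h1, h2⟩
    · exact Or.inl ⟨τ, List.mem_cons_self, he⟩
    · rcases ih h (fun t ht => hh t (List.mem_cons_of_mem _ ht)) e he with ⟨t, ht, he'⟩ | he'
      · exact Or.inl ⟨t, List.mem_cons_of_mem _ ht, he'⟩
      · refine Or.inr ?_
        rw [hCn] at he' ⊢
        obtain ⟨t, t', ht, rfl⟩ := he'
        refine ⟨t, t', ?_, rfl⟩
        cases σ with
        | nil => simp [ed] at ht
        | cons s σ =>
          rw [IFm.ed_cons₂]
          exact List.mem_cons_of_mem _ ht
    · refine Or.inr ?_
      cases σ with
      | nil => simp at h2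
      | cons s σ =>
        rw [hCn]
        refine ⟨τ, s, ?_, ?_⟩
        · rw [IFm.ed_cons₂]
          exact List.mem_cons_self
        · have e1 := (hh τ List.mem_cons_self).2
          have e2 := (hh s (List.mem_cons_of_mem _ List.mem_cons_self)).1
          have e3 : (List.flatMap h (s :: σ)).head? = some s.1 := by
            rw [List.flatMap_cons, List.head?_append, e2]
            rfl
          rw [e3] at h2
          rw [e1] at h1
          apply Prod.ext
          · exact (Option.some.inj h1).symm
          · exact (Option.some.inj h2).symm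

end Pool.Agent.Work.MP_c6c039_lc.NC
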