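import Pool.Agent.Work.MP_c6c039_lc.NC.StmtsK

set_option autoImplicit false

namespace Pool.Agent.Work.MP_c6c039_lc.NC

theorem pr_G1 : St_G1 := by
  intro D l
  induction l with
  | nil =>
    refine ⟨rfl, fun g hg => ?_⟩
    exact absurd hg (List.not_mem_nil)
  | cons v l ih =>
    have h : grp D (v :: l) = gi D v (grp D l) := rfl
    rw [h]
    obtain ⟨ih1, ih2⟩ := ih
    cases hG : grp D l with
    | nil =>
      rw [hG] at ih1
      have hl : l = [] := by rw [← ih1]; rfl
      subst hl
      refine ⟨rfl, fun g hg => ?_⟩
      have hg' : g = [v] := by simpa [gi] using hg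
      subst hg'
      refine ⟨by simp, fun _ => rfl, fun hv z hz => ?_⟩
      have : z = v := by simpa using hz
      rw [this]; exact hv
    | cons g gs =>
      rw [hG] at ih1 ih2
      by_cases hc : v ∈ D ∨ g.headD 0 ∈ D
      · have e : gi D v (g :: gs) = [v] :: g :: gs := by simp only [gi, if_pos hc]
        rw [e]
        refine ⟨?_, fun g' hg' => ?_⟩
        · rw [List.flatten_cons, ih1]; rfl
        · rcases List.mem_cons.1 hg' with h1 | h1
          · subst h1
            refine ⟨by simp, fun _ => rfl, fun hv z hz => ?_⟩
            have : z = v := by simpa using hz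
            rw [this]; exact hv
          · exact ih2 g' h1
      · have e : gi D v (g :: gs) = (v :: g) :: gs := by simp only [gi, if_neg hc]
        rw [e]
        have hv : v ∉ D := fun h => hc (Or.inl h)
        have hg0 : g.headD 0 ∉ D := fun h => hc (Or.inr h)
        refine ⟨?_, fun g' hg' => ?_⟩
        · rw [List.flatten_cons, List.cons_append, ← List.flatten_cons, ih1]
        · rcases List.mem_cons.1 hg' with h1 | h1
          · subst h1
            refine ⟨by simp, fun h => absurd h hv, fun _ z hz => ?_⟩
            rcases List.mem_cons.1 hz with h2 | h2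
            · rw [h2]; exact hv
            · exact (ih2 g (List.mem_cons_self)).2.2 hg0 z h2
          · exact ih2 g' (List.mem_cons_of_mem _ h1)

end Pool.Agent.Work.MP_c6c039_lc.NC
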