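import Pool.Agent.Work.MP_c6c039_lc.NC.StmtsK

/-!
# Block NC, item G2: the number of groups (helper46)
-/

set_option autoImplicit false

namespace Pool.Agent.Work.MP_c6c039_lc.NC

namespace IG2

theorem strong (D : List ℕ) : ∀ l : List ℕ,
    (grp D l).length ≤ 2 * (l.filter fun v => decide (v ∈ D)).length + 1 ∧
    ∀ g gs, grp D l = g :: gs → g.headD 0 ∈ D →
      (grp D l).length ≤ 2 * (l.filter fun v => decide (v ∈ D)).length := by
  intro l
  induction l with
  | nil => exact ⟨by simp [grp], fun g gs h => by simp [grp] at h⟩
  | cons v l ih =>
    obtain ⟨i1, i2⟩ := ih
    have hc : grp D (v :: l) = gi D v (grp D l) := rfl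
    rw [hc]
    by_cases hv : v ∈ D
    · have hf : ((v :: l).filter fun v => decide (v ∈ D)).length =
          (l.filter fun v => decide (v ∈ D)).length + 1 := by
        rw [List.filter_cons_of_pos (by simpa using hv)]
        rfl
      rw [hf]
      have hl : (gi D v (grp D l)).length ≤ (grp D l).length + 1 := by
        cases h : grp D l with
        | nil => simp [gi]
        | cons g gs =>
          simp only [gi]
          rw [if_pos (Or.inl hv)]
          simp
      exact ⟨by omega, fun _ _ _ _ => by omega⟩
    · have hf : ((v :: l).filter fun v => decide (v ∈ D)).length =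
          (l.filter fun v => decide (v ∈ D)).length := by
        rw [List.filter_cons_of_neg (by simpa using hv)]
      rw [hf]
      cases h : grp D l with
      | nil =>
        refine ⟨by simp [gi], ?_⟩
        intro g gs hg hd
        simp only [gi] at hg
        have h1 : [v] = g := (List.cons.inj hg).1
        rw [← h1] at hd
        exact absurd hd hv
      | cons g gs =>
        simp only [gi]
        by_cases hg : g.headD 0 ∈ D
        · rw [if_pos (Or.inr hg)]
          have h2 := i2 g gs h hg
          rw [h] at h2
          refine ⟨by simp only [List.length_cons] at h2 ⊢; omega, ?_⟩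
          intro g' gs' hg' hd
          have h1 : [v] = g' := (List.cons.inj hg').1
          rw [← h1] at hd
          exact absurd hd hv
        · rw [if_neg (by rintro (h1 | h1); exacts [hv h1, hg h1])]
          rw [h] at i1
          refine ⟨by simp only [List.length_cons] at i1 ⊢; omega, ?_⟩
          intro g' gs' hg' hd
          have h1 : v :: g = g' := (List.cons.inj hg').1
          rw [← h1] at hd
          exact absurd hd hv

end IG2

theorem pr_G2 : St_G2 := fun D l => (IG2.strong D l).1

end Pool.Agent.Work.MP_c6c039_lc.NC
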