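import Pool.Agent.Work.MP_c6c039_lc.NC.StmtsK

/-!
# Block NC, item G3: edges of the groups (helper26)
-/

set_option autoImplicit false

namespace Pool.Agent.Work.MP_c6c039_lc.NC

namespace IG3

/-- the ends of a nonempty list form a sublist -/
theorem ends_sublist (g : List ℕ) (hg : g ≠ []) :
    (if (tk g).1 = (tk g).2 then [(tk g).1] else [(tk g).1, (tk g).2]).Sublist g := by
  cases g with
  | nil => exact absurd rfl hg
  | cons a t =>
    have h1 : (tk (a :: t)).1 = a := rfl
    rw [h1]
    split_ifs with h
    · exact List.Sublist.cons_cons a (List.nil_sublist t)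
    · refine List.Sublist.cons_cons a ?_
      rw [List.singleton_sublist]
      cases t with
      | nil => exact absurd rfl h
      | cons b s =>
        have h2 : (tk (a :: b :: s)).2 = (b :: s).getLast (by simp) := by
          simp only [tk]
          rw [List.getLastD_eq_getLast?, List.getLast?_cons_cons, List.getLast?_eq_getLast_of_ne_nil (by simp)]
          rfl
        rw [h2]
        exact List.getLast_mem _

theorem getLast?_tk (g : List ℕ) (hg : g ≠ []) : g.getLast? = some (tk g).2 := by
  simp only [tk]
  rw [List.getLastD_eq_getLast?, List.getLast?_eq_getLast_of_ne_nil hg]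
  rfl

theorem head?_tk (g : List ℕ) (G : List (List ℕ)) (hg : g ≠ []) :
    ((g :: G).flatten).head? = some (tk g).1 := by
  cases g with
  | nil => exact absurd rfl hg
  | cons a t => rfl

end IG3

open IG3 in
theorem pr_G3 (hEd : St_Ed) (hCn : St_Cn) : St_G3 := by
  have hA := hEd.2.1
  intro G
  induction G with
  | nil =>
    intro _
    refine ⟨fun g hg => absurd hg (by simp), ?_, ?_⟩
    · intro f hf
      obtain ⟨τ, τ', h, -⟩ := (hCn _ f).1 hf
      simp [ed] at h
    · simp [eps]
  | cons g G ih =>
    intro hne
    have hg : g ≠ [] := hne g (by simp)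
    obtain ⟨i1, i2, i3⟩ := ih (fun x hx => hne x (by simp [hx]))
    have hfl : (g :: G).flatten = g ++ G.flatten := by simp
    refine ⟨?_, ?_, ?_⟩
    · intro x hx e he
      rw [hfl]
      rcases List.mem_cons.1 hx with rfl | hx
      · exact (hA ℕ _ _ e).2 (Or.inl he)
      · exact (hA ℕ _ _ e).2 (Or.inr (Or.inl (i1 x hx e he)))
    · intro f hf
      obtain ⟨τ, τ', h, hfe⟩ := (hCn _ f).1 hf
      rw [hfl]
      cases G with
      | nil => simp [ed] at h
      | cons g' G' =>
        have hg' : g' ≠ [] := hne g' (by simp)
        have h' : (τ, τ') = (tk g, tk g') ∨ (τ, τ') ∈ ed ((g' :: G').map tk) := by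
          have h0 : ed ((g :: g' :: G').map tk) = (tk g, tk g') :: ed ((g' :: G').map tk) := rfl
          rw [h0] at h
          exact List.mem_cons.1 h
        rcases h' with h' | h'
        · have e1 : τ = tk g := congrArg Prod.fst h'
          have e2 : τ' = tk g' := congrArg Prod.snd h'
          subst e1 e2
          refine (hA ℕ _ _ f).2 (Or.inr (Or.inr ⟨?_, ?_⟩))
          · rw [hfe]
            exact getLast?_tk g hg
          · rw [hfe]
            exact head?_tk g' G' hg'
        · exact (hA ℕ _ _ f).2 (Or.inr (Or.inl (i2 f ((hCn _ f).2 ⟨τ, τ', h', hfe⟩))))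
    · rw [hfl]
      have h0 : eps ((g :: G).map tk) =
          (if (tk g).1 = (tk g).2 then [(tk g).1] else [(tk g).1, (tk g).2]) ++ eps (G.map tk) := by
        simp [eps]
      rw [h0]
      exact List.Sublist.append (ends_sublist g hg) i3

end Pool.Agent.Work.MP_c6c039_lc.NC
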