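import Pool.Agent.Work.MP_c6c039_lc.NC.StmtsL

/-!
# Item Gp of block NC: gaps are closed
-/

set_option autoImplicit false

namespace Pool.Agent.Work.MP_c6c039_lc.NC

namespace IGp

/-- meaning of `bt` -/
theorem bt_iff (a b c : ℕ) : bt a b c = true ↔ (a < c ∧ c < b) ∨ (b < c ∧ c < a) := by
  unfold bt
  simp only [Bool.or_eq_true, Bool.and_eq_true, decide_eq_true_eq]

/-- two different members of a pairwise list -/
theorem pair {M : List (List ℕ)} {R : List ℕ → List ℕ → Prop} (h : M.Pairwise R) {p q : List ℕ}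
    (hp : p ∈ M) (hq : q ∈ M) (hne : p ≠ q) : R p q ∨ R q p := by
  have h1 : M.Pairwise fun x y => R x y ∨ R y x := h.imp fun hxy => Or.inl hxy
  have hs : Std.Symm fun x y => R x y ∨ R y x := { symm := fun x y hxy => hxy.symm }
  exact h1.forall hp hq hne

end IGp

theorem pr_Gp (hNx : St_Nx) (hPa : St_Pa) : St_Gp := by
  intro d M m hS p hp u hu v hv huv hgap q hq hz z' hz'
  obtain ⟨z, hzq, hz1, hz2⟩ := hz
  have hne : p ≠ q := by
    intro h
    rw [← h] at hzq
    exact hgap z hzq ⟨by omega, hz2⟩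
  have hR : NX p q ∧ ∀ x ∈ p, x ∉ q := by
    rcases IGp.pair hS.pw hp hq hne with h | h
    · exact h
    · refine ⟨hNx.1 q p (hS.pc q hq).nodup (hS.pc p hp).nodup h.1, ?_⟩
      intro x hxp hxq
      exact h.2 x hxq hxp
  have h1 := hPa p q hR.1 hR.2 u hu v hv z hzq z' hz'
  have h2 : bt u v z = true := (IGp.bt_iff u v z).2 (Or.inl ⟨by omega, hz2⟩)
  have h3 : bt u v z' = true := by
    unfold il at h1
    rw [h2] at h1
    cases h4 : bt u v z'
    · rw [h4] at h1
      exact absurd h1 (by decide)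
    · rfl
  have h4 := (IGp.bt_iff u v z').1 h3
  omega

end Pool.Agent.Work.MP_c6c039_lc.NC
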