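import Pool.Agent.Work.MP_c6c039_lc.NC.StmtsM

/-!
# Block NC, item Gx: convex position gives extreme numbers (helper88; `tri` copied from FP/I_NM.lean)
-/

set_option autoImplicit false

namespace Pool.Agent.Work.MP_c6c039_lc.NC

open Pool.Agent.PT Pool.Agent.Work.MP_c6c039_lc.FP N487b59b3

namespace IGx

/-- a point with barycentric coordinates of the same sign lies in the triangle -/
theorem tri {A B C P : ℝ × ℝ}
    (h : (0 < area B C P ∧ 0 < area C A P ∧ 0 < area A B P) ∨
      (area B C P < 0 ∧ area C A P < 0 ∧ area A B P < 0)) :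
    P ∈ convexHull ℝ ({A, B, C} : Set (ℝ × ℝ)) := by
  have hs : area B C P + area C A P + area A B P ≠ 0 := by
    rcases h with ⟨h1, h2, h3⟩ | ⟨h1, h2, h3⟩
    · exact (by linarith : 0 < area B C P + area C A P + area A B P).ne'
    · exact (by linarith : area B C P + area C A P + area A B P < 0).ne
  have hw : ∀ i : Fin 3, 0 ≤ (![area B C P, area C A P, area A B P] i) /
      (area B C P + area C A P + area A B P) := by
    rcases h with ⟨h1, h2, h3⟩ | ⟨h1, h2, h3⟩
    · intro i
      fin_cases i
      · exact div_nonneg h1.le (by linarith)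
      · exact div_nonneg h2.le (by linarith)
      · exact div_nonneg h3.le (by linarith)
    · intro i
      fin_cases i
      · exact div_nonneg_of_nonpos h1.le (by linarith)
      · exact div_nonneg_of_nonpos h2.le (by linarith)
      · exact div_nonneg_of_nonpos h3.le (by linarith)
  have key := (convex_convexHull ℝ ({A, B, C} : Set (ℝ × ℝ))).sum_mem
    (t := (Finset.univ : Finset (Fin 3)))
    (w := fun i => (![area B C P, area C A P, area A B P] i) /
      (area B C P + area C A P + area A B P)) (z := ![A, B, C])
    (fun i _ => hw i) (by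
      rw [Fin.sum_univ_three]
      show area B C P / _ + area C A P / _ + area A B P / _ = 1
      rw [← add_div, ← add_div, div_self hs])
    (by
      intro i _
      apply subset_convexHull
      fin_cases i
      · exact Or.inl rfl
      · exact Or.inr (Or.inl rfl)
      · exact Or.inr (Or.inr rfl))
  have e : (∑ i : Fin 3, ((![area B C P, area C A P, area A B P] i) /
      (area B C P + area C A P + area A B P)) • (![A, B, C] i)) = P := by
    rw [Fin.sum_univ_three]
    show (area B C P / _) • A + (area C A P / _) • B + (area A B P / _) • C = P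
    refine Prod.ext ?_ ?_
    · simp only [Prod.fst_add, Prod.smul_fst, smul_eq_mul]
      field_simp
      unfold area
      ring
    · simp only [Prod.snd_add, Prod.smul_snd, smul_eq_mul]
      field_simp
      unfold area
      ring
  rw [e] at key
  exact key

end IGx

theorem pr_Gx (hSy : FP.St_Sy) (hHl : FP.St_Hl) (hGD : FP.St_GD) (hCT : FP.St_CT) (hPI : FP.St_PI)
    (hSg : St_Sg) : St_Gx := by
  classical
  intro I hI D hconv
  obtain ⟨hn, hchi, -⟩ := hCT I
  obtain ⟨hinj, -, -, -, -, hgen⟩ := hPI I hI
  have hG : Good (full (bitEncode I)) := hGD I hI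
  generalize hF : full (bitEncode I) = F at *
  generalize hnn : (I.1 ++ I.2).length = n at *
  have hCdef : cm F D = (List.range (nn F)).filter fun v => !decide (v ∈ D) := rfl
  have hCnd : (cm F D).Nodup := by
    rw [hCdef]
    exact List.nodup_range.filter _
  have hClt : ∀ v ∈ cm F D, v < nn F := by
    intro v hv
    rw [hCdef, List.mem_filter, List.mem_range] at hv
    exact hv.1
  obtain ⟨hJn, hJc, hJG⟩ := hSg F hG (cm F D) hCnd hClt
  obtain ⟨hund, humem, -⟩ := hHl (sub F (cm F D)) (hSy _ hJG.real) hJG.hull
  have hlen : (cyl F D).length = (hu (sub F (cm F D))).length := by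
    unfold cyl
    rw [List.length_map]
  rw [hlen]
  generalize hC : cm F D = C at *
  generalize hJ : sub F C = J at *
  have hget : ∀ a, a < C.length → C.getD a 0 ∈ C := by
    intro a ha
    rw [List.getD_eq_getElem _ _ ha]
    exact List.getElem_mem ha
  have hgn : ∀ a, a < C.length → C.getD a 0 < n := by
    intro a ha
    rw [← hn]
    exact hClt _ (hget a ha)
  have hgi : ∀ a b, a < C.length → b < C.length → a ≠ b → C.getD a 0 ≠ C.getD b 0 := by
    intro a b ha hb hab h
    rw [List.getD_eq_getElem _ _ ha, List.getD_eq_getElem _ _ hb] at h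
    exact hab ((List.Nodup.getElem_inj_iff hCnd).1 h)
  have hext : ∀ p, p < C.length → ext J p = true := by
    intro p hp
    by_contra h1
    have h2 : ∃ a b c, a < C.length ∧ b < C.length ∧ c < C.length ∧ a ≠ b ∧ b ≠ c ∧ c ≠ a ∧
        a ≠ p ∧ b ≠ p ∧ c ≠ p ∧ inT J a b c p = true := by
      by_contra hno
      push Not at hno
      apply h1
      unfold ext
      rw [List.all_eq_true]
      intro a ha
      rw [List.all_eq_true]
      intro b hb
      rw [List.all_eq_true]
      intro c hc
      rw [List.mem_range, hJn] at ha hb hc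
      simp only [Bool.or_eq_true, beq_iff_eq, Bool.not_eq_true']
      by_contra hcon
      push Not at hcon
      obtain ⟨q1, q2, q3, q4, q5, q6, q7⟩ := hcon
      exact hno a b c ha hb hc q1 q2 q3 q4 q5 q6 (by simpa using q7)
    obtain ⟨a, b, c, ha, hb, hc, hab, hbc, hca, hap, hbp, hcp, hT⟩ := h2
    unfold inT at hT
    rw [Bool.and_eq_true, beq_iff_eq, beq_iff_eq] at hT
    rw [hJc a b p ha hb hp, hJc b c p hb hc hp, hJc c a p hc ha hp] at hT
    obtain ⟨t1, t2⟩ := hT
    have eab := hgi a b ha hb hab
    have ebc := hgi b c hb hc hbc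
    have eca := hgi c a hc ha hca
    have eap := hgi a p ha hp hap
    have ebp := hgi b p hb hp hbp
    have ecp := hgi c p hc hp hcp
    have na := hgn a ha
    have nb := hgn b hb
    have nc := hgn c hc
    have np := hgn p hp
    have ma := hget a ha
    have mb := hget b hb
    have mc := hget c hc
    have mp := hget p hp
    generalize C.getD a 0 = A at *
    generalize C.getD b 0 = B at *
    generalize C.getD c 0 = E at *
    generalize C.getD p 0 = P at *
    have w1 : area (pnt I A) (pnt I B) (pnt I P) ≠ 0 := hgen A B P na nb np eab ebp eap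
    have w2 : area (pnt I B) (pnt I E) (pnt I P) ≠ 0 := hgen B E P nb nc np ebc ecp ebp
    have w3 : area (pnt I E) (pnt I A) (pnt I P) ≠ 0 := hgen E A P nc na np eca eap ecp
    have k1 := hchi A B P na nb np
    have k2 := hchi B E P nb nc np
    have k3 := hchi E A P nc na np
    have htri : pnt I P ∈ convexHull ℝ ({pnt I A, pnt I B, pnt I E} : Set (ℝ × ℝ)) := by
      apply IGx.tri
      by_cases hcase : chi F A B P = true
      · left
        refine ⟨k2.1 ?_, k3.1 ?_, k1.1 hcase⟩
        · rw [← t1]; exact hcase
        · rw [← t2, ← t1]; exact hcase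
      · right
        have h4 : ¬ chi F B E P = true := by rw [← t1]; exact hcase
        have h5 : ¬ chi F E A P = true := by rw [← t2]; exact h4
        refine ⟨?_, ?_, ?_⟩
        · exact lt_of_le_of_ne (not_lt.1 fun h => h4 (k2.2 h)) w2
        · exact lt_of_le_of_ne (not_lt.1 fun h => h5 (k3.2 h)) w3
        · exact lt_of_le_of_ne (not_lt.1 fun h => hcase (k1.2 h)) w1
    apply hconv P mp
    refine convexHull_mono ?_ htri
    rintro q (rfl | rfl | rfl)
    · exact ⟨A, ma, eap, rfl⟩
    · exact ⟨B, mb, ebp, rfl⟩
    · exact ⟨E, mc, ecp, rfl⟩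
  have h3 : (hu J).toFinset = Finset.range C.length := by
    ext p
    rw [List.mem_toFinset, humem p, Finset.mem_range, hJn]
    exact ⟨fun h => h.1, fun h => ⟨h, hext p h⟩⟩
  rw [← List.toFinset_card_of_nodup hund, h3, Finset.card_range]

end Pool.Agent.Work.MP_c6c039_lc.NC
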