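import Pool.Agent.Work.MP_c6c039_lc.NC.StmtsL

/-!
# Block NC, item In: initial sets
-/

set_option autoImplicit false

namespace Pool.Agent.Work.MP_c6c039_lc.NC

namespace IIn

theorem bt_false {u v g : ℕ} (h : (g ≤ u ∧ g ≤ v) ∨ (u ≤ g ∧ v ≤ g)) : bt u v g = false := by
  unfold bt
  rcases h with ⟨h1, h2⟩ | ⟨h1, h2⟩
  · have a1 : decide (u < g) = false := decide_eq_false (by omega)
    have a2 : decide (v < g) = false := decide_eq_false (by omega)
    rw [a1, a2]
    rfl
  · have a1 : decide (g < v) = false := decide_eq_false (by omega)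
    have a2 : decide (g < u) = false := decide_eq_false (by omega)
    rw [a1, a2, Bool.and_false, Bool.and_false]
    rfl

end IIn

theorem pr_In (hEd : St_Ed) (hPa : St_Pa) : St_In := by
  obtain ⟨-, -, -, hE4, -, -, -⟩ := hEd
  intro p c g hnd hNX hg hext j hj u hu v hv x hx
  have hNX' : NX (p.take j) (p.drop j) := fun e he f hf hd =>
    hNX e ((hE4 _ p j e).1 he) f ((hE4 _ p j f).2 hf) hd
  have hdis : ∀ z ∈ p.take j, z ∉ p.drop j := by
    have h : List.Disjoint (p.take j) (p.drop j) := List.disjoint_take_drop hnd (le_refl j)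
    intro z hz hz'
    exact h hz hz'
  have hgj : g ∈ p.drop j := by
    obtain ⟨k, rfl⟩ := Nat.exists_eq_add_of_le hj
    rw [← List.drop_drop] at hg
    exact List.mem_of_mem_drop hg
  have hil := hPa (p.take j) (p.drop j) hNX' hdis u hu v hv x hx g hgj
  have hup : u ∈ p := List.mem_of_mem_take hu
  have hvp : v ∈ p := List.mem_of_mem_take hv
  have hbg : bt u v g = false := by
    apply IIn.bt_false
    rcases hext with h | h
    · exact Or.inl ⟨h u hup, h v hvp⟩
    · exact Or.inr ⟨h u hup, h v hvp⟩
  unfold il at hil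
  rw [hbg, Bool.xor_false] at hil
  exact hil

end Pool.Agent.Work.MP_c6c039_lc.NC
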