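import Pool.Agent.Work.MP_c6c039_lc.NC.StmtsL

set_option autoImplicit false

namespace Pool.Agent.Work.MP_c6c039_lc.NC

namespace IIv

theorem bt_eq (a b c : ℕ) : bt a b c = decide ((a < c ∧ c < b) ∨ (b < c ∧ c < a)) := by
  rw [Bool.eq_iff_iff]
  simp [bt]

theorem mem_ed {l : List ℕ} {e : ℕ × ℕ} (h : e ∈ ed l) : e.1 ∈ l ∧ e.2 ∈ l := by
  have h' : (e.1, e.2) ∈ l.zip l.tail := h
  have h1 := List.of_mem_zip h'
  exact ⟨h1.1, List.mem_of_mem_tail h1.2⟩

end IIv

open IIv

theorem pr_Iv : St_Iv := by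
  refine ⟨fun p q c hp hq => ⟨fun e he f hf _ => ?_, fun e he f hf _ => ?_⟩, ?_, ?_⟩
  · obtain ⟨h1, h2⟩ := mem_ed he
    obtain ⟨h3, h4⟩ := mem_ed hf
    have g1 := hp _ h1
    have g2 := hp _ h2
    have g3 := hq _ h3
    have g4 := hq _ h4
    have e1 : bt e.1 e.2 f.1 = false := by
      rw [bt_eq, decide_eq_false_iff_not]
      omega
    have e2 : bt e.1 e.2 f.2 = false := by
      rw [bt_eq, decide_eq_false_iff_not]
      omega
    rw [il, e1, e2]
    rfl
  · obtain ⟨h1, h2⟩ := mem_ed he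
    obtain ⟨h3, h4⟩ := mem_ed hf
    have g1 := hq _ h1
    have g2 := hq _ h2
    have g3 := hp _ h3
    have g4 := hp _ h4
    have e1 : bt e.1 e.2 f.1 = false := by
      rw [bt_eq, decide_eq_false_iff_not]
      omega
    have e2 : bt e.1 e.2 f.2 = false := by
      rw [bt_eq, decide_eq_false_iff_not]
      omega
    rw [il, e1, e2]
    rfl
  · intro a b c d h1 h2 h3 h4 h5
    have e1 : bt a b c = true := by
      rw [bt_eq, decide_eq_true_eq]
      omega
    have e2 : bt a b d = true := by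
      rw [bt_eq, decide_eq_true_eq]
      omega
    rw [il, e1, e2]
    rfl
  · intro a b c d h1 h2 h3
    have e1 : bt a b c = false := by
      rw [bt_eq, decide_eq_false_iff_not]
      omega
    have e2 : bt a b d = false := by
      rw [bt_eq, decide_eq_false_iff_not]
      omega
    rw [il, e1, e2]
    rfl

end Pool.Agent.Work.MP_c6c039_lc.NC
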