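import Pool.Agent.Work.MP_c6c039_lc.NC.StmtsK

/-!
# Block NC, item K1: the pieces of a path
-/

set_option autoImplicit false

namespace Pool.Agent.Work.MP_c6c039_lc.NC

open Pool.Agent.Work.MP_c6c039_lc.FP

namespace IK1

/-- the groups outside `D` -/
def Fg (D l : List ℕ) : List (List ℕ) := (grp D l).filter fun g => !decide (g.headD 0 ∈ D)

theorem mem_Fg {D l g : List ℕ} : g ∈ Fg D l ↔ g ∈ grp D l ∧ g.headD 0 ∉ D := by
  unfold Fg
  rw [List.mem_filter]
  simp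

theorem pcs_eq (D C l : List ℕ) : pcs D C l = (Fg D l).map fun g => g.map (px C) := rfl

theorem head_ne {g : List ℕ} (h : g ≠ []) : g.head? = some (g.headD 0) := by
  cases g with
  | nil => exact absurd rfl h
  | cons a t => rfl

theorem last_ne {g : List ℕ} (h : g ≠ []) : g.getLast? = some (g.getLastD 0) := by
  rw [List.getLastD_eq_getLast?]
  rw [List.getLast?_eq_some_getLast h]
  rfl

theorem headD_mem {g : List ℕ} (h : g ≠ []) : g.headD 0 ∈ g :=
  List.mem_of_mem_head? (head_ne h)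

theorem lastD_mem {g : List ℕ} (h : g ≠ []) : g.getLastD 0 ∈ g :=
  List.mem_of_mem_getLast? (last_ne h)

end IK1

theorem pr_K1 (hSy : FP.St_Sy) (hCs : FP.St_Cs) (hEd : St_Ed) (hCy : St_Cy) (hCi : St_Ci)
    (hPx : St_Px) (hNc : St_Nc) (hDa : St_Da) (hG1 : St_G1) (hG3 : St_G3) : St_K1 := by
  intro I hI D l hl hlen
  obtain ⟨hCn, hCm, hCt, hCa⟩ := hCy I hI D
  have hCH := hSy I hI.real
  set C := cyl I D with hC
  obtain ⟨hfl, hgr⟩ := hG1 D l
  have hg0 : ∀ g ∈ grp D l, g ≠ [] := fun g hg => (hgr g hg).1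
  obtain ⟨h31, h32, h33⟩ := hG3 (grp D l) hg0
  rw [hfl] at h31 h32 h33
  set σ := (grp D l).map tk with hσ
  obtain ⟨hSm, hd1, hok, hmem, hokx⟩ := hDa I D C σ
  obtain ⟨hpx1, hpx2⟩ := hPx C
  obtain ⟨hnc1, hnc2⟩ := hNc I l hl.nodup
  have hncr := hnc1.1 hl.nc
  have hcol := hnc2.1 hl.alt
  have hfn : (∀ g ∈ grp D l, g.Nodup) ∧ (grp D l).Pairwise List.Disjoint := by
    have := hl.nodup
    rw [← hfl] at this
    exact List.nodup_flatten.1 this
  have hlC : ∀ w ∈ l, w ∉ D → w ∈ C := fun w hw hwD => hCa hlen w ((hl.span w).1 hw) hwD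
  have hgl : ∀ g ∈ grp D l, ∀ w ∈ g, w ∈ l := by
    intro g hg w hw
    rw [← hfl]
    exact List.mem_flatten.2 ⟨g, hg, hw⟩
  have hFC : ∀ g ∈ IK1.Fg D l, ∀ w ∈ g, w ∈ C := by
    intro g hg w hw
    obtain ⟨hg1, hg2⟩ := IK1.mem_Fg.1 hg
    exact hlC w (hgl g hg1 w hw) ((hgr g hg1).2.2 hg2 w hw)
  have hinj : ∀ u ∈ C, ∀ v ∈ C, px C u = px C v → u = v := by
    intro u hu v hv h
    rw [← (hpx1 u hu).2, ← (hpx1 v hv).2, h]
  -- edges of the pieces
  have hedm : ∀ g : List ℕ, ∀ e ∈ ed (g.map (px C)), ∃ f ∈ ed g, e = (px C f.1, px C f.2) := by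
    intro g e he
    rw [hEd.2.2.2.2.2.1] at he
    obtain ⟨f, hf, hfe⟩ := List.mem_map.1 he
    exact ⟨f, hf, hfe.symm⟩
  have hNX : ∀ g ∈ IK1.Fg D l, ∀ g' ∈ IK1.Fg D l, NX (g.map (px C)) (g'.map (px C)) := by
    intro g hg g' hg' e he f hf hd
    obtain ⟨hg1, hg2⟩ := IK1.mem_Fg.1 hg
    obtain ⟨hg1', hg2'⟩ := IK1.mem_Fg.1 hg'
    obtain ⟨⟨u, v⟩, huv, rfl⟩ := hedm g e he
    obtain ⟨⟨w, x⟩, hwx, rfl⟩ := hedm g' f hf
    have m1 := hEd.1 ℕ g (u, v) huv
    have m2 := hEd.1 ℕ g' (w, x) hwx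
    have hu := hFC g hg u m1.1
    have hv := hFC g hg v m1.2
    have hw := hFC g' hg' w m2.1
    have hx := hFC g' hg' x m2.2
    have hne1 : u ≠ v := hEd.2.2.2.2.1 ℕ g (u, v) (hfn.1 g hg1) huv
    have hne2 : w ≠ x := hEd.2.2.2.2.1 ℕ g' (w, x) (hfn.1 g' hg1') hwx
    have hd' : dj (u, v) (w, x) := by
      unfold dj at hd ⊢
      simp only at hd ⊢
      exact ⟨fun h => hd.1 (by rw [h]), fun h => hd.2.1 (by rw [h]), fun h => hd.2.2.1 (by rw [h]),
        fun h => hd.2.2.2 (by rw [h])⟩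
    have hcr := hncr (u, v) (h31 g hg1 _ huv) (w, x) (h31 g' hg1' _ hwx) hd'
    have hci := hCi I hI C hCn (fun v hv => (hCm v hv).1) hCt (px C u) (px C v) (px C w) (px C x)
      (hpx1 u hu).1 (hpx1 v hv).1 (hpx1 w hw).1 (hpx1 x hx).1 hd
      (fun h => hne1 (hinj u hu v hv h)) (fun h => hne2 (hinj w hw x hx h))
    rw [(hpx1 u hu).2, (hpx1 v hv).2, (hpx1 w hw).2, (hpx1 x hx).2] at hci
    simp only
    rw [← hci]
    exact hcr
  have hokk : ∀ g ∈ IK1.Fg D l, ∀ f ∈ ed (g.map (px C)), okd (dat I D C σ) f.1 f.2 = true := by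
    intro g hg f hf
    obtain ⟨hg1, hg2⟩ := IK1.mem_Fg.1 hg
    obtain ⟨⟨u, v⟩, huv, rfl⟩ := hedm g f hf
    have m1 := hEd.1 ℕ g (u, v) huv
    have hu := hFC g hg u m1.1
    have hv := hFC g hg v m1.2
    have hne1 : u ≠ v := hEd.2.2.2.2.1 ℕ g (u, v) (hfn.1 g hg1) huv
    have hul := h31 g hg1 _ huv
    have hcc := hcol _ hul
    simp only at hcc ⊢
    rw [hok]
    refine ⟨(hpx1 u hu).1, (hpx1 v hv).1, ?_, ?_⟩
    · rw [(hpx1 u hu).2, (hpx1 v hv).2, hokx]
      exact ⟨hcc, fun f hf hdf => hncr (u, v) hul f (h32 f hf) hdf⟩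
    · rw [(hpx1 u hu).2, (hpx1 v hv).2, hokx]
      refine ⟨hcc.symm, fun f hf hdf => ?_⟩
      have hfl' := h32 f hf
      have hdf' : dj (u, v) f := by
        unfold dj at hdf ⊢
        simp only at hdf ⊢
        exact ⟨hdf.2.2.1, hdf.2.2.2, hdf.1, hdf.2.1⟩
      have m3 := hEd.1 ℕ l f hfl'
      have hne3 := hEd.2.2.2.2.1 ℕ l f hl.nodup hfl'
      have hDs : Ds I [u, v, f.1, f.2] := by
        refine ⟨?_, ?_⟩
        · unfold dj at hdf'
          simp only at hdf'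
          simp only [List.nodup_cons, List.mem_cons, List.not_mem_nil, or_false, not_or,
            not_false_eq_true, List.nodup_nil, and_true]
          exact ⟨⟨hne1, hdf'.1, hdf'.2.1⟩, ⟨hdf'.2.2.1, hdf'.2.2.2⟩, hne3⟩
        · intro a ha
          simp only [List.mem_cons, List.not_mem_nil, or_false] at ha
          rcases ha with rfl | rfl | rfl | rfl
          · exact (hl.span _).1 (hgl g hg1 _ m1.1)
          · exact (hl.span _).1 (hgl g hg1 _ m1.2)
          · exact (hl.span _).1 m3.1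
          · exact (hl.span _).1 m3.2
      rw [(hCs I hCH u v f.1 f.2 hDs).1]
      exact hncr (u, v) hul f hfl' hdf'
  refine ⟨?_, ?_, ?_⟩
  · intro p hp
    rw [IK1.pcs_eq] at hp
    obtain ⟨g, hg, rfl⟩ := List.mem_map.1 hp
    obtain ⟨hg1, hg2⟩ := IK1.mem_Fg.1 hg
    have hgne := hg0 g hg1
    refine ⟨?_, hNX g hg g hg, hokk g hg, ?_, ?_⟩
    · exact List.Nodup.map_on (fun x hx y hy h => hinj x (hFC g hg x hx) y (hFC g hg y hy) h)
        (hfn.1 g hg1)
    · refine ⟨px C (g.headD 0), px C (g.getLastD 0), ?_, ?_, ?_⟩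
      · rw [List.head?_map, IK1.head_ne hgne]
        rfl
      · rw [List.getLast?_map, IK1.last_ne hgne]
        rfl
      · unfold pr
        rw [List.any_eq_true]
        refine ⟨(px C (g.headD 0), px C (g.getLastD 0)), (hmem _).2 ⟨tk g, ?_, hg2, rfl⟩, by simp⟩
        rw [hσ]
        exact List.mem_map_of_mem hg1
    · intro z hz hez
      obtain ⟨w, hw, rfl⟩ := List.mem_map.1 hz
      unfold ep at hez
      rw [List.any_eq_true] at hez
      obtain ⟨t, ht, htz⟩ := hez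
      obtain ⟨τ, hτ, hτD, rfl⟩ := (hmem t).1 ht
      rw [hσ] at hτ
      obtain ⟨g', hg', rfl⟩ := List.mem_map.1 hτ
      have hgF' : g' ∈ IK1.Fg D l := IK1.mem_Fg.2 ⟨hg', hτD⟩
      have hgne' := hg0 g' hg'
      simp only [Bool.or_eq_true, beq_iff_eq] at htz
      have key : ∀ w', w' ∈ g' → px C w' = px C w → w = w' ∧ g = g' := by
        intro w' hw' h
        have e : w' = w := hinj w' (hFC g' hgF' w' hw') w (hFC g hg w hw) h
        subst e
        refine ⟨rfl, ?_⟩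
        by_contra hne
        have hs : Std.Symm (List.Disjoint (α := ℕ)) := ⟨fun a b h => List.Disjoint.symm h⟩
        exact (List.Pairwise.forall hfn.2 hg1 hg' hne) hw hw'
      rcases htz with h | h
      · obtain ⟨e1, e2⟩ := key (g'.headD 0) (IK1.headD_mem hgne') h
        left
        rw [List.head?_map, IK1.head_ne hgne, e1, e2]
        rfl
      · obtain ⟨e1, e2⟩ := key (g'.getLastD 0) (IK1.lastD_mem hgne') h
        right
        rw [List.getLast?_map, IK1.last_ne hgne, e1, e2]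
        rfl
  · rw [IK1.pcs_eq, List.pairwise_map]
    have hF : (IK1.Fg D l).Pairwise List.Disjoint := List.Pairwise.filter _ hfn.2
    apply List.Pairwise.imp_of_mem _ hF
    intro g g' hg hg' hdis
    refine ⟨hNX g hg g' hg', ?_⟩
    intro z hz hz'
    obtain ⟨w, hw, rfl⟩ := List.mem_map.1 hz
    obtain ⟨w', hw', h⟩ := List.mem_map.1 hz'
    have e : w' = w := hinj w' (hFC g' hg' w' hw') w (hFC g hg w hw) h
    subst e
    exact hdis hw hw'
  · intro z
    constructor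
    · rintro ⟨p, hp, hz⟩
      rw [IK1.pcs_eq] at hp
      obtain ⟨g, hg, rfl⟩ := List.mem_map.1 hp
      obtain ⟨w, hw, rfl⟩ := List.mem_map.1 hz
      exact ⟨Nat.zero_le _, (hpx1 w (hFC g hg w hw)).1⟩
    · rintro ⟨-, hz⟩
      have hv : C.getD z 0 ∈ C := by
        rw [List.getD_eq_getElem _ _ hz]
        exact List.getElem_mem hz
      obtain ⟨hv1, hv2⟩ := hCm _ hv
      have hvl := (hl.span _).2 hv1
      rw [← hfl] at hvl
      obtain ⟨g, hg, hvg⟩ := List.mem_flatten.1 hvl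
      have hgD : g.headD 0 ∉ D := by
        intro h
        have := (hgr g hg).2.1 h
        rw [this, List.mem_singleton] at hvg
        rw [hvg] at hv2
        exact hv2 h
      refine ⟨g.map (px C), ?_, ?_⟩
      · rw [IK1.pcs_eq]
        exact List.mem_map_of_mem (IK1.mem_Fg.2 ⟨hg, hgD⟩)
      · exact List.mem_map.2 ⟨_, hvg, hpx2 hCn z hz⟩

end Pool.Agent.Work.MP_c6c039_lc.NC
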