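import Pool.Agent.Work.MP_c6c039_lc.NC.StmtsK

/-!
# Block NC, item K2: completeness
-/

set_option autoImplicit false

namespace Pool.Agent.Work.MP_c6c039_lc.NC

open Pool.Agent.Work.MP_c6c039_lc.FP

namespace IK2

theorem headD_mem {g : List ℕ} (h : g ≠ []) : g.headD 0 ∈ g := by
  cases g with
  | nil => exact absurd rfl h
  | cons a t => simp

theorem getLastD_mem {g : List ℕ} (h : g ≠ []) : g.getLastD 0 ∈ g := by
  rw [List.getLastD_eq_getLast?, List.getLast?_eq_some_getLast h]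
  exact List.getLast_mem h

end IK2

open IK2

theorem pr_K2 (hDq : St_Dq) (hCy : St_Cy) (hNc : St_Nc) (hDa : St_Da) (hG1 : St_G1)
    (hG3 : St_G3) (hK1 : St_K1) : St_K2 := by
  intro I hI D l hl hlen
  obtain ⟨hflat, hG⟩ := hG1 D l
  have hne : ∀ g ∈ grp D l, g ≠ [] := fun g hg => (hG g hg).1
  obtain ⟨_, hcn, heps⟩ := hG3 (grp D l) hne
  rw [hflat] at hcn heps
  obtain ⟨_, _, _, hC⟩ := hCy I hI D
  have hsub : ∀ g ∈ grp D l, ∀ z ∈ g, z < nn I := by
    intro g hg z hz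
    rw [← hl.span, ← hflat]
    exact List.mem_flatten.mpr ⟨g, hg, hz⟩
  obtain ⟨hSm, hd1, _⟩ := hDa I D (cyl I D) ((grp D l).map tk)
  refine ⟨hlen, ?_, heps.nodup hl.nodup, ?_, ?_, ?_, ?_⟩
  · intro τ hτ
    obtain ⟨g, hg, rfl⟩ := List.mem_map.mp hτ
    have h1 : (tk g).1 = g.headD 0 := rfl
    have h2 : (tk g).2 = g.getLastD 0 := rfl
    rw [h1, h2]
    have m1 := headD_mem (hne g hg)
    have m2 := getLastD_mem (hne g hg)
    refine ⟨hsub g hg _ m1, fun h => ?_, fun h => ?_⟩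
    · have e := (hG g hg).2.1 h
      have m3 : g.getLastD 0 ∈ [g.headD 0] := by
        rw [← e]
        exact m2
      exact (List.mem_singleton.mp m3).symm
    · have h3 := (hG g hg).2.2 h
      exact ⟨hC hlen _ (hsub g hg _ m1) (h3 _ m1), hC hlen _ (hsub g hg _ m2) (h3 _ m2)⟩
  · intro v hv hvD
    have hvl : v ∈ (grp D l).flatten := by
      rw [hflat]
      exact (hl.span v).mpr hv
    obtain ⟨g, hg, hvg⟩ := List.mem_flatten.mp hvl
    refine ⟨tk g, List.mem_map.mpr ⟨g, hg, rfl⟩, ?_⟩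
    by_cases h : g.headD 0 ∈ D
    · have e := (hG g hg).2.1 h
      rw [e] at hvg
      exact (List.mem_singleton.mp hvg).symm
    · exact absurd hvD ((hG g hg).2.2 h v hvg)
  · intro f hf
    exact (hNc I l hl.nodup).2.mp hl.alt f (hcn f hf)
  · intro f hf g hg hdj
    exact (hNc I l hl.nodup).1.mp hl.nc f (hcn f hf) g (hcn g hg) hdj
  · rw [hDq _ hSm, hd1]
    exact ⟨_, hK1 I hI D l hl hlen⟩

end Pool.Agent.Work.MP_c6c039_lc.NC
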