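import Pool.Agent.Work.MP_c6c039_lc.NC.StmtsL

/-!
# Block NC, item Kc: a piece is a join
-/

set_option autoImplicit false

namespace Pool.Agent.Work.MP_c6c039_lc.NC

namespace IKc

theorem pr_comm (d : Dt) (a b : ℕ) : pr d a b = pr d b a := by
  unfold pr
  congr 1
  funext τ
  rw [Bool.or_comm]

theorem kR_of (d : Dt) (L : List Fa) (i y a b e e' : ℕ) (s s' : Bool) (ha : a < d.1) (hb : b < d.1)
    (h1 : i ≤ a) (h2 : a < b) (h3 : b ≤ y) (h4 : (0, a + 1, b, false) ∈ L) (he : e < d.1)
    (he' : e' < d.1) (h5 : pr d e e' = true) (h6 : (e + 1, i, a, s) ∈ L)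
    (h7 : (e' + 1, b, y, s') ∈ L) (h8 : okd d (cu i a s) (cu b y s') = true) :
    kR d L i y = true := by
  unfold kR
  rw [Bool.or_eq_true]
  right
  rw [List.any_eq_true]
  refine ⟨a, List.mem_range.2 ha, ?_⟩
  rw [List.any_eq_true]
  refine ⟨b, List.mem_range.2 hb, ?_⟩
  rw [Bool.and_eq_true]
  refine ⟨?_, ?_⟩
  · rw [decide_eq_true h1, decide_eq_true h2, decide_eq_true h3, decide_eq_true h4]
    rfl
  · rw [List.any_eq_true]
    refine ⟨e, List.mem_range.2 he, ?_⟩
    rw [List.any_eq_true]
    refine ⟨e', List.mem_range.2 he', ?_⟩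
    rw [h5, Bool.true_and, List.any_eq_true]
    refine ⟨s, by cases s <;> simp, ?_⟩
    rw [List.any_eq_true]
    refine ⟨s', by cases s' <;> simp, ?_⟩
    rw [decide_eq_true h6, decide_eq_true h7, h8]
    rfl

theorem core (hEd : St_Ed) (hNx : St_Nx) (hGp : St_Gp) (hIn : St_In) (hPr : St_Pr) (d : Dt)
    (hSm : Sm d) (M : List (List ℕ)) (L : List Fa) (hS : Sys d 0 d.1 M) (hCr : Cr d L)
    (p : List ℕ) (hp : p ∈ M) (q : List ℕ) (hq : q = p ∨ q = p.reverse) (A X : ℕ)
    (hb : ∀ z ∈ q, A ≤ z ∧ z ≤ X) (hAX : A < X) (hSh : Sh d M L (X - A)) (c : ℕ) (hc1 : 1 ≤ c)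
    (hc2 : c < q.length) (hA : A ∈ q.take c) (hX : X ∈ q.drop c) : kR d L A X = true := by
  have hpc := hS.pc p hp
  have hmem : ∀ z, z ∈ q ↔ z ∈ p := by
    intro z
    rcases hq with rfl | rfl
    · rfl
    · exact List.mem_reverse
  have hqM : q ∈ M ∨ q.reverse ∈ M := by
    rcases hq with rfl | rfl
    · exact Or.inl hp
    · rw [List.reverse_reverse]
      exact Or.inr hp
  have hqM' : q.reverse ∈ M ∨ q.reverse.reverse ∈ M := by
    rw [List.reverse_reverse]
    exact hqM.symm
  have hnd : q.Nodup := by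
    rcases hq with rfl | rfl
    · exact hpc.nodup
    · exact List.nodup_reverse.2 hpc.nodup
  have hself : NX q q := by
    rcases hq with rfl | rfl
    · exact hpc.self
    · exact (hNx.2 _ _ (hNx.2 _ _ hpc.self).1).2
  have hlt : ∀ z ∈ q, z < d.1 := fun z hz =>
    ((hS.cov z).1 ⟨p, hp, (hmem z).1 hz⟩).2
  have htq : ∀ z ∈ q.take c, z ∈ q := fun z hz => List.mem_of_mem_take hz
  have hdq : ∀ z ∈ q.drop c, z ∈ q := fun z hz => List.mem_of_mem_drop hz
  have hsplit : ∀ z ∈ q, z ∈ q.take c ∨ z ∈ q.drop c := by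
    intro z hz
    rw [← List.take_append_drop c q, List.mem_append] at hz
    exact hz
  have hdisj : ∀ z ∈ q.take c, z ∉ q.drop c := by
    intro z hz hz'
    have h1 : (q.take c ++ q.drop c).Nodup := by rwa [List.take_append_drop]
    exact (List.nodup_append'.1 h1).2.2 hz hz'
  have hAq := htq A hA
  have hXq := hdq X hX
  -- the ends
  obtain ⟨e, e', he, he', hee⟩ : ∃ e e', q.head? = some e ∧ q.getLast? = some e' ∧
      pr d e e' = true := by
    obtain ⟨a, b, h1, h2, h3⟩ := hpc.ends
    rcases hq with rfl | rfl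
    · exact ⟨a, b, h1, h2, h3⟩
    · refine ⟨b, a, ?_, ?_, ?_⟩
      · rw [List.head?_reverse]
        exact h2
      · rw [List.getLast?_reverse]
        exact h1
      · rw [pr_comm]
        exact h3
  -- the first part
  obtain ⟨a, b, s, ha1, hb1, hab, hcu, hL1⟩ := hPr d hSm M L hS hCr q A X c X e hqM hb hAq hXq hSh he
    hc2 hX (Or.inr rfl) c hc1 le_rfl
  have haA : a = A := le_antisymm (hab A hA).1 (hb a (htq a ha1)).1
  subst haA
  -- the second part
  have hlen : q.length - (q.length - c) = c := by omega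
  have hdr : q.reverse.drop (q.length - c) = (q.take c).reverse := by
    rw [List.drop_reverse, hlen]
  have htr : q.reverse.take (q.length - c) = (q.drop c).reverse := by
    rw [List.take_reverse, hlen]
  have hbr : ∀ z ∈ q.reverse, a ≤ z ∧ z ≤ X := fun z hz => hb z (List.mem_reverse.1 hz)
  have hheadr : q.reverse.head? = some e' := by
    rw [List.head?_reverse]
    exact he'
  obtain ⟨a', b', s', ha2, hb2, hab2, hcu2, hL2⟩ := hPr d hSm M L hS hCr q.reverse a X
    (q.length - c) a e' hqM' hbr (List.mem_reverse.2 hAq) (List.mem_reverse.2 hXq) hSh hheadr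
    (by rw [List.length_reverse]; omega) (by rw [hdr]; exact List.mem_reverse.2 hA) (Or.inl rfl)
    (q.length - c) (by omega) le_rfl
  rw [htr] at ha2 hb2 hab2
  have ha2' : a' ∈ q.drop c := List.mem_reverse.1 ha2
  have hb2' : b' ∈ q.drop c := List.mem_reverse.1 hb2
  have hbX : b' = X := le_antisymm (hb b' (hdq b' hb2')).2 (hab2 X (List.mem_reverse.2 hX)).2
  subst hbX
  -- the order
  have hin := hIn q c b' hnd hself hX (Or.inr fun z hz => (hb z hz).2) c le_rfl a hA b hb1 a' ha2'
  have ha'a : a < a' := by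
    rcases Nat.lt_or_ge a a' with h | h
    · exact h
    · exact absurd ha2' (le_antisymm (hb a' (hdq a' ha2')).1 h ▸ hdisj a hA)
  have hba : b < a' := by
    rcases Nat.lt_or_ge b a' with h | h
    · exact h
    · exfalso
      rcases Nat.lt_or_ge a' b with h' | h'
      · have : bt a b a' = true := by
          unfold bt
          rw [decide_eq_true ha'a, decide_eq_true h']
          rfl
        rw [this] at hin
        exact Bool.noConfusion hin
      · exact hdisj b hb1 (le_antisymm h' h ▸ ha2')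
  have hgap : (0, b + 1, a', false) ∈ L := by
    refine hSh (b + 1) a' hba (hlt a' (hdq a' ha2')).le ?_ ?_
    · have h1 := (hb a' (hdq a' ha2')).2
      have h2 := (hb b (htq b hb1)).1
      omega
    · refine hGp d M d.1 hS p hp b ((hmem b).1 (htq b hb1)) a' ((hmem a').1 (hdq a' ha2')) hba ?_
      rintro z hz ⟨h1, h2⟩
      rcases hsplit z ((hmem z).2 hz) with h3 | h3
      · exact absurd (hab z h3).2 (by omega)
      · exact absurd (hab2 z (List.mem_reverse.2 h3)).1 (by omega)
  -- the connecting chord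
  have hc0 : c - 1 + 1 = c := by omega
  have hlt1 : c - 1 + 1 < q.length := by omega
  have hedge : (q[c - 1], q[c - 1 + 1]) ∈ ed q := hEd.2.2.2.2.2.2 ℕ q (c - 1) hlt1
  have hok : okd d (q[c - 1]) (q[c - 1 + 1]) = true := by
    rcases hq with h | h
    · have hE : ed q = ed p := by rw [h]
      rw [hE] at hedge
      exact hpc.okk _ hedge
    · have hE : ed q = ed p.reverse := by rw [h]
      rw [hE] at hedge
      have h1 : (q[c - 1 + 1], q[c - 1]) ∈ ed p :=
        (hEd.2.2.1 ℕ p (q[c - 1], q[c - 1 + 1])).1 hedge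
      have h3 := hpc.okk _ h1
      rw [hSm]
      exact h3
  have e1 : q[c - 1] = cu a b s := by
    rw [← hcu, List.getD_eq_getElem]
  have e2 : q[c - 1 + 1] = cu a' b' s' := by
    rw [← hcu2, List.getD_eq_getElem _ _ (by rw [List.length_reverse]; omega), List.getElem_reverse]
    congr 1
    omega
  rw [e1, e2] at hok
  refine kR_of d L a b' b a' e e' s s' (hlt b (htq b hb1)) (hlt a' (hdq a' ha2')) (hab a hA).2 hba
    (hb a' (hdq a' ha2')).2 hgap (hlt e (List.mem_of_head? he)) (hlt e' (List.mem_of_getLast? he'))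
    hee hL1 hL2 hok

end IKc

theorem pr_Kc (hEd : St_Ed) (hNx : St_Nx) (hGp : St_Gp) (hIn : St_In) (hPr : St_Pr)
    (hCu : St_Cu) : St_Kc := by
  intro d hSm M L hS hCr p A X hp hb hA hX hSh
  have hpc := hS.pc p hp
  rcases Nat.lt_or_ge A X with h | h
  · obtain ⟨c, hc1, hc2, h1 | h1⟩ := hCu p A X hpc.nodup hA hX h.ne
    · have hXd : X ∈ p.drop c := by
        have h2 : X ∈ p.take c ++ p.drop c := by rwa [List.take_append_drop]
        exact (List.mem_append.1 h2).resolve_left h1.2.1
      exact IKc.core hEd hNx hGp hIn hPr d hSm M L hS hCr p hp p (Or.inl rfl) A X hb h hSh c hc1 hc2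
        h1.1 hXd
    · have hAd : A ∈ p.drop c := by
        have h2 : A ∈ p.take c ++ p.drop c := by rwa [List.take_append_drop]
        exact (List.mem_append.1 h2).resolve_left h1.2.1
      have hlen : p.length - (p.length - c) = c := by omega
      refine IKc.core hEd hNx hGp hIn hPr d hSm M L hS hCr p hp p.reverse (Or.inr rfl) A X
        (fun z hz => hb z (List.mem_reverse.1 hz)) h hSh (p.length - c) (by omega)
        (by rw [List.length_reverse]; omega) ?_ ?_
      · rw [List.take_reverse, hlen]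
        exact List.mem_reverse.2 hAd
      · rw [List.drop_reverse, hlen]
        exact List.mem_reverse.2 h1.1
  · have hAX : A = X := le_antisymm (hb A hA).2 h
    subst hAX
    obtain ⟨a, b, h1, h2, h3⟩ := hpc.ends
    have ha : a = A := by
      have h4 := hb a (List.mem_of_head? h1)
      exact le_antisymm h4.2 h4.1
    have hb' : b = A := by
      have h4 := hb b (List.mem_of_getLast? h2)
      exact le_antisymm h4.2 h4.1
    rw [ha, hb'] at h3
    unfold kR
    rw [h3, Bool.and_true, beq_self_eq_true, Bool.true_or]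

end Pool.Agent.Work.MP_c6c039_lc.NC
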