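import Pool.Agent.Work.MP_c6c039_lc.NC.StmtsK

/-!
# Block NC, item Nc: noncrossing and alternating paths in terms of edges
-/

set_option autoImplicit false

namespace Pool.Agent.Work.MP_c6c039_lc.NC

open Pool.Agent.Work.MP_c6c039_lc.FP

namespace INc

theorem mem_ed (p : List ℕ) (e : ℕ × ℕ) :
    e ∈ ed p ↔ ∃ i, i + 1 < p.length ∧ e = (p.getD i 0, p.getD (i + 1) 0) := by
  unfold ed
  constructor
  · intro h
    obtain ⟨i, hi, rfl⟩ := List.mem_iff_getElem.1 h
    have hlen : i + 1 < p.length := by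
      rw [List.length_zip, List.length_tail] at hi
      omega
    refine ⟨i, hlen, ?_⟩
    rw [List.getElem_zip, List.getElem_tail, List.getD_eq_getElem _ _ (by omega),
      List.getD_eq_getElem _ _ hlen]
  · rintro ⟨i, hi, rfl⟩
    have hi' : i < (p.zip p.tail).length := by
      rw [List.length_zip, List.length_tail]
      omega
    have h := List.getElem_mem hi'
    rw [List.getElem_zip, List.getElem_tail] at h
    rw [List.getD_eq_getElem _ _ (by omega), List.getD_eq_getElem _ _ hi]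
    exact h

theorem getD_ne {p : List ℕ} (hp : p.Nodup) {i j : ℕ} (hi : i < p.length) (hj : j < p.length)
    (h : i ≠ j) : p.getD i 0 ≠ p.getD j 0 := by
  rw [List.getD_eq_getElem _ _ hi, List.getD_eq_getElem _ _ hj]
  intro e
  exact h ((hp.getElem_inj_iff).1 e)

theorem cr_symm (I : In) (a b c d : ℕ) : cr I a b c d = cr I c d a b := by
  unfold cr
  exact Bool.and_comm _ _

end INc

theorem pr_Nc : St_Nc := by
  intro I p hp
  refine ⟨⟨fun h e he f hf hd => ?_, fun h i j hij hj => ?_⟩, ⟨fun h e he => ?_, fun h i hi => ?_⟩⟩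
  · obtain ⟨i, hi, rfl⟩ := (INc.mem_ed p e).1 he
    obtain ⟨j, hj, rfl⟩ := (INc.mem_ed p f).1 hf
    obtain ⟨h1, h2, h3, _⟩ := hd
    have g1 : i ≠ j := fun e => h1 (by rw [e])
    have g2 : i ≠ j + 1 := fun e => h2 (by rw [e])
    have g3 : i + 1 ≠ j := fun e => h3 (by rw [e])
    rcases Nat.lt_or_ge (i + 1) j with hlt | hge
    · exact h i j hlt hj
    · have hlt : j + 1 < i := by omega
      have := h j i hlt hi
      rw [INc.cr_symm] at this
      exact this
  · refine h (p.getD i 0, p.getD (i + 1) 0) ((INc.mem_ed p _).2 ⟨i, by omega, rfl⟩)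
      (p.getD j 0, p.getD (j + 1) 0) ((INc.mem_ed p _).2 ⟨j, hj, rfl⟩) ⟨?_, ?_, ?_, ?_⟩
    · exact INc.getD_ne hp (by omega) (by omega) (by omega)
    · exact INc.getD_ne hp (by omega) (by omega) (by omega)
    · exact INc.getD_ne hp (by omega) (by omega) (by omega)
    · exact INc.getD_ne hp (by omega) (by omega) (by omega)
  · obtain ⟨i, hi, rfl⟩ := (INc.mem_ed p e).1 he
    exact h i hi
  · exact h (p.getD i 0, p.getD (i + 1) 0) ((INc.mem_ed p _).2 ⟨i, hi, rfl⟩)

end Pool.Agent.Work.MP_c6c039_lc.NC
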