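import Pool.Agent.Work.MP_c6c039_lc.NC.StmtsK

/-!
# Item Ne: the search (block NC)
-/

set_option autoImplicit false

namespace Pool.Agent.Work.MP_c6c039_lc.NC

open Pool.Agent.Work.MP_c6c039_lc.FP

namespace INe

/-- the first and the last vertex of a nonempty group are elements -/
theorem tk_mem (g : List ℕ) (h : g ≠ []) : (tk g).1 ∈ g ∧ (tk g).2 ∈ g := by
  cases g with
  | nil => exact absurd rfl h
  | cons a t =>
    refine ⟨by simp [tk], ?_⟩
    show (a :: t).getLastD 0 ∈ a :: t
    rw [List.getLastD_eq_getLast?, List.getLast?_eq_some_getLast h]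
    exact List.getLast_mem h

/-- the elements of a nodup list which are in `D` -/
theorem filter_len (D l : List ℕ) (hl : l.Nodup) :
    (l.filter fun v => decide (v ∈ D)).length ≤ D.length := by
  have h1 : (l.filter fun v => decide (v ∈ D)).Nodup := hl.filter _
  exact (h1.subperm fun v hv => by simpa using (List.mem_filter.mp hv).2).length_le

end INe

theorem pr_Ne (hCk : St_Ck) (hSn : St_Sn) (hG1 : St_G1) (hG2 : St_G2) (hK2 : St_K2)
    (hAl : St_Al) : St_Ne := by
  intro I hI k
  refine ⟨fun h => ?_, fun D _hD hDk hDn hlen hp => ?_⟩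
  · obtain ⟨D, _, h2⟩ := List.any_eq_true.mp h
    obtain ⟨σ, _, h3⟩ := List.any_eq_true.mp h2
    exact hSn I hI D σ ((hCk I D (cyl I D) σ).mp h3)
  · obtain ⟨l, hl⟩ := hp
    obtain ⟨hflat, hG⟩ := hG1 D l
    refine List.any_eq_true.mpr ⟨D, ?_, List.any_eq_true.mpr ⟨(grp D l).map tk, ?_, ?_⟩⟩
    · rw [hAl]
      exact ⟨hDk, fun v hv => List.mem_range.mpr (hDn v hv)⟩
    · rw [hAl]
      refine ⟨?_, fun a ha => ?_⟩
      · rw [List.length_map]
        have h1 := hG2 D l
        have h2 := INe.filter_len D l hl.nodup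
        omega
      · obtain ⟨g, hg, rfl⟩ := List.mem_map.mp ha
        obtain ⟨m1, m2⟩ := INe.tk_mem g (hG g hg).1
        have hsub : ∀ v ∈ g, v < nn I := fun v hv =>
          (hl.span v).mp (hflat ▸ List.mem_flatten.mpr ⟨g, hg, hv⟩)
        exact List.mem_product.mpr ⟨List.mem_range.mpr (hsub _ m1),
          List.mem_range.mpr (hsub _ m2)⟩
    · exact (hCk I D (cyl I D) _).mpr (hK2 I hI D l hl hlen)

end Pool.Agent.Work.MP_c6c039_lc.NC
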