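import Pool.Agent.Work.MP_c6c039_lc.NC.StmtsL

/-!
# Block NC, item Nx: symmetry of the relation of noncrossing paths
-/

set_option autoImplicit false

namespace Pool.Agent.Work.MP_c6c039_lc.NC

theorem pr_Nx (hIl : St_Il) (hEd : St_Ed) : St_Nx := by
  refine ⟨fun p q hp hq h e he f hf hd => ?_, fun p q h => ⟨fun e he f hf hd => ?_,
    fun e he f hf hd => ?_⟩⟩
  · have hd' : dj (f.1, f.2) (e.1, e.2) :=
      ⟨fun h1 => hd.1 h1.symm, fun h1 => hd.2.2.1 h1.symm, fun h1 => hd.2.1 h1.symm,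
        fun h1 => hd.2.2.2 h1.symm⟩
    rw [(hIl f.1 f.2 e.1 e.2).2.2 hd' (hEd.2.2.2.2.1 ℕ p f hp hf) (hEd.2.2.2.2.1 ℕ q e hq he)]
    exact h f hf e he hd'
  · have h1 := h (e.2, e.1) ((hEd.2.2.1 ℕ p e).1 he) f hf ⟨hd.2.2.1, hd.2.2.2, hd.1, hd.2.1⟩
    rw [← (hIl e.1 e.2 f.1 f.2).1]
    exact h1
  · have h1 := h e he (f.2, f.1) ((hEd.2.2.1 ℕ q f).1 hf) ⟨hd.2.1, hd.1, hd.2.2.2, hd.2.2.1⟩
    rw [← (hIl e.1 e.2 f.1 f.2).2.1]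
    exact h1

end Pool.Agent.Work.MP_c6c039_lc.NC
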