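import Pool.Agent.Work.MP_c6c039_lc.NC.StmtsL

/-!
# Block NC, item Pa: parity (helper4)
-/

set_option autoImplicit false

namespace Pool.Agent.Work.MP_c6c039_lc.NC

namespace IPa

lemma mem_ed {α : Type} (l : List α) (e : α × α) (h : e ∈ ed l) : e.1 ∈ l ∧ e.2 ∈ l := by
  have h1 := List.of_mem_zip (a := e.1) (b := e.2) (l₁ := l) (l₂ := l.tail) h
  exact ⟨h1.1, List.mem_of_mem_tail h1.2⟩

/-- a function which is constant along the edges is constant -/
lemma const (g : ℕ → Bool) : ∀ q : List ℕ, (∀ f ∈ ed q, g f.1 = g f.2) →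
    ∀ x ∈ q, ∀ y ∈ q, g x = g y
  | [], _ => by simp
  | [a], _ => by simp
  | a :: b :: r, h => by
    have e1 : ed (a :: b :: r) = (a, b) :: ed (b :: r) := rfl
    have h1 : g a = g b := h (a, b) (by rw [e1]; exact List.mem_cons_self)
    have h2 := const g (b :: r) (fun f hf => h f (by rw [e1]; exact List.mem_cons_of_mem _ hf))
    have h3 : ∀ x ∈ a :: b :: r, g x = g b := by
      intro x hx
      rcases List.mem_cons.1 hx with rfl | hx
      · exact h1
      · exact h2 x hx b List.mem_cons_self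
    intro x hx y hy
    rw [h3 x hx, h3 y hy]

lemma bt_add (a b c z : ℕ) (ha : z ≠ a) (hb : z ≠ b) (hc : z ≠ c) :
    xor (bt a b z) (bt b c z) = bt a c z := by
  unfold bt
  have e1 : ∀ w : ℕ, z ≠ w → decide (z < w) = !decide (w < z) := by
    intro w hw
    rcases lt_trichotomy z w with h | h | h
    · simp [h, not_lt.2 h.le]
    · exact absurd h hw
    · simp [h, not_lt.2 h.le]
  rw [e1 a ha, e1 b hb, e1 c hc]
  cases decide (a < z) <;> cases decide (b < z) <;> cases decide (c < z) <;> rfl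

lemma il_add (a b c x y : ℕ) (h1 : x ≠ a) (h2 : x ≠ b) (h3 : x ≠ c) (h4 : y ≠ a) (h5 : y ≠ b)
    (h6 : y ≠ c) : il a c x y = xor (il a b x y) (il b c x y) := by
  unfold il
  rw [← bt_add a b c x h1 h2 h3, ← bt_add a b c y h4 h5 h6]
  cases bt a b x <;> cases bt b c x <;> cases bt a b y <;> cases bt b c y <;> rfl

lemma il_self (u x y : ℕ) : il u u x y = false := by
  unfold il bt
  have h : ∀ z : ℕ, (decide (u < z) && decide (z < u)) = false := by
    intro z
    by_cases h : u < z
    · simp [not_lt.2 h.le]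
    · simp [h]
  rw [h x, h y]; rfl

end IPa

open IPa in
theorem pr_Pa : St_Pa := by
  intro p q hN hd u hu v hv x hx y hy
  have key : ∀ e ∈ ed p, il e.1 e.2 x y = false := by
    intro e he
    have h1 := mem_ed p e he
    have h2 : bt e.1 e.2 x = bt e.1 e.2 y := by
      refine const (fun z => bt e.1 e.2 z) q (fun f hf => ?_) x hx y hy
      have h3 := mem_ed q f hf
      have h4 := hN e he f hf ⟨fun h => hd _ h1.1 (h ▸ h3.1), fun h => hd _ h1.1 (h ▸ h3.2),
        fun h => hd _ h1.2 (h ▸ h3.1), fun h => hd _ h1.2 (h ▸ h3.2)⟩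
      unfold il at h4
      simpa using h4
    unfold il
    rw [h2]; simp
  have hxp : ∀ w ∈ p, x ≠ w := fun w hw h => hd w hw (h ▸ hx)
  have hyp : ∀ w ∈ p, y ≠ w := fun w hw h => hd w hw (h ▸ hy)
  have h5 : il u u x y = il u v x y := by
    refine const (fun w => il u w x y) p (fun f hf => ?_) u hu v hv
    have h3 := mem_ed p f hf
    have h6 := il_add u f.1 f.2 x y (hxp _ hu) (hxp _ h3.1) (hxp _ h3.2) (hyp _ hu) (hyp _ h3.1)
      (hyp _ h3.2)
    show il u f.1 x y = il u f.2 x y
    rw [h6, key f hf]; simp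
  rw [← h5, il_self]

end Pool.Agent.Work.MP_c6c039_lc.NC
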