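import Pool.Agent.Work.MP_c6c039_lc.NC.StmtsK

set_option autoImplicit false

namespace Pool.Agent.Work.MP_c6c039_lc.NC

namespace IPx

theorem a1 (C : List ℕ) (v : ℕ) (hv : v ∈ C) : px C v < C.length := by
  unfold px
  exact List.idxOf_lt_length_of_mem hv

theorem a2 (C : List ℕ) (v : ℕ) (hv : v ∈ C) : C.getD (px C v) 0 = v := by
  have h := a1 C v hv
  rw [List.getD_eq_getElem C 0 h]
  unfold px
  exact List.getElem_idxOf _

theorem a3 (C : List ℕ) (hC : C.Nodup) (x : ℕ) (hx : x < C.length) :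
    px C (C.getD x 0) = x := by
  rw [List.getD_eq_getElem C 0 hx]
  unfold px
  exact hC.idxOf_getElem x hx

end IPx

theorem pr_Px : St_Px := fun C =>
  ⟨fun v hv => ⟨IPx.a1 C v hv, IPx.a2 C v hv⟩, fun hC x hx => IPx.a3 C hC x hx⟩

end Pool.Agent.Work.MP_c6c039_lc.NC
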