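import Pool.Agent.Work.MP_c6c039_lc.NC.StmtsL

/-!
# Block NC, item S1: two adjacent intervals
-/

set_option autoImplicit false

namespace Pool.Agent.Work.MP_c6c039_lc.NC

namespace IS1

theorem sys_append (hIv : St_Iv) {d : Dt} {a b c : ℕ} (hab : a ≤ b) (hbc : b ≤ c)
    {M1 M2 : List (List ℕ)} (h1 : Sys d a b M1) (h2 : Sys d b c M2) : Sys d a c (M1 ++ M2) where
  pc := by
    intro p hp
    rcases List.mem_append.1 hp with hp | hp
    · exact h1.pc p hp
    · exact h2.pc p hp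
  pw := by
    rw [List.pairwise_append]
    refine ⟨h1.pw, h2.pw, fun p hp q hq => ?_⟩
    have h3 : ∀ z ∈ p, z < b := fun z hz => ((h1.cov z).1 ⟨p, hp, hz⟩).2
    have h4 : ∀ z ∈ q, b ≤ z := fun z hz => ((h2.cov z).1 ⟨q, hq, hz⟩).1
    refine ⟨(hIv.1 p q b h3 h4).1, fun z hz hz' => ?_⟩
    have h5 := h3 z hz
    have h6 := h4 z hz'
    omega
  cov := by
    intro z
    constructor
    · rintro ⟨p, hp, hz⟩
      rcases List.mem_append.1 hp with hp | hp
      · have := (h1.cov z).1 ⟨p, hp, hz⟩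
        omega
      · have := (h2.cov z).1 ⟨p, hp, hz⟩
        omega
    · rintro ⟨h3, h4⟩
      by_cases h : z < b
      · obtain ⟨p, hp, hz⟩ := (h1.cov z).2 ⟨h3, h⟩
        exact ⟨p, List.mem_append.2 (Or.inl hp), hz⟩
      · obtain ⟨p, hp, hz⟩ := (h2.cov z).2 ⟨by omega, h4⟩
        exact ⟨p, List.mem_append.2 (Or.inr hp), hz⟩

end IS1

theorem pr_S1 (hIv : St_Iv) : St_S1 := by
  rintro d a b c hab hbc ⟨M1, h1⟩ ⟨M2, h2⟩
  exact ⟨M1 ++ M2, IS1.sys_append hIv hab hbc h1 h2⟩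

end Pool.Agent.Work.MP_c6c039_lc.NC
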