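import Pool.Agent.Work.MP_c6c039_lc.NC.StmtsL

/-!
# Block NC, item S2: the empty interval and the one point interval
-/

set_option autoImplicit false

namespace Pool.Agent.Work.MP_c6c039_lc.NC

namespace IS2

theorem ed_single (i : ℕ) : ed [i] = [] := rfl

theorem sys_nil (d : Dt) (i : ℕ) : Sys d i i [] where
  pc := fun p hp => absurd hp List.not_mem_nil
  pw := List.Pairwise.nil
  cov := by
    intro z
    constructor
    · rintro ⟨p, hp, -⟩
      exact absurd hp List.not_mem_nil
    · rintro ⟨h1, h2⟩
      omega

theorem pc_single (d : Dt) (i : ℕ) (h : pr d i i = true) : Pc d [i] where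
  nodup := List.nodup_singleton i
  self := by
    intro e he
    rw [ed_single] at he
    exact absurd he List.not_mem_nil
  okk := by
    intro e he
    rw [ed_single] at he
    exact absurd he List.not_mem_nil
  ends := ⟨i, i, rfl, rfl, h⟩
  inn := by
    intro z hz _
    rw [List.mem_singleton] at hz
    exact Or.inl (by rw [hz]; rfl)

theorem sys_single (d : Dt) (i : ℕ) (h : pr d i i = true) : Sys d i (i + 1) [[i]] where
  pc := by
    intro p hp
    rw [List.mem_singleton] at hp
    rw [hp]
    exact pc_single d i h
  pw := List.pairwise_singleton _ _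
  cov := by
    intro z
    constructor
    · rintro ⟨p, hp, hz⟩
      rw [List.mem_singleton] at hp
      rw [hp, List.mem_singleton] at hz
      omega
    · rintro ⟨h1, h2⟩
      have hz : z = i := by omega
      exact ⟨[i], List.mem_singleton.2 rfl, List.mem_singleton.2 hz⟩

end IS2

theorem pr_S2 : St_S2 := fun d i =>
  ⟨⟨[], IS2.sys_nil d i⟩, fun h => ⟨[[i]], IS2.sys_single d i h⟩⟩

end Pool.Agent.Work.MP_c6c039_lc.NC
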