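import Pool.Agent.Work.MP_c6c039_lc.NC.StmtsL

/-!
# Block NC, item S3 (helper73)
-/

set_option autoImplicit false

namespace Pool.Agent.Work.MP_c6c039_lc.NC

theorem pr_S3 : St_S3 := by
  intro d e s he
  refine ⟨[e], [], ⟨List.nodup_singleton e, rfl, ?_, ?_, he, ?_⟩, ?_, ?_, ?_, ?_, ?_, ?_, ?_⟩
  · intro f hf
    exact absurd hf (List.not_mem_nil)
  · intro f hf
    exact absurd hf (List.not_mem_nil)
  · intro z hz _
    exact List.mem_singleton.1 hz
  · cases s <;> rfl
  · exact List.mem_singleton.2 rfl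
  · exact List.mem_singleton.2 rfl
  · intro p hp
    exact absurd hp (List.not_mem_nil)
  · exact List.Pairwise.nil
  · intro p hp
    exact absurd hp (List.not_mem_nil)
  · intro z
    constructor
    · rintro (h | ⟨p, hp, -⟩)
      · rw [List.mem_singleton.1 h]
        exact ⟨le_rfl, le_rfl⟩
      · exact absurd hp (List.not_mem_nil)
    · rintro ⟨h1, h2⟩
      exact Or.inl (List.mem_singleton.2 (le_antisymm h2 h1))

end Pool.Agent.Work.MP_c6c039_lc.NC
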