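import Pool.Agent.Work.MP_c6c039_lc.NC.StmtsL

/-!
# Item S4 of block NC: extension to the right
-/

set_option autoImplicit false

namespace Pool.Agent.Work.MP_c6c039_lc.NC

namespace IS4

theorem bt_iff (a b c : ℕ) : bt a b c = true ↔ (a < c ∧ c < b) ∨ (b < c ∧ c < a) := by
  unfold bt
  simp only [Bool.or_eq_true, Bool.and_eq_true, decide_eq_true_eq]

theorem il_false {a b c d : ℕ}
    (h : ((a < c ∧ c < b) ∨ (b < c ∧ c < a)) ↔ ((a < d ∧ d < b) ∨ (b < d ∧ d < a))) :
    il a b c d = false := by
  have h' : bt a b c = bt a b d := by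
    rw [Bool.eq_iff_iff, bt_iff, bt_iff]
    exact h
  unfold il
  rw [h', Bool.xor_self]

theorem mem_ed {α : Type} {l : List α} {e : α × α} (h : e ∈ ed l) : e.1 ∈ l ∧ e.2 ∈ l := by
  obtain ⟨x, y⟩ := e
  have := List.of_mem_zip h
  exact ⟨this.1, List.mem_of_mem_tail this.2⟩

theorem nx_sep {p q : List ℕ} {c : ℕ} (hp : ∀ z ∈ p, z ≤ c) (hq : ∀ z ∈ q, c < z) : NX p q := by
  intro e he f hf _
  have h1 := mem_ed he
  have h2 := mem_ed hf
  have h3 := hp _ h1.1
  have h4 := hp _ h1.2
  have h5 := hq _ h2.1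
  have h6 := hq _ h2.2
  apply il_false
  omega

end IS4

open IS4 in
theorem pr_S4 : St_S4 := by
  intro d hS e i a j t hia haj hj hR hE hok
  obtain ⟨l, M1, hl, hh, hil, hal, hM1, hp1, hc1, hv1⟩ := hR
  obtain ⟨M2, hM2⟩ := hE
  obtain ⟨u, hu⟩ : ∃ u, u = cu i a t := ⟨_, rfl⟩
  rw [← hu] at hh hok
  have hu' : u = i ∨ u = a := by
    rw [hu]
    cases t
    · exact Or.inl rfl
    · exact Or.inr rfl
  obtain ⟨r, rfl⟩ : ∃ r, l = u :: r := by
    cases l with
    | nil => simp at hh
    | cons x r =>
      rw [List.head?_cons, Option.some.injEq] at hh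
      exact ⟨r, by rw [hh]⟩
  have hle : ∀ z ∈ u :: r, i ≤ z ∧ z ≤ a := fun z hz => (hv1 z).1 (Or.inl hz)
  have hle1 : ∀ p ∈ M1, ∀ z ∈ p, i ≤ z ∧ z ≤ a := fun p hp z hz => (hv1 z).1 (Or.inr ⟨p, hp, hz⟩)
  have hle2 : ∀ p ∈ M2, ∀ z ∈ p, a + 1 ≤ z ∧ z < j := fun p hp z hz =>
    (hM2.cov z).1 ⟨p, hp, hz⟩
  have hed : ed (j :: u :: r) = (j, u) :: ed (u :: r) := rfl
  have hA : ∀ x y : ℕ, i ≤ x → x ≤ a → i ≤ y → y ≤ a → x ≠ u → y ≠ u → il j u x y = false := by
    intro x y h1 h2 h3 h4 h5 h6
    apply il_false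
    rcases hu' with h | h <;> omega
  have hB : ∀ x y : ℕ, i ≤ x → x ≤ a → i ≤ y → y ≤ a → x ≠ u → y ≠ u → il x y j u = false := by
    intro x y h1 h2 h3 h4 h5 h6
    apply il_false
    rcases hu' with h | h <;> omega
  have hjl : j ∉ u :: r := fun h => by
    have := (hle j h).2
    omega
  refine ⟨j :: u :: r, M1 ++ M2, ?_, rfl, List.mem_cons_of_mem _ hil, List.mem_cons_self, ?_, ?_,
    ?_, ?_⟩
  · constructor
    · exact List.nodup_cons.2 ⟨hjl, hl.nodup⟩
    · rw [List.getLast?_cons_cons]
      exact hl.last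
    · intro e' he' f' hf' hd
      rw [hed, List.mem_cons] at he' hf'
      rcases he' with rfl | he' <;> rcases hf' with rfl | hf'
      · exact absurd rfl hd.1
      · have h2 := mem_ed hf'
        have h3 := hle _ h2.1
        have h4 := hle _ h2.2
        exact hA _ _ h3.1 h3.2 h4.1 h4.2 (fun h => hd.2.2.1 h.symm) (fun h => hd.2.2.2 h.symm)
      · have h2 := mem_ed he'
        have h3 := hle _ h2.1
        have h4 := hle _ h2.2
        exact hB _ _ h3.1 h3.2 h4.1 h4.2 (fun h => hd.2.1 h) (fun h => hd.2.2.2 h)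
      · exact hl.self _ he' _ hf' hd
    · intro f hf
      rw [hed, List.mem_cons] at hf
      rcases hf with rfl | hf
      · show okd d j u = true
        rw [hS]
        exact hok
      · exact hl.okk f hf
    · exact hl.epe
    · intro z hz hz'
      rw [List.mem_cons] at hz
      rcases hz with rfl | hz
      · rw [hj] at hz'
        exact absurd hz' (by decide)
      · exact hl.inn z hz hz'
  · intro p hp
    rcases List.mem_append.1 hp with hp | hp
    · exact hM1 p hp
    · exact hM2.pc p hp
  · rw [List.pairwise_append]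
    refine ⟨hp1, hM2.pw, fun p hp q hq => ⟨?_, ?_⟩⟩
    · exact nx_sep (c := a) (fun z hz => (hle1 p hp z hz).2) fun z hz => (hle2 q hq z hz).1
    · intro z hz hz'
      have h1 := (hle1 p hp z hz).2
      have h2 := (hle2 q hq z hz').1
      omega
  · intro p hp
    rcases List.mem_append.1 hp with hp | hp
    · refine ⟨?_, ?_⟩
      · intro e' he' f' hf' hd
        rw [hed, List.mem_cons] at he'
        rcases he' with rfl | he'
        · have h2 := mem_ed hf'
          have h3 := hle1 p hp _ h2.1
          have h4 := hle1 p hp _ h2.2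
          refine hA _ _ h3.1 h3.2 h4.1 h4.2 (fun h => hd.2.2.1 h.symm) (fun h => hd.2.2.2 h.symm)
        · exact (hc1 p hp).1 _ he' _ hf' hd
      · intro z hz hz'
        rw [List.mem_cons] at hz'
        rcases hz' with rfl | hz'
        · have := (hle1 p hp _ hz).2
          omega
        · exact (hc1 p hp).2 z hz hz'
    · refine ⟨?_, ?_⟩
      · intro e' he' f' hf' hd
        have h2 := mem_ed hf'
        have h3 := hle2 p hp _ h2.1
        have h4 := hle2 p hp _ h2.2
        rw [hed, List.mem_cons] at he'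
        rcases he' with rfl | he'
        · have h5 := (hle u List.mem_cons_self).2
          apply il_false
          show ((j < f'.1 ∧ f'.1 < u) ∨ (u < f'.1 ∧ f'.1 < j)) ↔
            ((j < f'.2 ∧ f'.2 < u) ∨ (u < f'.2 ∧ f'.2 < j))
          omega
        · have h5 := mem_ed he'
          have h6 := (hle _ h5.1).2
          have h7 := (hle _ h5.2).2
          apply il_false
          omega
      · intro z hz hz'
        have h1 := hle2 p hp z hz
        rw [List.mem_cons] at hz'
        rcases hz' with rfl | hz'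
        · omega
        · have := (hle z hz').2
          omega
  · intro z
    constructor
    · rintro (hz | ⟨p, hp, hz⟩)
      · rw [List.mem_cons] at hz
        rcases hz with rfl | hz
        · omega
        · have := hle z hz
          omega
      · rcases List.mem_append.1 hp with hp | hp
        · have := hle1 p hp z hz
          omega
        · have := hle2 p hp z hz
          omega
    · rintro ⟨h1, h2⟩
      rcases Nat.lt_or_ge a z with h3 | h3
      · rcases Nat.lt_or_ge z j with h4 | h4
        · obtain ⟨p, hp, hz⟩ := (hM2.cov z).2 ⟨h3, h4⟩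
          exact Or.inr ⟨p, List.mem_append.2 (Or.inr hp), hz⟩
        · have : z = j := le_antisymm h2 h4
          exact Or.inl (by rw [this]; exact List.mem_cons_self)
      · rcases (hv1 z).2 ⟨h1, h3⟩ with h4 | ⟨p, hp, hz⟩
        · exact Or.inl (List.mem_cons_of_mem _ h4)
        · exact Or.inr ⟨p, List.mem_append.2 (Or.inl hp), hz⟩

end Pool.Agent.Work.MP_c6c039_lc.NC
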