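import Pool.Agent.Work.MP_c6c039_lc.NC.StmtsL

/-!
# Block NC, item S5: extension to the left
-/

set_option autoImplicit false

namespace Pool.Agent.Work.MP_c6c039_lc.NC

namespace IS5

/-- the edges of a list with a new first element -/
theorem ed_cons (i u : ℕ) (l : List ℕ) (h : l.head? = some u) (e : ℕ × ℕ) :
    e ∈ ed (i :: l) ↔ e = (i, u) ∨ e ∈ ed l := by
  cases l with
  | nil => simp at h
  | cons v r =>
    have hv : v = u := by simpa using h
    subst hv
    have e1 : ed (i :: v :: r) = (i, v) :: ed (v :: r) := rfl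
    rw [e1, List.mem_cons]

/-- the new chord does not interleave with chords in the old interval which avoid `u` -/
theorem new_old (hIv : St_Iv) {i a j u : ℕ} (hia : i < a) (hu : u = a ∨ u = j) {c d : ℕ}
    (hc1 : a ≤ c) (hc2 : c ≤ j) (hd1 : a ≤ d) (hd2 : d ≤ j) (hcu : c ≠ u) (hdu : d ≠ u) :
    il i u c d = false := by
  rcases hu with h | h
  · subst h
    exact hIv.2.2 i u c d hia.le (Or.inr hc1) (Or.inr hd1)
  · subst h
    exact hIv.2.1 i u c d (by omega) (by omega) (by omega) (by omega) (by omega)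

end IS5

theorem pr_S5 (hIl : St_Il) (hEd : St_Ed) (hIv : St_Iv) : St_S5 := by
  intro d hS e i a j t hia haj hepi hR hE hok
  obtain ⟨l, M1, hPt, hhd, hal, hjl, hPc1, hpw1, hlp, hcov⟩ := hR
  obtain ⟨M2, hM2⟩ := hE
  set u : ℕ := cu a j t with hu
  have hu' : u = a ∨ u = j := by
    rw [hu]
    unfold cu
    cases t
    · exact Or.inl rfl
    · exact Or.inr rfl
  have hul : u ∈ l := by
    cases l with
    | nil => simp at hhd
    | cons v r =>
      have hv : v = u := by simpa using hhd
      subst hv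
      exact List.mem_cons_self
  have hlr : ∀ z ∈ l, a ≤ z ∧ z ≤ j := fun z hz => (hcov z).1 (Or.inl hz)
  have hM1r : ∀ p ∈ M1, ∀ z ∈ p, a ≤ z ∧ z ≤ j := fun p hp z hz => (hcov z).1 (Or.inr ⟨p, hp, hz⟩)
  have hM2r : ∀ p ∈ M2, ∀ z ∈ p, i + 1 ≤ z ∧ z < a := fun p hp z hz =>
    (hM2.cov z).1 ⟨p, hp, hz⟩
  have hil : i ∉ l := fun h => by
    have := (hlr i h).1
    omega
  have hiu : i ≠ u := fun h => hil (h ▸ hul)
  have hmem : ∀ f ∈ ed l, f.1 ∈ l ∧ f.2 ∈ l := fun f hf => hEd.1 ℕ l f hf
  have hsep : ∀ (p q : List ℕ), (∀ z ∈ p, a ≤ z) → (∀ z ∈ q, z < a) → NX p q ∧ NX q p := by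
    intro p q hp hq
    obtain ⟨h1, h2⟩ := hIv.1 q p a hq hp
    exact ⟨h2, h1⟩
  refine ⟨i :: l, M1 ++ M2, ⟨?_, ?_, ?_, ?_, hPt.epe, ?_⟩, ?_, ?_, ?_, ?_, ?_, ?_, ?_⟩
  · exact List.nodup_cons.2 ⟨hil, hPt.nodup⟩
  · have h := hPt.last
    cases l with
    | nil => simp at hhd
    | cons v r =>
      rw [List.getLast?_cons_cons]
      exact h
  · intro e1 he1 f hf hdj
    rw [IS5.ed_cons i u l hhd] at he1 hf
    obtain ⟨d1, d2, d3, d4⟩ := hdj
    rcases he1 with rfl | he1 <;> rcases hf with rfl | hf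
    · exact absurd rfl d1
    · obtain ⟨m1, m2⟩ := hmem f hf
      exact IS5.new_old hIv hia hu' (hlr _ m1).1 (hlr _ m1).2 (hlr _ m2).1 (hlr _ m2).2
        (fun h => d3 h.symm) (fun h => d4 h.symm)
    · obtain ⟨m1, m2⟩ := hmem e1 he1
      have h1 : il i u e1.1 e1.2 = false :=
        IS5.new_old hIv hia hu' (hlr _ m1).1 (hlr _ m1).2 (hlr _ m2).1 (hlr _ m2).2 d2 d4
      have h2 := (hIl i u e1.1 e1.2).2.2 ⟨fun h => d1 h.symm, fun h => d3 h.symm,
        fun h => d2 h.symm, fun h => d4 h.symm⟩ hiu (hEd.2.2.2.2.1 ℕ l e1 hPt.nodup he1)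
      rw [← h1, ← h2]
    · exact hPt.self e1 he1 f hf ⟨d1, d2, d3, d4⟩
  · intro f hf
    rw [IS5.ed_cons i u l hhd] at hf
    rcases hf with rfl | hf
    · rw [hS]
      exact hok
    · exact hPt.okk f hf
  · intro z hz hez
    rcases List.mem_cons.1 hz with rfl | hz
    · rw [hepi] at hez
      exact absurd hez Bool.false_ne_true
    · exact hPt.inn z hz hez
  · simp [cu]
  · exact List.mem_cons_self
  · exact List.mem_cons_of_mem _ hjl
  · intro p hp
    rcases List.mem_append.1 hp with hp | hp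
    · exact hPc1 p hp
    · exact hM2.pc p hp
  · refine List.pairwise_append.2 ⟨hpw1, hM2.pw, ?_⟩
    intro p hp q hq
    refine ⟨(hsep p q (fun z hz => (hM1r p hp z hz).1) (fun z hz => (hM2r q hq z hz).2)).1, ?_⟩
    intro z hz hz'
    have h1 := (hM1r p hp z hz).1
    have h2 := (hM2r q hq z hz').2
    omega
  · intro p hp
    rcases List.mem_append.1 hp with hp | hp
    · obtain ⟨h1, h2⟩ := hlp p hp
      refine ⟨?_, ?_⟩
      · intro e1 he1 f hf hdj
        rw [IS5.ed_cons i u l hhd] at he1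
        rcases he1 with rfl | he1
        · obtain ⟨m1, m2⟩ := hEd.1 ℕ p f hf
          exact IS5.new_old hIv hia hu' (hM1r p hp _ m1).1 (hM1r p hp _ m1).2
            (hM1r p hp _ m2).1 (hM1r p hp _ m2).2 (fun h => h2 _ m1 (h ▸ hul))
            (fun h => h2 _ m2 (h ▸ hul))
        · exact h1 e1 he1 f hf hdj
      · intro z hz hz'
        rcases List.mem_cons.1 hz' with rfl | hz'
        · have := (hM1r p hp z hz).1
          omega
        · exact h2 z hz hz'
    · refine ⟨?_, ?_⟩
      · intro e1 he1 f hf hdj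
        rw [IS5.ed_cons i u l hhd] at he1
        rcases he1 with rfl | he1
        · obtain ⟨m1, m2⟩ := hEd.1 ℕ p f hf
          have r1 := hM2r p hp _ m1
          have r2 := hM2r p hp _ m2
          have r3 := (hlr u hul).1
          exact hIv.2.1 i u f.1 f.2 (by omega) (by omega) (by omega) (by omega) (by omega)
        · exact (hsep l p (fun z hz => (hlr z hz).1) (fun z hz => (hM2r p hp z hz).2)).1
            e1 he1 f hf hdj
      · intro z hz hz'
        have r1 := hM2r p hp z hz
        rcases List.mem_cons.1 hz' with rfl | hz'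
        · omega
        · have := (hlr z hz').1
          omega
  · intro z
    constructor
    · rintro (hz | ⟨p, hp, hz⟩)
      · rcases List.mem_cons.1 hz with rfl | hz
        · omega
        · have := hlr z hz
          omega
      · rcases List.mem_append.1 hp with hp | hp
        · have := hM1r p hp z hz
          omega
        · have := hM2r p hp z hz
          omega
    · rintro ⟨h1, h2⟩
      rcases Nat.lt_or_ge z a with h3 | h3
      · rcases Nat.lt_or_ge i z with h4 | h4
        · obtain ⟨p, hp, hz⟩ := (hM2.cov z).2 ⟨h4, h3⟩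
          exact Or.inr ⟨p, List.mem_append.2 (Or.inr hp), hz⟩
        · have : z = i := by omega
          subst this
          exact Or.inl List.mem_cons_self
      · rcases (hcov z).2 ⟨h3, h2⟩ with hz | ⟨p, hp, hz⟩
        · exact Or.inl (List.mem_cons_of_mem _ hz)
        · exact Or.inr ⟨p, List.mem_append.2 (Or.inl hp), hz⟩

end Pool.Agent.Work.MP_c6c039_lc.NC
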