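import Pool.Agent.Work.MP_c6c039_lc.NC.StmtsL

/-!
# Block NC, item S6: joining two parts
-/

set_option autoImplicit false

namespace Pool.Agent.Work.MP_c6c039_lc.NC

namespace IS6

theorem cu_mem (i a : ℕ) (s : Bool) : cu i a s = i ∨ cu i a s = a := by
  cases s
  · exact Or.inl rfl
  · exact Or.inr rfl

/-- the connecting chord against a chord with both ends on one side -/
theorem chord (hIv : St_Iv) (i a b y u u' : ℕ) (hab : a < b) (hu : u = i ∨ u = a)
    (hu' : u' = b ∨ u' = y) (hua : u ≤ a) (hbu : b ≤ u') (c d : ℕ) (h : dj (u, u') (c, d))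
    (hcd : (i ≤ c ∧ c ≤ a ∧ i ≤ d ∧ d ≤ a) ∨ (a + 1 ≤ c ∧ c < b ∧ a + 1 ≤ d ∧ d < b) ∨
      (b ≤ c ∧ c ≤ y ∧ b ≤ d ∧ d ≤ y)) : il u u' c d = false := by
  obtain ⟨h1, h2, h3, h4⟩ := h
  simp only at h1 h2 h3 h4
  rcases hcd with ⟨c1, c2, d1, d2⟩ | ⟨c1, c2, d1, d2⟩ | ⟨c1, c2, d1, d2⟩
  · rcases hu with hu | hu
    · exact hIv.2.1 u u' c d (by omega) (by omega) (by omega) (by omega) (by omega)
    · exact hIv.2.2 u u' c d (by omega) (by omega) (by omega)
  · exact hIv.2.1 u u' c d (by omega) (by omega) (by omega) (by omega) (by omega)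
  · rcases hu' with hu' | hu'
    · exact hIv.2.2 u u' c d (by omega) (by omega) (by omega)
    · exact hIv.2.1 u u' c d (by omega) (by omega) (by omega) (by omega) (by omega)

/-- a joined path against another path -/
theorem nx_join (hEd : St_Ed) (A B q : List ℕ) (u u' : ℕ) (hA : A.getLast? = some u)
    (hB : B.head? = some u') (h1 : NX A q) (h2 : NX B q)
    (h3 : ∀ f ∈ ed q, dj (u, u') f → il u u' f.1 f.2 = false) : NX (A ++ B) q := by
  intro e he f hf hd
  rcases (hEd.2.1 ℕ A B e).1 he with h | h | ⟨h, h'⟩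
  · exact h1 e h f hf hd
  · exact h2 e h f hf hd
  · rw [hA] at h
    rw [hB] at h'
    have e1 : u = e.1 := Option.some.inj h
    have e2 : u' = e.2 := Option.some.inj h'
    rw [← e1, ← e2]
    refine h3 f hf ?_
    rw [e1, e2]
    exact hd

end IS6

open IS6 in
theorem pr_S6 (hEd : St_Ed) (hNx : St_Nx) (hIv : St_Iv) : St_S6 := by
  intro d hSm e e' i a b y s s' hab hpr hR1 hE hR2 hok
  obtain ⟨l, M1, hl, hlh, hil, hal, hM1, hM1p, hlM1, hcov1⟩ := hR1
  obtain ⟨M0, h0⟩ := hE
  obtain ⟨l', M2, hl', hlh', hbl, hyl, hM2, hM2p, hlM2, hcov2⟩ := hR2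
  have hia : i ≤ a := ((hcov1 i).1 (Or.inl hil)).2
  have hby : b ≤ y := ((hcov2 b).1 (Or.inl hbl)).2
  obtain ⟨u, hu⟩ : ∃ u, u = cu i a s := ⟨_, rfl⟩
  obtain ⟨u', hu'⟩ : ∃ u', u' = cu b y s' := ⟨_, rfl⟩
  rw [← hu] at hlh hok
  rw [← hu'] at hlh' hok
  have hu1 : u = i ∨ u = a := by
    rw [hu]
    exact cu_mem i a s
  have hu2 : u' = b ∨ u' = y := by
    rw [hu']
    exact cu_mem b y s'
  have hua : u ≤ a := by omega
  have hbu : b ≤ u' := by omega
  -- positions
  have pA : ∀ z ∈ l.reverse, i ≤ z ∧ z ≤ a := fun z hz =>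
    (hcov1 z).1 (Or.inl (List.mem_reverse.1 hz))
  have pB : ∀ z ∈ l', b ≤ z ∧ z ≤ y := fun z hz => (hcov2 z).1 (Or.inl hz)
  have p1 : ∀ q ∈ M1, ∀ z ∈ q, i ≤ z ∧ z ≤ a := fun q hq z hz => (hcov1 z).1 (Or.inr ⟨q, hq, hz⟩)
  have p0 : ∀ q ∈ M0, ∀ z ∈ q, a + 1 ≤ z ∧ z < b := fun q hq z hz => (h0.cov z).1 ⟨q, hq, hz⟩
  have p2 : ∀ q ∈ M2, ∀ z ∈ q, b ≤ z ∧ z ≤ y := fun q hq z hz => (hcov2 z).1 (Or.inr ⟨q, hq, hz⟩)
  -- the two halves
  have hAl : l.reverse.getLast? = some u := by
    rw [List.getLast?_reverse]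
    exact hlh
  have hndA : l.reverse.Nodup := List.nodup_reverse.2 hl.nodup
  have hAA : NX l.reverse l.reverse := (hNx.2 _ _ (hNx.2 _ _ hl.self).1).2
  have hAB : NX l.reverse l' ∧ NX l' l.reverse :=
    hIv.1 l.reverse l' (a + 1) (fun z hz => by have := pA z hz; omega)
      (fun z hz => by have := pB z hz; omega)
  -- the connecting chord
  have CH : ∀ q : List ℕ, ((∀ z ∈ q, i ≤ z ∧ z ≤ a) ∨ (∀ z ∈ q, a + 1 ≤ z ∧ z < b) ∨
      (∀ z ∈ q, b ≤ z ∧ z ≤ y)) → ∀ f ∈ ed q, dj (u, u') f → il u u' f.1 f.2 = false := by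
    intro q hq f hf hd
    obtain ⟨m1, m2⟩ := hEd.1 ℕ q f hf
    refine chord hIv i a b y u u' hab hu1 hu2 hua hbu f.1 f.2 hd ?_
    rcases hq with hq | hq | hq
    · exact Or.inl ⟨(hq _ m1).1, (hq _ m1).2, (hq _ m2).1, (hq _ m2).2⟩
    · exact Or.inr (Or.inl ⟨(hq _ m1).1, (hq _ m1).2, (hq _ m2).1, (hq _ m2).2⟩)
    · exact Or.inr (Or.inr ⟨(hq _ m1).1, (hq _ m1).2, (hq _ m2).1, (hq _ m2).2⟩)
  have hnd : (l.reverse ++ l').Nodup := by
    rw [List.nodup_append]
    refine ⟨hndA, hl'.nodup, ?_⟩
    intro z hz z' hz' hzz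
    have := pA z hz
    have := pB z' hz'
    omega
  have hpA : NX (l.reverse ++ l') l.reverse :=
    nx_join hEd _ _ _ u u' hAl hlh' hAA hAB.2 (CH _ (Or.inl pA))
  have hpB : NX (l.reverse ++ l') l' :=
    nx_join hEd _ _ _ u u' hAl hlh' hAB.1 hl'.self (CH _ (Or.inr (Or.inr pB)))
  have hpp : NX (l.reverse ++ l') (l.reverse ++ l') := by
    refine nx_join hEd _ _ _ u u' hAl hlh' (hNx.1 _ _ hnd hndA hpA)
      (hNx.1 _ _ hnd hl'.nodup hpB) ?_
    intro f hf hd
    rcases (hEd.2.1 ℕ l.reverse l' f).1 hf with h | h | ⟨h, h'⟩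
    · exact CH _ (Or.inl pA) f h hd
    · exact CH _ (Or.inr (Or.inr pB)) f h hd
    · rw [hAl] at h
      exact absurd (Option.some.inj h) hd.1
  -- heads and lasts
  have hph : (l.reverse ++ l').head? = some e := by
    rw [List.head?_append, List.head?_reverse, hl.last]
    rfl
  have hpl : (l.reverse ++ l').getLast? = some e' := by
    rw [List.getLast?_append, hl'.last]
    rfl
  have hPc : Pc d (l.reverse ++ l') := by
    refine ⟨hnd, hpp, ?_, ⟨e, e', hph, hpl, hpr⟩, ?_⟩
    · intro f hf
      rcases (hEd.2.1 ℕ l.reverse l' f).1 hf with h | h | ⟨h, h'⟩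
      · have h2 := (hEd.2.2.1 ℕ l f).1 h
        rw [hSm]
        exact hl.okk _ h2
      · exact hl'.okk f h
      · rw [hAl] at h
        rw [hlh'] at h'
        rw [← Option.some.inj h, ← Option.some.inj h']
        exact hok
    · intro z hz hep
      rcases List.mem_append.1 hz with h | h
      · left
        rw [hph, hl.inn z (List.mem_reverse.1 h) hep]
      · right
        rw [hpl, hl'.inn z h hep]
  refine ⟨(l.reverse ++ l') :: (M1 ++ (M0 ++ M2)), ?_, ?_, ?_⟩
  · intro q hq
    rcases List.mem_cons.1 hq with h | h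
    · rw [h]
      exact hPc
    · rcases List.mem_append.1 h with h | h
      · exact hM1 q h
      · rcases List.mem_append.1 h with h | h
        · exact h0.pc q h
        · exact hM2 q h
  · rw [List.pairwise_cons, List.pairwise_append, List.pairwise_append]
    refine ⟨?_, hM1p, ⟨h0.pw, hM2p, ?_⟩, ?_⟩
    · intro q hq
      rcases List.mem_append.1 hq with h | h
      · refine ⟨nx_join hEd _ _ _ u u' hAl hlh' (hNx.2 _ _ (hlM1 q h).1).1
          (hIv.1 q l' (a + 1) (fun z hz => by have := p1 q h z hz; omega)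
            (fun z hz => by have := pB z hz; omega)).2 (CH q (Or.inl (p1 q h))), ?_⟩
        intro z hz hzq
        rcases List.mem_append.1 hz with h' | h'
        · exact (hlM1 q h).2 z hzq (List.mem_reverse.1 h')
        · have := pB z h'
          have := p1 q h z hzq
          omega
      · rcases List.mem_append.1 h with h | h
        · refine ⟨nx_join hEd _ _ _ u u' hAl hlh'
            (hIv.1 l.reverse q (a + 1) (fun z hz => by have := pA z hz; omega)
              (fun z hz => by have := p0 q h z hz; omega)).1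
            (hIv.1 q l' b (fun z hz => by have := p0 q h z hz; omega)
              (fun z hz => by have := pB z hz; omega)).2 (CH q (Or.inr (Or.inl (p0 q h)))), ?_⟩
          intro z hz hzq
          have := p0 q h z hzq
          rcases List.mem_append.1 hz with h' | h'
          · have := pA z h'
            omega
          · have := pB z h'
            omega
        · refine ⟨nx_join hEd _ _ _ u u' hAl hlh'
            (hIv.1 l.reverse q (a + 1) (fun z hz => by have := pA z hz; omega)
              (fun z hz => by have := p2 q h z hz; omega)).1 (hlM2 q h).1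
            (CH q (Or.inr (Or.inr (p2 q h)))), ?_⟩
          intro z hz hzq
          rcases List.mem_append.1 hz with h' | h'
          · have := pA z h'
            have := p2 q h z hzq
            omega
          · exact (hlM2 q h).2 z hzq h'
    · intro q hq q' hq'
      refine ⟨(hIv.1 q q' b (fun z hz => by have := p0 q hq z hz; omega)
        (fun z hz => by have := p2 q' hq' z hz; omega)).1, ?_⟩
      intro z hz hz'
      have := p0 q hq z hz
      have := p2 q' hq' z hz'
      omega
    · intro q hq q' hq'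
      rcases List.mem_append.1 hq' with h | h
      · refine ⟨(hIv.1 q q' (a + 1) (fun z hz => by have := p1 q hq z hz; omega)
          (fun z hz => by have := p0 q' h z hz; omega)).1, ?_⟩
        intro z hz hz'
        have := p1 q hq z hz
        have := p0 q' h z hz'
        omega
      · refine ⟨(hIv.1 q q' (a + 1) (fun z hz => by have := p1 q hq z hz; omega)
          (fun z hz => by have := p2 q' h z hz; omega)).1, ?_⟩
        intro z hz hz'
        have := p1 q hq z hz
        have := p2 q' h z hz'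
        omega
  · intro z
    constructor
    · rintro ⟨q, hq, hz⟩
      rcases List.mem_cons.1 hq with h | h
      · rw [h] at hz
        rcases List.mem_append.1 hz with h' | h'
        · have := pA z h'
          omega
        · have := pB z h'
          omega
      · rcases List.mem_append.1 h with h | h
        · have := p1 q h z hz
          omega
        · rcases List.mem_append.1 h with h | h
          · have := p0 q h z hz
            omega
          · have := p2 q h z hz
            omega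
    · rintro ⟨hz1, hz2⟩
      rcases Nat.lt_or_ge a z with h | h
      · rcases Nat.lt_or_ge z b with h' | h'
        · obtain ⟨q, hq, hz⟩ := (h0.cov z).2 ⟨h, h'⟩
          exact ⟨q, List.mem_cons_of_mem _ (List.mem_append_right _ (List.mem_append_left _ hq)), hz⟩
        · rcases (hcov2 z).2 ⟨h', by omega⟩ with hz | ⟨q, hq, hz⟩
          · exact ⟨_, List.mem_cons_self, List.mem_append_right _ hz⟩
          · exact ⟨q, List.mem_cons_of_mem _ (List.mem_append_right _
              (List.mem_append_right _ hq)), hz⟩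
      · rcases (hcov1 z).2 ⟨hz1, h⟩ with hz | ⟨q, hq, hz⟩
        · exact ⟨_, List.mem_cons_self, List.mem_append_left _ (List.mem_reverse.2 hz)⟩
        · exact ⟨q, List.mem_cons_of_mem _ (List.mem_append_left _ hq), hz⟩

end Pool.Agent.Work.MP_c6c039_lc.NC
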