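import Pool.Agent.Work.MP_c6c039_lc.NC.StmtsL

/-!
# Block NC, item S7: soundness of the rules
-/

set_option autoImplicit false

namespace Pool.Agent.Work.MP_c6c039_lc.NC

namespace IS7

/-- what is claimed for a fact -/
def Good (d : Dt) (f : Fa) : Prop := (f.1 = 0 → f.2.2.2 = false ∧ SE d f.2.1 f.2.2.1) ∧
  ∀ e, f.1 = e + 1 → SR d e f.2.1 f.2.2.1 f.2.2.2

lemma zero_fact {d : Dt} {L : List Fa} (hL : ∀ f ∈ L, Good d f) {a b : ℕ}
    (h : (0, a, b, false) ∈ L) : SE d a b := ((hL _ h).1 rfl).2

lemma succ_fact {d : Dt} {L : List Fa} (hL : ∀ f ∈ L, Good d f) {e a b : ℕ} {s : Bool}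
    (h : (e + 1, a, b, s) ∈ L) : SR d e a b s := (hL _ h).2 e rfl

lemma kR_sound (hS2 : St_S2) (hS6 : St_S6) {d : Dt} (hd : Sm d) {L : List Fa}
    (hL : ∀ f ∈ L, Good d f) {i y : ℕ} (h : kR d L i y = true) : SE d i (y + 1) := by
  unfold kR at h
  rw [Bool.or_eq_true] at h
  rcases h with h | h
  · rw [Bool.and_eq_true, beq_iff_eq] at h
    obtain ⟨h1, h2⟩ := h
    rw [← h1]
    exact (hS2 d i).2 h2
  · simp only [List.any_eq_true, List.mem_range, Bool.and_eq_true, decide_eq_true_eq] at h
    obtain ⟨a, -, b, -, ⟨ha, hab, hb, h0⟩, e, -, e', -, hpr, s, -, s', -, h1, h2, h3⟩ := h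
    exact hS6 d hd e e' i a b y s s' hab hpr (succ_fact hL h1) (zero_fact hL h0)
      (succ_fact hL h2) h3

lemma eR_sound (hS1 : St_S1) (hS2 : St_S2) (hS6 : St_S6) {d : Dt} (hd : Sm d) {L : List Fa}
    (hL : ∀ f ∈ L, Good d f) {i j : ℕ} (h : eR d L i j = true) : SE d i j := by
  unfold eR at h
  rw [Bool.or_eq_true] at h
  rcases h with h | h
  · rw [beq_iff_eq] at h
    rw [← h]
    exact (hS2 d i).1
  · simp only [List.any_eq_true, List.mem_range, Bool.and_eq_true, decide_eq_true_eq] at h
    obtain ⟨y, -, hiy, hyj, hk, h0⟩ := h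
    exact hS1 d i (y + 1) j (by omega) (by omega) (kR_sound hS2 hS6 hd hL hk) (zero_fact hL h0)

lemma rR_sound (hS3 : St_S3) (hS4 : St_S4) (hS5 : St_S5) {d : Dt} (hd : Sm d) {L : List Fa}
    (hL : ∀ f ∈ L, Good d f) {e i j : ℕ} {s : Bool} (h : rR d L e i j s = true) :
    SR d e i j s := by
  unfold rR at h
  rw [Bool.or_eq_true] at h
  rcases h with h | h
  · simp only [Bool.and_eq_true, beq_iff_eq] at h
    obtain ⟨h1, h2, h3⟩ := h
    rw [h1, h2]
    exact hS3 d e s h3
  · cases s with
    | true =>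
      simp only [if_true, List.any_eq_true, List.mem_range, Bool.and_eq_true, decide_eq_true_eq,
        Bool.not_eq_true'] at h
      obtain ⟨hep, a, -, ha, haj, h0, t, -, h1, h2⟩ := h
      exact hS4 d hd e i a j t ha haj hep (succ_fact hL h1) (zero_fact hL h0) h2
    | false =>
      simp only [Bool.false_eq_true, if_false, List.any_eq_true, List.mem_range,
        Bool.and_eq_true, decide_eq_true_eq, Bool.not_eq_true'] at h
      obtain ⟨hep, a, -, ha, haj, h0, t, -, h1, h2⟩ := h
      exact hS5 d hd e i a j t ha haj hep (succ_fact hL h1) (zero_fact hL h0) h2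

end IS7

open IS7 in
theorem pr_S7 (hS1 : St_S1) (hS2 : St_S2) (hS3 : St_S3) (hS4 : St_S4) (hS5 : St_S5)
    (hS6 : St_S6) : St_S7 := by
  intro d hd t
  have key : ∀ f ∈ (stp d)^[t] [], Good d f := by
    induction t with
    | zero =>
      intro f hf
      rw [Function.iterate_zero, id_eq] at hf
      exact absurd hf List.not_mem_nil
    | succ t ih =>
      intro f hf
      rw [Function.iterate_succ_apply'] at hf
      generalize (stp d)^[t] [] = L at hf ih
      unfold stp at hf
      rw [List.mem_filter, Bool.or_eq_true, decide_eq_true_eq] at hf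
      rcases hf.2 with h | h
      · exact ih f h
      · unfold rule at h
        by_cases h0 : f.1 = 0
        · rw [if_pos h0, Bool.and_eq_true, Bool.not_eq_true'] at h
          refine ⟨fun _ => ⟨h.1, eR_sound hS1 hS2 hS6 hd ih h.2⟩, fun e he => ?_⟩
          rw [h0] at he
          exact absurd he (Nat.succ_ne_zero e).symm
        · rw [if_neg h0] at h
          refine ⟨fun h' => absurd h' h0, fun e he => ?_⟩
          have h1 : f.1 - 1 = e := by omega
          rw [h1] at h
          exact rR_sound hS3 hS4 hS5 hd ih h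
  exact fun f hf => key f hf

end Pool.Agent.Work.MP_c6c039_lc.NC
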