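import Pool.Agent.Work.MP_c6c039_lc.NC.StmtsL

/-!
# Block NC, item Sa: saturation
-/

set_option autoImplicit false

namespace Pool.Agent.Work.MP_c6c039_lc.NC

open Pool.Agent.PT Pool.Agent.Work.MP_c6c039_lc.FP

namespace ISa

theorem step {α : Type} (g : List α → List α) (t : ℕ) (h : g^[t + 1] [] = g^[t] []) :
    g^[t + 1 + 1] [] = g^[t + 1] [] := by
  rw [Function.iterate_succ_apply' g (t + 1), h, ← Function.iterate_succ_apply' g t]
  exact h

/-- an increasing bounded sequence of lists given by iteration is constant from `n + 1` on -/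
theorem stab {α : Type} (g : List α → List α) (n : ℕ)
    (hs : ∀ t, List.Sublist (g^[t] []) (g^[t + 1] [])) (hn : ∀ t, (g^[t] []).length ≤ n) :
    g^[n + 1 + 1] [] = g^[n + 1] [] := by
  have key : ∀ t, t ≤ (g^[t] []).length ∨ g^[t + 1] [] = g^[t] [] := by
    intro t
    induction t with
    | zero => exact Or.inl (Nat.zero_le _)
    | succ t ih =>
      rcases ih with ih | ih
      · by_cases h : g^[t + 1] [] = g^[t] []
        · exact Or.inr (step g t h)
        · left
          have h1 := (hs t).length_le
          have h2 : (g^[t] []).length ≠ (g^[t + 1] []).length := fun e =>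
            h ((hs t).eq_of_length e).symm
          omega
      · exact Or.inr (step g t ih)
  rcases key (n + 1) with h | h
  · have := hn (n + 1)
    omega
  · exact h

theorem mem_allF (d : Dt) : ∀ t, ∀ f ∈ (stp d)^[t] [], f ∈ allF d := by
  intro t
  cases t with
  | zero =>
    intro f hf
    exact absurd hf (List.not_mem_nil)
  | succ t =>
    intro f hf
    rw [Function.iterate_succ_apply'] at hf
    exact (List.mem_filter.1 hf).1

theorem sub (d : Dt) : ∀ t, List.Sublist ((stp d)^[t] []) ((stp d)^[t + 1] []) := by
  intro t
  cases t with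
  | zero => exact List.nil_sublist _
  | succ t =>
    have e1 : (stp d)^[t + 1] [] = (allF d).filter fun f => decide (f ∈ (stp d)^[t] []) ||
        rule d ((stp d)^[t] []) f := by
      rw [Function.iterate_succ_apply']
      rfl
    have e2 : (stp d)^[t + 1 + 1] [] = (allF d).filter fun f =>
        decide (f ∈ (stp d)^[t + 1] []) || rule d ((stp d)^[t + 1] []) f := by
      rw [Function.iterate_succ_apply' _ (t + 1)]
      rfl
    have e3 : (stp d)^[t + 1] [] = ((stp d)^[t + 1 + 1] []).filter fun f =>
        decide (f ∈ (stp d)^[t] []) || rule d ((stp d)^[t] []) f := by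
      rw [e2, List.filter_filter]
      conv_lhs => rw [e1]
      refine List.filter_congr fun f hf => ?_
      by_cases h : (decide (f ∈ (stp d)^[t] []) || rule d ((stp d)^[t] []) f) = true
      · have h1 : f ∈ (stp d)^[t + 1] [] := by
          rw [e1]
          exact List.mem_filter.2 ⟨hf, h⟩
        rw [h, decide_eq_true h1]
        rfl
      · rw [Bool.not_eq_true] at h
        rw [h, Bool.false_and]
    have h4 := List.filter_sublist (l := (stp d)^[t + 1 + 1] [])
      (p := fun f => decide (f ∈ (stp d)^[t] []) || rule d ((stp d)^[t] []) f)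
    rw [← e3] at h4
    exact h4

theorem len (d : Dt) : ∀ t, ((stp d)^[t] []).length ≤ (allF d).length := by
  intro t
  cases t with
  | zero => exact Nat.zero_le _
  | succ t =>
    rw [Function.iterate_succ_apply']
    exact List.length_filter_le _ _

theorem fixed (d : Dt) : stp d (sat d) = sat d := by
  unfold sat
  rw [← Function.iterate_succ_apply' (stp d)]
  exact stab (stp d) _ (sub d) (len d)

end ISa

theorem pr_Sa : St_Sa := by
  intro d f hf h
  rw [← ISa.fixed d]
  refine List.mem_filter.2 ⟨hf, ?_⟩
  rw [h, Bool.or_true]

end Pool.Agent.Work.MP_c6c039_lc.NC
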