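import Pool.Agent.Work.MP_c6c039_lc.NC.StmtsK

/-!
# Block NC, item Sn: soundness of the test of a skeleton
-/

set_option autoImplicit false

namespace Pool.Agent.Work.MP_c6c039_lc.NC

open Pool.Agent.Work.MP_c6c039_lc.FP

namespace ISn

/-- the piece of a token -/
def hh (D C : List ℕ) (g : ℕ × ℕ → List ℕ) (τ : ℕ × ℕ) : List ℕ :=
  if τ.1 ∈ D then [τ.1] else (g (px C τ.1, px C τ.2)).map fun x => C.getD x 0

theorem cr_symm (I : In) (a b c d : ℕ) : cr I a b c d = cr I c d a b := by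
  unfold cr
  rw [Bool.and_comm]

theorem dj_symm {e f : ℕ × ℕ} (h : dj e f) : dj f e :=
  ⟨fun h1 => h.1 h1.symm, fun h1 => h.2.2.1 h1.symm, fun h1 => h.2.1 h1.symm,
    fun h1 => h.2.2.2 h1.symm⟩

theorem main (hEd : St_Ed) (hDq : St_Dq) (hA1 : St_A1) (hCi : St_Ci) (hPx : St_Px)
    (hNc : St_Nc) (hFm : St_Fm) (hDa : St_Da) (hEp : St_Ep) (I : In) (hI : Good I)
    (D C : List ℕ) (σ : List (ℕ × ℕ)) (hn : C.Nodup) (hm : ∀ v ∈ C, v < nn I ∧ v ∉ D)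
    (hc : ∀ x y z, x < y → y < z → z < C.length →
      chi I (C.getD x 0) (C.getD y 0) (C.getD z 0) = true)
    (hall : ∀ v, v < nn I → v ∉ D → v ∈ C) (h : CK I D C σ) : ∃ p, SP I p := by
  obtain ⟨hSm, hd1, hokd, hmem, hokx⟩ := hDa I D C σ
  have hse := (hDq _ hSm).1 h.dpp
  obtain ⟨hσn, hσd⟩ := hEp σ h.nd
  obtain ⟨hP1, hP2⟩ := hPx C
  have hP3 := hP2 hn
  -- injectivity of px on C
  have hpi : ∀ a ∈ C, ∀ b ∈ C, px C a = px C b → a = b := by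
    intro a ha b hb hab
    have h1 := (hP1 a ha).2
    have h2 := (hP1 b hb).2
    rw [← h1, ← h2, hab]
  -- injectivity of C.getD below the length
  have hgi : ∀ x, x < C.length → ∀ y, y < C.length → C.getD x 0 = C.getD y 0 → x = y := by
    intro x hx y hy hxy
    rw [← hP3 x hx, ← hP3 y hy, hxy]
  have hgm : ∀ x, x < C.length → C.getD x 0 ∈ C := by
    intro x hx
    rw [List.getD_eq_getElem _ _ hx]
    exact List.getElem_mem hx
  have htC : ∀ τ ∈ σ, τ.1 ∉ D → τ.1 ∈ C ∧ τ.2 ∈ C := fun τ hτ hD => (h.tok τ hτ).2.2 hD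
  have htm : ∀ τ ∈ σ, τ.1 ∉ D → (px C τ.1, px C τ.2) ∈ (dat I D C σ).2.2 := fun τ hτ hD =>
    (hmem _).2 ⟨τ, hτ, hD, rfl⟩
  have hdj : ∀ τ ∈ σ, τ.1 ∉ D → ∀ τ' ∈ σ, τ'.1 ∉ D → τ ≠ τ' →
      dj (px C τ.1, px C τ.2) (px C τ'.1, px C τ'.2) := by
    intro τ hτ hD τ' hτ' hD' hne
    have h1 := htC τ hτ hD
    have h2 := htC τ' hτ' hD'
    have h3 := hσd τ hτ τ' hτ' hne
    exact ⟨fun h4 => h3.1 (hpi _ h1.1 _ h2.1 h4), fun h4 => h3.2.1 (hpi _ h1.1 _ h2.2 h4),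
      fun h4 => h3.2.2.1 (hpi _ h1.2 _ h2.1 h4), fun h4 => h3.2.2.2 (hpi _ h1.2 _ h2.2 h4)⟩
  obtain ⟨g, hg1, hg2, hg3⟩ := hA1 (dat I D C σ) hSm (by
    intro t ht t' ht' hne
    obtain ⟨τ, hτ, hD, rfl⟩ := (hmem t).1 ht
    obtain ⟨τ', hτ', hD', rfl⟩ := (hmem t').1 ht'
    refine hdj τ hτ hD τ' hτ' hD' ?_
    rintro rfl
    exact hne rfl) (by
    intro t ht
    obtain ⟨τ, hτ, hD, rfl⟩ := (hmem t).1 ht
    rw [hd1]
    exact (hP1 _ (htC τ hτ hD).1).1) hse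
  rw [hd1] at hg1 hg3
  -- facts on the pieces
  have hhD : ∀ τ : ℕ × ℕ, τ.1 ∈ D → hh D C g τ = [τ.1] := fun τ hD => if_pos hD
  have hhC : ∀ τ : ℕ × ℕ, τ.1 ∉ D →
      hh D C g τ = (g (px C τ.1, px C τ.2)).map fun x => C.getD x 0 := fun τ hD => if_neg hD
  have hends : ∀ τ ∈ σ, (hh D C g τ).head? = some τ.1 ∧ (hh D C g τ).getLast? = some τ.2 := by
    intro τ hτ
    by_cases hD : τ.1 ∈ D
    · rw [hhD τ hD, ← (h.tok τ hτ).2.1 hD]
      exact ⟨rfl, rfl⟩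
    · obtain ⟨-, h2, h3, -⟩ := hg1 _ (htm τ hτ hD)
      have h4 := htC τ hτ hD
      rw [hhC τ hD, List.head?_map, List.getLast?_map, h2, h3]
      refine ⟨?_, ?_⟩
      · exact congrArg some (hP1 _ h4.1).2
      · exact congrArg some (hP1 _ h4.2).2
  have hmemC : ∀ τ ∈ σ, τ.1 ∉ D → ∀ v ∈ hh D C g τ, v ∈ C ∧ px C v ∈ g (px C τ.1, px C τ.2) := by
    intro τ hτ hD v hv
    rw [hhC τ hD, List.mem_map] at hv
    obtain ⟨x, hx, rfl⟩ := hv
    have hxl := (hg1 _ (htm τ hτ hD)).2.2.2.2.2 x hx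
    refine ⟨hgm x hxl, ?_⟩
    rw [hP3 x hxl]
    exact hx
  have hmemD : ∀ τ : ℕ × ℕ, τ.1 ∈ D → ∀ v ∈ hh D C g τ, v = τ.1 := by
    intro τ hD v hv
    rw [hhD τ hD] at hv
    exact List.mem_singleton.1 hv
  have hnd : ∀ τ ∈ σ, (hh D C g τ).Nodup := by
    intro τ hτ
    by_cases hD : τ.1 ∈ D
    · rw [hhD τ hD]
      exact List.nodup_singleton _
    · rw [hhC τ hD]
      obtain ⟨h1, -, -, -, -, h6⟩ := hg1 _ (htm τ hτ hD)
      refine List.Nodup.map_on ?_ h1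
      intro x hx y hy hxy
      exact hgi x (h6 x hx) y (h6 y hy) hxy
  have hdis : ∀ τ ∈ σ, ∀ τ' ∈ σ, τ ≠ τ' → ∀ v, v ∈ hh D C g τ → v ∈ hh D C g τ' → False := by
    intro τ hτ τ' hτ' hne v hv hv'
    have h3 := hσd τ hτ τ' hτ' hne
    by_cases hD : τ.1 ∈ D
    · have h1 := hmemD τ hD v hv
      by_cases hD' : τ'.1 ∈ D
      · have h2 := hmemD τ' hD' v hv'
        exact h3.1 (h1.symm.trans h2)
      · have h2 := hmemC τ' hτ' hD' v hv'
        exact (hm v h2.1).2 (h1 ▸ hD)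
    · have h1 := hmemC τ hτ hD v hv
      by_cases hD' : τ'.1 ∈ D
      · have h2 := hmemD τ' hD' v hv'
        exact (hm v h1.1).2 (h2 ▸ hD')
      · have h2 := hmemC τ' hτ' hD' v hv'
        have h4 : (px C τ.1, px C τ.2) ≠ (px C τ'.1, px C τ'.2) := by
          intro h5
          exact (hdj τ hτ hD τ' hτ' hD' hne).1 (congrArg Prod.fst h5)
        exact (hg2 _ (htm τ hτ hD) _ (htm τ' hτ' hD') h4).2 _ h1.2 h2.2
  have hnodup : (σ.flatMap (hh D C g)).Nodup := by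
    rw [List.nodup_flatMap]
    refine ⟨hnd, ?_⟩
    refine List.Pairwise.imp_of_mem ?_ hσn
    intro τ τ' hτ hτ' hne v hv hv'
    exact hdis τ hτ τ' hτ' hne v hv hv'
  -- the edges of a piece
  have hedge : ∀ τ ∈ σ, ∀ e ∈ ed (hh D C g τ), ∃ x y, x < C.length ∧ y < C.length ∧ x ≠ y ∧
      e = (C.getD x 0, C.getD y 0) ∧ τ.1 ∉ D ∧ (x, y) ∈ ed (g (px C τ.1, px C τ.2)) ∧
      okx I σ (C.getD x 0) (C.getD y 0) = true := by
    intro τ hτ e he
    by_cases hD : τ.1 ∈ D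
    · rw [hhD τ hD] at he
      exact absurd he List.not_mem_nil
    · rw [hhC τ hD, hEd.2.2.2.2.2.1, List.mem_map] at he
      obtain ⟨⟨x, y⟩, hxy, rfl⟩ := he
      obtain ⟨h1, -, -, -, h5, h6⟩ := hg1 _ (htm τ hτ hD)
      have h7 := (hEd.1 _ _ _ hxy)
      have h8 := (hokd x y).1 (h5 _ hxy)
      exact ⟨x, y, h6 x h7.1, h6 y h7.2, hEd.2.2.2.2.1 _ _ _ h1 hxy, rfl, hD, hxy, h8.2.2.1⟩
  have hFm' := hFm σ (hh D C g) hends
  refine ⟨σ.flatMap (hh D C g), hnodup, ?_, ?_, ?_⟩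
  · intro v
    rw [List.mem_flatMap]
    constructor
    · rintro ⟨τ, hτ, hv⟩
      by_cases hD : τ.1 ∈ D
      · rw [hmemD τ hD v hv]
        exact (h.tok τ hτ).1
      · exact (hm v (hmemC τ hτ hD v hv).1).1
    · intro hv
      by_cases hD : v ∈ D
      · obtain ⟨τ, hτ, hτv⟩ := h.occ v hv hD
        refine ⟨τ, hτ, ?_⟩
        rw [hhD τ (hτv.symm ▸ hD), hτv]
        exact List.mem_singleton.2 rfl
      · have hvC := hall v hv hD
        have h1 := hP1 v hvC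
        obtain ⟨t, ht, hxt⟩ := hg3 (px C v) h1.1
        obtain ⟨τ, hτ, hτD, rfl⟩ := (hmem t).1 ht
        refine ⟨τ, hτ, ?_⟩
        rw [hhC τ hτD, List.mem_map]
        exact ⟨px C v, hxt, h1.2⟩
  · refine (hNc I _ hnodup).2.2 ?_
    intro e he
    rcases hFm' e he with ⟨τ, hτ, heτ⟩ | hcn
    · obtain ⟨x, y, -, -, -, rfl, -, -, hk⟩ := hedge τ hτ e heτ
      exact ((hokx _ _).1 hk).1
    · exact h.cnc e hcn
  · refine (hNc I _ hnodup).1.2 ?_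
    intro e he f hf hef
    rcases hFm' e he with ⟨τ, hτ, heτ⟩ | hcn
    · obtain ⟨x, y, hx, hy, hxy, rfl, hD, hed, hk⟩ := hedge τ hτ e heτ
      rcases hFm' f hf with ⟨τ', hτ', hfτ⟩ | hcn'
      · obtain ⟨z, w, hz, hw, hzw, rfl, hD', hed', hk'⟩ := hedge τ' hτ' f hfτ
        have hdd : dj (x, y) (z, w) := by
          refine ⟨fun h1 => hef.1 ?_, fun h1 => hef.2.1 ?_, fun h1 => hef.2.2.1 ?_,
            fun h1 => hef.2.2.2 ?_⟩
          · exact congrArg (fun i => C.getD i 0) h1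
          · exact congrArg (fun i => C.getD i 0) h1
          · exact congrArg (fun i => C.getD i 0) h1
          · exact congrArg (fun i => C.getD i 0) h1
        have hil : il x y z w = false := by
          by_cases htt : (px C τ.1, px C τ.2) = (px C τ'.1, px C τ'.2)
          · rw [← htt] at hed'
            exact (hg1 _ (htm τ hτ hD)).2.2.2.1 _ hed _ hed' hdd
          · exact (hg2 _ (htm τ hτ hD) _ (htm τ' hτ' hD') htt).1 _ hed _ hed' hdd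
        have hcr := hCi I hI C hn (fun v hv => (hm v hv).1) hc x y z w hx hy hz hw hdd hxy hzw
        show cr I (C.getD x 0) (C.getD y 0) (C.getD z 0) (C.getD w 0) = false
        rw [hcr, hil]
      · exact ((hokx _ _).1 hk).2 f hcn' hef
    · rcases hFm' f hf with ⟨τ', hτ', hfτ⟩ | hcn'
      · obtain ⟨z, w, hz, hw, hzw, rfl, hD', hed', hk'⟩ := hedge τ' hτ' f hfτ
        rw [cr_symm]
        exact ((hokx _ _).1 hk').2 e hcn (dj_symm hef)
      · exact h.cnx e hcn f hcn' hef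

end ISn

theorem pr_Sn (hEd : St_Ed) (hDq : St_Dq) (hA1 : St_A1) (hCy : St_Cy) (hCi : St_Ci) (hPx : St_Px)
    (hNc : St_Nc) (hFm : St_Fm) (hDa : St_Da) (hEp : St_Ep) : St_Sn := by
  intro I hI D σ h
  obtain ⟨h1, h2, h3, h4⟩ := hCy I hI D
  exact ISn.main hEd hDq hA1 hCi hPx hNc hFm hDa hEp I hI D (cyl I D) σ h1 h2 h3 (h4 h.len) h

end Pool.Agent.Work.MP_c6c039_lc.NC
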