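import Pool.Agent.Work.MP_c6c039_lc.NC.I_A1
import Pool.Agent.Work.MP_c6c039_lc.NC.I_Al
import Pool.Agent.Work.MP_c6c039_lc.NC.I_Ci
import Pool.Agent.Work.MP_c6c039_lc.NC.I_Ck
import Pool.Agent.Work.MP_c6c039_lc.NC.I_Cn
import Pool.Agent.Work.MP_c6c039_lc.NC.I_Cu
import Pool.Agent.Work.MP_c6c039_lc.NC.I_Cy
import Pool.Agent.Work.MP_c6c039_lc.NC.I_Da
import Pool.Agent.Work.MP_c6c039_lc.NC.I_Dq
import Pool.Agent.Work.MP_c6c039_lc.NC.I_Ec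
import Pool.Agent.Work.MP_c6c039_lc.NC.I_Ed
import Pool.Agent.Work.MP_c6c039_lc.NC.I_Ep
import Pool.Agent.Work.MP_c6c039_lc.NC.I_Fd
import Pool.Agent.Work.MP_c6c039_lc.NC.I_Fm
import Pool.Agent.Work.MP_c6c039_lc.NC.I_G1
import Pool.Agent.Work.MP_c6c039_lc.NC.I_G2
import Pool.Agent.Work.MP_c6c039_lc.NC.I_G3
import Pool.Agent.Work.MP_c6c039_lc.NC.I_Gp
import Pool.Agent.Work.MP_c6c039_lc.NC.I_Gx
import Pool.Agent.Work.MP_c6c039_lc.NC.I_Il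
import Pool.Agent.Work.MP_c6c039_lc.NC.I_In
import Pool.Agent.Work.MP_c6c039_lc.NC.I_Iv
import Pool.Agent.Work.MP_c6c039_lc.NC.I_K1
import Pool.Agent.Work.MP_c6c039_lc.NC.I_K2
import Pool.Agent.Work.MP_c6c039_lc.NC.I_Kc
import Pool.Agent.Work.MP_c6c039_lc.NC.I_Nc
import Pool.Agent.Work.MP_c6c039_lc.NC.I_Ne
import Pool.Agent.Work.MP_c6c039_lc.NC.I_Nx
import Pool.Agent.Work.MP_c6c039_lc.NC.I_Pa
import Pool.Agent.Work.MP_c6c039_lc.NC.I_Pr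
import Pool.Agent.Work.MP_c6c039_lc.NC.I_Px
import Pool.Agent.Work.MP_c6c039_lc.NC.I_S1
import Pool.Agent.Work.MP_c6c039_lc.NC.I_S2
import Pool.Agent.Work.MP_c6c039_lc.NC.I_S3
import Pool.Agent.Work.MP_c6c039_lc.NC.I_S4
import Pool.Agent.Work.MP_c6c039_lc.NC.I_S5
import Pool.Agent.Work.MP_c6c039_lc.NC.I_S6
import Pool.Agent.Work.MP_c6c039_lc.NC.I_S7
import Pool.Agent.Work.MP_c6c039_lc.NC.I_Sa
import Pool.Agent.Work.MP_c6c039_lc.NC.I_Sg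
import Pool.Agent.Work.MP_c6c039_lc.NC.I_Sn
import Pool.Agent.Work.MP_c6c039_lc.NC.Final
import Pool.Agent.Work.MP_c6c039_lc.FP.All

/-!
# Block NC: all items, the theorem (helper87)
-/

set_option autoImplicit false

namespace Pool.Agent.Work.MP_c6c039_lc.NC

open Pool.Agent.PT Pool.Agent.Work.MP_c6c039_lc.FP N487b59b3


theorem c_Al : St_Al := pr_Al

theorem c_Ck : St_Ck := pr_Ck

theorem c_Cn : St_Cn := pr_Cn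

theorem c_Cu : St_Cu := pr_Cu

theorem c_Da : St_Da := pr_Da

theorem c_Ed : St_Ed := pr_Ed

theorem c_Ep : St_Ep := pr_Ep

theorem c_G1 : St_G1 := pr_G1

theorem c_G2 : St_G2 := pr_G2

theorem c_Il : St_Il := pr_Il

theorem c_Iv : St_Iv := pr_Iv

theorem c_Nc : St_Nc := pr_Nc

theorem c_Pa : St_Pa := pr_Pa

theorem c_Px : St_Px := pr_Px

theorem c_S2 : St_S2 := pr_S2

theorem c_S3 : St_S3 := pr_S3

theorem c_S4 : St_S4 := pr_S4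

theorem c_Sa : St_Sa := pr_Sa

theorem c_Sg : St_Sg := pr_Sg

theorem c_Ci : St_Ci := pr_Ci FP.c_Sy c_Il

theorem c_Cy : St_Cy := pr_Cy FP.c_Sy FP.c_Hl c_Sg

theorem c_Fm : St_Fm := pr_Fm c_Ed c_Cn

theorem c_G3 : St_G3 := pr_G3 c_Ed c_Cn

theorem c_Gx : St_Gx := pr_Gx FP.c_Sy FP.c_Hl FP.c_GD FP.c_CT FP.c_PI c_Sg

theorem c_In : St_In := pr_In c_Ed c_Pa

theorem c_Nx : St_Nx := pr_Nx c_Il c_Ed

theorem c_S1 : St_S1 := pr_S1 c_Iv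

theorem c_S5 : St_S5 := pr_S5 c_Il c_Ed c_Iv

theorem c_A1 : St_A1 := pr_A1 c_Ed c_Nx

theorem c_Fd : St_Fd := pr_Fd FP.c_CT FP.c_PI c_Gx

theorem c_Gp : St_Gp := pr_Gp c_Nx c_Pa

theorem c_K1 : St_K1 := pr_K1 FP.c_Sy FP.c_Cs c_Ed c_Cy c_Ci c_Px c_Nc c_Da c_G1 c_G3

theorem c_S6 : St_S6 := pr_S6 c_Ed c_Nx c_Iv

theorem c_Pr : St_Pr := pr_Pr c_Ed c_Nx c_Gp c_In

theorem c_S7 : St_S7 := pr_S7 c_S1 c_S2 c_S3 c_S4 c_S5 c_S6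

theorem c_Kc : St_Kc := pr_Kc c_Ed c_Nx c_Gp c_In c_Pr c_Cu

theorem c_Ec : St_Ec := pr_Ec c_Nx c_Pa c_Kc

theorem c_Dq : St_Dq := pr_Dq c_S7 c_Sa c_Ec

theorem c_K2 : St_K2 := pr_K2 c_Dq c_Cy c_Nc c_Da c_G1 c_G3 c_K1

theorem c_Sn : St_Sn := pr_Sn c_Ed c_Dq c_A1 c_Cy c_Ci c_Px c_Nc c_Fm c_Da c_Ep

theorem c_Ne : St_Ne := pr_Ne c_Ck c_Sn c_G1 c_G2 c_K2 c_Al

theorem main_theorem (k : ℕ) : ∃ f : List (ℚ × ℚ) × List (ℚ × ℚ) → Bool,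
    N68a2faeb.IsPolyTime f ∧ ∀ I : List (ℚ × ℚ) × List (ℚ × ℚ), GenPos I →
      (f I = true → ∃ l : List (ℝ × ℝ), IsPath (pts I.1) (pts I.2) l) ∧
      (DC k I → (∃ l : List (ℝ × ℝ), IsPath (pts I.1) (pts I.2) l) → f I = true) :=
  final FP.c_PF FP.c_GD FP.c_EX c_Ne c_Fd k

end Pool.Agent.Work.MP_c6c039_lc.NC
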