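import Pool.Agent.Work.MP_c6c039_lc.NC.StmtsL

/-!
# Block NC, part K: skeletons (captain helper87)

Every docstring is the complete proof.  Item `X`: statement `St_X`, file `NC/I_X.lean`, theorem
`pr_X`, with the statements named after USES as hypotheses `(hA : St_A)` (a name `FP.A` means
`(hA : FP.St_A)`, a proved statement of block FP, files FP/StmtsG.lean); namespace as here, auxiliary
lemmas in the NEW sub-namespace `IX`.  `T`/`F` are `true`/`false`.
-/

set_option autoImplicit false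

namespace Pool.Agent.Work.MP_c6c039_lc.NC

open Pool.Agent.Work.MP_c6c039_lc.FP

/-! ## The convex points -/

/-- Sg (EASY-MEDIUM).  THE SUB-INSTANCE.  `sub I C = mkIn (table, colours)`, `nn = C.length` by definition, the entry of the
table (`List.getD_eq_getElem`, `List.getElem_map`).  `Good`: `hull` and `inte` are `rfl` (`mkIn`); `Rl`: if `X, Y` realise `I`
then `X' i = X (C.getD i 0)`, `Y' i = Y (C.getD i 0)` realise `sub I C` (`ar` unfolds; different indices give different
points, `C` nodup). -/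
def St_Sg : Prop := ∀ I : In, Good I → ∀ C : List ℕ, C.Nodup → (∀ v ∈ C, v < nn I) →
  nn (sub I C) = C.length ∧
  (∀ a b c, a < C.length → b < C.length → c < C.length →
    chi (sub I C) a b c = chi I (C.getD a 0) (C.getD b 0) (C.getD c 0)) ∧ Good (sub I C)

/-- Cy (EASY-MEDIUM).  Let `C0 = cm I D` (nodup, its elements are the `v < nn I` not in `D`), `J = sub I C0` (Sg), `CH J` (FP.Sy),
FP.Hl for `J`: `hu J` is nodup, its elements are `< nn J = C0.length`, and `chi J` is `T` on increasing triples; the map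
`i ↦ C0.getD i 0` is injective on `i < C0.length`.  Last clause: `(hu J).length = C0.length` and `hu J` nodup with
elements `< C0.length`: so every `i < C0.length` is in `hu J`.  USES FP.Sy FP.Hl Sg. -/
def St_Cy : Prop := ∀ I : In, Good I → ∀ D : List ℕ,
  (cyl I D).Nodup ∧ (∀ v ∈ cyl I D, v < nn I ∧ v ∉ D) ∧
  (∀ x y z, x < y → y < z → z < (cyl I D).length →
    chi I ((cyl I D).getD x 0) ((cyl I D).getD y 0) ((cyl I D).getD z 0) = true) ∧
  ((cyl I D).length = (cm I D).length → ∀ v, v < nn I → v ∉ D → v ∈ cyl I D)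

/-- Ci (MEDIUM).  CROSSING = INTERLEAVING.  `CH I` (FP.Sy).  Put `[xyz] = chi I (C x) (C y) (C z)` for distinct
`x, y, z < C.length`: it is `T` for increasing triples; with `CH.cyc`, `CH.anti` it is the sign of the permutation which sorts
`x, y, z`, that is `[xyz] = xor (bt x y z) (decide (x < y))` (six orders).  So `[xyz] == [xyw]` iff `bt x y z = bt x y w`, and
`cr = !(bt x y z == bt x y w) && !(bt z w x == bt z w y) = il x y z w && il z w x y = il x y z w` (Il).
USES FP.Sy Il. -/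
def St_Ci : Prop := ∀ I : In, Good I → ∀ C : List ℕ, C.Nodup → (∀ v ∈ C, v < nn I) →
  (∀ x y z, x < y → y < z → z < C.length →
    chi I (C.getD x 0) (C.getD y 0) (C.getD z 0) = true) →
  ∀ x y z w, x < C.length → y < C.length → z < C.length → w < C.length →
    dj (x, y) (z, w) → x ≠ y → z ≠ w →
    cr I (C.getD x 0) (C.getD y 0) (C.getD z 0) (C.getD w 0) = il x y z w

/-- Px (EASY).  Positions: `List.getElem_idxOf`, `List.idxOf_lt_length_iff`, `List.Nodup.idxOf_getElem` (the `BEq`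
instance in `px` is `instBEqOfDecidableEq`). -/
def St_Px : Prop := ∀ C : List ℕ, (∀ v ∈ C, px C v < C.length ∧ C.getD (px C v) 0 = v) ∧
  (C.Nodup → ∀ x, x < C.length → px C (C.getD x 0) = x)

/-! ## Edges, skeletons -/

/-- Cn (EASY).  Unfold `cn`, `ed`: both sides say that there is `i` with `i + 1 < σ.length`, `τ = σ[i]`, `τ' = σ[i+1]`. -/
def St_Cn : Prop := ∀ (σ : List (ℕ × ℕ)) (f : ℕ × ℕ),
  f ∈ cn σ ↔ ∃ τ τ', (τ, τ') ∈ ed σ ∧ f = (τ.2, τ'.1)

/-- Nc (EASY-MEDIUM).  The elements of `ed p` are the pairs `(p.getD i 0, p.getD (i + 1) 0)`, `i + 1 < p.length`.  For a nodup `p`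
the edges `i` and `j` are `dj` iff `|i - j| ≥ 2`; `cr I a b c d = cr I c d a b` by definition (`Bool.and_comm`), which gives the
case `j < i`. -/
def St_Nc : Prop := ∀ (I : In) (p : List ℕ), p.Nodup →
  (FP.NC I p ↔ ∀ e ∈ ed p, ∀ f ∈ ed p, dj e f → cr I e.1 e.2 f.1 f.2 = false) ∧
  ((∀ i, i + 1 < p.length → co I (p.getD i 0) ≠ co I (p.getD (i + 1) 0)) ↔
    ∀ e ∈ ed p, co I e.1 ≠ co I e.2)

/-- Fm (EASY-MEDIUM).  EDGES OF A CONCATENATION.  Induction on `σ`: `(τ :: τ' :: σ).flatMap h = h τ ++ (τ' :: σ).flatMap h`; Ed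
(append): an edge of it is one of `h τ`, one of the rest (induction; `cn (τ' :: σ) ⊆ cn (τ :: τ' :: σ)` by Cn), or joins the last
vertex `τ.2` of `h τ` with the first vertex of the rest, which is that of `h τ'`, `τ'.1` (`h τ'` is not empty).
USES Ed Cn. -/
def St_Fm : Prop := ∀ (σ : List (ℕ × ℕ)) (h : ℕ × ℕ → List ℕ),
  (∀ τ ∈ σ, (h τ).head? = some τ.1 ∧ (h τ).getLast? = some τ.2) →
  ∀ e ∈ ed (σ.flatMap h), (∃ τ ∈ σ, e ∈ ed (h τ)) ∨ e ∈ cn σ

/-- the conditions tested by `chk` -/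
structure CK (I : In) (D C : List ℕ) (σ : List (ℕ × ℕ)) : Prop where
  len : C.length = (cm I D).length
  tok : ∀ τ ∈ σ, τ.1 < nn I ∧ (τ.1 ∈ D → τ.1 = τ.2) ∧ (τ.1 ∉ D → τ.1 ∈ C ∧ τ.2 ∈ C)
  nd : (eps σ).Nodup
  occ : ∀ v, v < nn I → v ∈ D → ∃ τ ∈ σ, τ.1 = v
  cnc : ∀ f ∈ cn σ, co I f.1 ≠ co I f.2
  cnx : ∀ f ∈ cn σ, ∀ g ∈ cn σ, dj f g → cr I f.1 f.2 g.1 g.2 = false
  dpp : dp (dat I D C σ) = true

/-- Ck (EASY).  Unfold: `List.all_eq_true`, `List.any_eq_true`, `Bool.and_eq_true`, `decide_eq_true_iff`; `sh f g = F` iff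
`dj f g`; `ndp l = T` iff `l.Nodup` (`List.nodup_iff_injective_get` or `List.nodup_iff_getElem?_ne_getElem?`). -/
def St_Ck : Prop := ∀ (I : In) (D C : List ℕ) (σ : List (ℕ × ℕ)), chk I D C σ = true ↔ CK I D C σ

/-- Da (EASY-MEDIUM).  THE DATA.  Unfold `dat`, `okd`: for `x, y < C.length` the entry is
`okx (C x) (C y) && okx (C y) (C x)` (`List.getD_eq_getElem`, `List.getElem_map`, `List.getElem_range`), outside of the
table `getD` gives `F`; so the table is symmetric.  `ep`, `pr`: `List.any_eq_true`, `List.mem_map`, `List.mem_filter`. -/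
def St_Da : Prop := ∀ (I : In) (D C : List ℕ) (σ : List (ℕ × ℕ)),
  Sm (dat I D C σ) ∧ (dat I D C σ).1 = C.length ∧
  (∀ x y, okd (dat I D C σ) x y = true ↔ (x < C.length ∧ y < C.length ∧
    okx I σ (C.getD x 0) (C.getD y 0) = true ∧ okx I σ (C.getD y 0) (C.getD x 0) = true)) ∧
  (∀ t : ℕ × ℕ, t ∈ (dat I D C σ).2.2 ↔ ∃ τ ∈ σ, τ.1 ∉ D ∧ t = (px C τ.1, px C τ.2)) ∧
  (∀ x y, okx I σ x y = true ↔ (co I x ≠ co I y ∧
    ∀ f ∈ cn σ, dj (x, y) f → cr I x y f.1 f.2 = false))

/-- Ep (EASY).  `eps σ` is nodup: two different members `τ, τ'` of `σ` have no common end (their parts of the `flatMap` are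
disjoint: `List.nodup_flatMap`), and `σ` is nodup (a repeated token would repeat `τ.1`). -/
def St_Ep : Prop := ∀ σ : List (ℕ × ℕ), (eps σ).Nodup → σ.Nodup ∧
  ∀ τ ∈ σ, ∀ τ' ∈ σ, τ ≠ τ' → dj τ τ'

/-- Sn (MEDIUM-HARD).  SOUNDNESS.  `C = cyl I D` (Cy), `d = dat I D C σ`.  Dq: `SE d 0 d.1` (Da: `Sm d`).  A1 applies: for different
`t, t' ∈ d.2.2`, `t = (px τ.1, px τ.2)`, `t' = (px τ'.1, px τ'.2)`, the tokens are different, so `dj τ τ'` (Ep), and `px` is
injective on `C` (Px): `dj t t'`; `t.1 < C.length = d.1`.  We get `g`.  Put `h τ = [τ.1]` if `τ.1 ∈ D`, and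
`h τ = (g (px C τ.1, px C τ.2)).map fun x => C.getD x 0` otherwise; first vertex `τ.1`, last `τ.2` (for `τ.1 ∈ D`: `τ.1 = τ.2`).
`p = σ.flatMap h`.  (1) nodup: `σ` nodup (Ep), every `h τ` is nodup (`C.getD` injective below `C.length`), `h τ` and `h τ'` are
disjoint: two tokens of `D`: `τ.1 ≠ τ'.1`; one of `D` and one not: elements of `C` are not in `D` (Cy); two others: disjoint
by A1 (their pairs `t ≠ t'` since `px` is injective).  (2) span: `v < nn I`: `v ∈ D`: `occ`; `v ∉ D`: `v ∈ C` (Cy with `len`), position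
`x = px C v < d.1` is in some `g t`, `t ∈ d.2.2` comes from a token.  Conversely the elements are `< nn I` (`tok`, Cy).
(3) alt and nc by Nc: edges of `p` are edges of `h τ` or in `cn σ` (Fm); edges of `h τ` are images of edges `(x, y)` of `g t` (Ed, map), with
`okd d x y = T`, so `okx (C x) (C y)`: colours differ, and no crossing with the `f ∈ cn σ` that are `dj` (Da).  Two edges of `cn σ`:
`cnc`, `cnx`.  Two edges `(x, y)` of `g t` and `(z, w)` of `g t'` whose images are `dj`: then `dj (x, y) (z, w)`, `il x y z w = F` by A1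
(`NX`, also for `t = t'`), and `cr = il` (Ci; `x ≠ y` by nodup, Ed).  `cr I a b c d = cr I c d a b` by definition.
USES Ed Dq A1 Cy Ci Px Nc Fm Da Ep. -/
def St_Sn : Prop := ∀ I : In, Good I → ∀ (D : List ℕ) (σ : List (ℕ × ℕ)), CK I D (cyl I D) σ →
  ∃ p, SP I p

/-! ## Cutting a path -/

/-- G1 (EASY-MEDIUM).  Induction on `l` (`grp D (v :: l) = gi D v (grp D l)`), cases of `gi`. -/
def St_G1 : Prop := ∀ (D l : List ℕ), (grp D l).flatten = l ∧ ∀ g ∈ grp D l, g ≠ [] ∧
  (g.headD 0 ∈ D → g = [g.headD 0]) ∧ (g.headD 0 ∉ D → ∀ z ∈ g, z ∉ D)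

/-- G2 (EASY-MEDIUM).  Induction on `l` with the stronger claim: with `n = (l.filter (· ∈ D)).length`: `(grp D l).length ≤ 2 n + 1`,
and `≤ 2 n` if `grp D l = g :: gs` with `g.headD 0 ∈ D` (and `= 0` for `l = []`).  Adding `v ∈ D`: one more group, `n` grows by 1: new
length `≤ 2 n + 2 = 2 (n + 1)`.  Adding `v ∉ D`: if the first group starts in `D` the new length is `≤ 2 n + 1`, otherwise it does not
change (or it is `1` for `l = []`). -/
def St_G2 : Prop := ∀ (D l : List ℕ),
  (grp D l).length ≤ 2 * (l.filter fun v => decide (v ∈ D)).length + 1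

/-- G3 (EASY-MEDIUM).  EDGES OF THE GROUPS.  Induction on `G`, `(g :: G).flatten = g ++ G.flatten`, Ed (append).  `cn`: consecutive groups
`g, g'` (Cn, `ed (G.map tk)`): the last vertex of `g` and the first of `g'` are consecutive in `G.flatten` (`g' ≠ []`);
`getLastD`, `headD` of nonempty lists.  `eps`: `[head]` or `[head, last]` (if they are different) is a sublist of `g`.
USES Ed Cn. -/
def St_G3 : Prop := ∀ G : List (List ℕ), (∀ g ∈ G, g ≠ []) →
  (∀ g ∈ G, ∀ e ∈ ed g, e ∈ ed G.flatten) ∧ (∀ f ∈ cn (G.map tk), f ∈ ed G.flatten) ∧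
  (eps (G.map tk)).Sublist G.flatten

/-- the pieces of the path `l`, in positions -/
def pcs (D C l : List ℕ) : List (List ℕ) :=
  ((grp D l).filter fun g => !decide (g.headD 0 ∈ D)).map fun g => g.map (px C)

/-- K1 (MEDIUM).  THE PIECES OF A PATH.  `C = cyl I D` (Cy), `σ = (grp D l).map tk`, `d = dat I D C σ`, `M = pcs D C l`.  By G1 `l` is the
concatenation of the groups, `l` is nodup, so different groups are disjoint (`List.nodup_flatten`).  A group `g` with
`g.headD 0 ∉ D` has all vertices outside `D` (G1), `< nn I` (`SP.span`), so in `C` (Cy with `len`).  `p = g.map (px C)`: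
nodup (Px: injective on `C`).  Edges of `p` are `(px u, px v)`, `(u, v) ∈ ed g ⊆ ed l` (Ed map, G3).  `NX` for two such lists
(equal or not): `dj` for the positions gives `dj` for the vertices, `cr = F` by Nc, `il = F` by Ci (`C.getD (px u) 0 = u`).
`okk`: Da: `okx I σ u v`: colours differ (Nc), for `f ∈ cn σ`, `f ∈ ed l` (G3), `dj`: `cr = F` (Nc); `okx I σ v u`: the same with
FP.Cs (`cr I v u c d = cr I u v c d` for four distinct points `< nn I`).  `ends`: `(px τ.1, px τ.2) ∈ d.2.2` for `τ = tk g` (Da).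
`inn`: `z = px w`, `w ∈ g`, is an end of a pair `(px τ'.1, px τ'.2)`, `τ' = tk g'`, `g'` another such group: `w = τ'.1` or `τ'.2`
(Px), so `w ∈ g'`, `g' = g`, `z` is the first or last element of `p`.  `pw`: pairwise disjoint groups, `NX` as above.
`cov`: `z < C.length`: `v = C.getD z 0` is in `l`, in a group `g`; not `g.headD 0 ∈ D` (then `g = [v]`, `v ∈ D`); `px C v = z`
(Px).  Conversely `px C v < C.length = d.1`.  USES FP.Sy FP.Cs Ed Cy Ci Px Nc Da G1 G3. -/
def St_K1 : Prop := ∀ I : In, Good I → ∀ (D l : List ℕ), SP I l →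
  (cyl I D).length = (cm I D).length →
  Sys (dat I D (cyl I D) ((grp D l).map tk)) 0 (cyl I D).length (pcs D (cyl I D) l)

/-- K2 (EASY-MEDIUM).  COMPLETENESS.  `len` given.  `tok`: G1, `l`'s elements are `< nn I`, not in `D` implies in `C` (Cy).  `nd`: G3 (sublist of the
nodup `l`).  `occ`: `v ∈ l` is in a group `g`, `g.headD 0 ∈ D` (otherwise no element of `g` is in `D`), so `g = [v]`.  `cnc`, `cnx`:
`cn σ ⊆ ed l` (G3), Nc.  `dpp`: Dq with K1 (`d.1 = C.length`, Da).  USES Dq Cy Nc Da G1 G3 K1. -/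
def St_K2 : Prop := ∀ I : In, Good I → ∀ (D l : List ℕ), SP I l →
  (cyl I D).length = (cm I D).length → CK I D (cyl I D) ((grp D l).map tk)

/-- Al (EASY).  Induction on `K`. -/
def St_Al : Prop := ∀ (α : Type) (K : ℕ) (S l : List α), l ∈ allL K S ↔ l.length ≤ K ∧ ∀ a ∈ l, a ∈ S

/-- Ne (EASY-MEDIUM).  THE SEARCH.  First clause: `near` gives `D`, `σ` with `chk = T`; Ck, Sn.  Second: `D ∈ allL k (range n)` (Al); let
`l` be a path, `σ = (grp D l).map tk`, K2 and Ck give `chk = T`; `σ.length ≤ 2 k + 1` by G2, because `l.filter (· ∈ D)` is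
nodup with elements in `D`, so of length `≤ D.length ≤ k` (`List.Nodup.subperm`); its entries are pairs of elements of
`l` (G1: `headD`, `getLastD` of a nonempty group are elements), so `< nn I`; `List.mem_product`.
USES Ck Sn G1 G2 K2 Al. -/
def St_Ne : Prop := ∀ I : In, Good I → ∀ k : ℕ, (near k I = true → ∃ p, SP I p) ∧
  ∀ D : List ℕ, D.Nodup → D.length ≤ k → (∀ v ∈ D, v < nn I) →
    (cyl I D).length = (cm I D).length → (∃ p, SP I p) → near k I = true

end Pool.Agent.Work.MP_c6c039_lc.NC
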