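import Pool.Agent.Work.MP_c6c039_lc.FP.P1
import Pool.Agent.Work.MP_c6c039_lc.FP.StmtsG

/-!
# SSAP at bounded distance from convex position: definitions (block NC, captain helper87)

A set `D` of few points is removed; the other points are in convex position, `cyl I D` lists them in
cyclic order.  A spanning path is cut into tokens: the points of `D` and the maximal pieces which
avoid `D`; a token is the pair of its first and last vertex.  Given the list of tokens (the
skeleton) one has to cover the convex points by pairwise noncrossing pieces with prescribed pairs of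
ends; positions of the cyclic order are read as numbers `0, .., m - 1` on a line.
-/

set_option autoImplicit false

namespace Pool.Agent.Work.MP_c6c039_lc.NC

open Pool.Agent.PT Pool.Agent.Work.MP_c6c039_lc.FP

/-! ## Chords on a line -/

/-- `c` is strictly between `a` and `b` -/
def bt (a b c : ℕ) : Bool := (decide (a < c) && decide (c < b)) || (decide (b < c) && decide (c < a))

/-- exactly one of `c`, `d` is strictly between `a` and `b` -/
def il (a b c d : ℕ) : Bool := xor (bt a b c) (bt a b d)

/-- the edges of a path -/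
def ed {α : Type} (l : List α) : List (α × α) := l.zip l.tail

/-- edges without a common end point -/
def dj (e f : ℕ × ℕ) : Prop := e.1 ≠ f.1 ∧ e.1 ≠ f.2 ∧ e.2 ≠ f.1 ∧ e.2 ≠ f.2

/-- edges with a common end point -/
def sh (e f : ℕ × ℕ) : Bool := e.1 == f.1 || (e.1 == f.2 || (e.2 == f.1 || e.2 == f.2))

/-- two paths on the line do not cross -/
def NX (p q : List ℕ) : Prop := ∀ e ∈ ed p, ∀ f ∈ ed q, dj e f → il e.1 e.2 f.1 f.2 = false

/-! ## The problem on the line -/

/-- number of vertices, table of the allowed chords, prescribed pairs of ends -/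
abbrev Dt := ℕ × (List (List Bool) × List (ℕ × ℕ))

/-- the chord `x y` is allowed -/
def okd (d : Dt) (x y : ℕ) : Bool := (d.2.1.getD x []).getD y false

/-- `z` is a prescribed end -/
def ep (d : Dt) (z : ℕ) : Bool := d.2.2.any fun τ => τ.1 == z || τ.2 == z

/-- `a` and `b` form a prescribed pair -/
def pr (d : Dt) (a b : ℕ) : Bool :=
  d.2.2.any fun τ => (τ.1 == a && τ.2 == b) || (τ.1 == b && τ.2 == a)

/-- Facts: `(0, i, j, false)`: the interval `[i, j)` is covered by complete pieces;
`(e + 1, i, j, s)`: there is an initial part of a piece, starting in the end `e`, with vertices in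
`[i, j]`, among them `i` and `j`, with last vertex `i` (`s = false`) or `j` (`s = true`), and the other
vertices of `[i, j]` are covered by complete pieces. -/
abbrev Fa := ℕ × (ℕ × (ℕ × Bool))

/-- the current vertex -/
def cu (i j : ℕ) (s : Bool) : ℕ := if s then j else i

/-- a complete piece with the extreme vertices `i` and `y` -/
def kR (d : Dt) (L : List Fa) (i y : ℕ) : Bool :=
  (i == y && pr d i i) ||
  (List.range d.1).any fun a => (List.range d.1).any fun b =>
    (decide (i ≤ a) && (decide (a < b) && (decide (b ≤ y) && decide ((0, a + 1, b, false) ∈ L)))) &&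
    ((List.range d.1).any fun e => (List.range d.1).any fun e' => pr d e e' &&
      ([false, true].any fun s => [false, true].any fun s' =>
        decide ((e + 1, i, a, s) ∈ L) && (decide ((e' + 1, b, y, s') ∈ L) &&
          okd d (cu i a s) (cu b y s'))))

/-- the rule for `[i, j)` -/
def eR (d : Dt) (L : List Fa) (i j : ℕ) : Bool :=
  i == j || (List.range d.1).any fun y => decide (i ≤ y) && (decide (y < j) &&
    (kR d L i y && decide ((0, y + 1, j, false) ∈ L)))

/-- the rules for parts -/
def rR (d : Dt) (L : List Fa) (e i j : ℕ) (s : Bool) : Bool :=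
  (i == e && (j == e && ep d e)) ||
  (if s then
    !ep d j && (List.range d.1).any fun a => decide (i ≤ a) && (decide (a < j) &&
      (decide ((0, a + 1, j, false) ∈ L) && [false, true].any fun t =>
        decide ((e + 1, i, a, t) ∈ L) && okd d (cu i a t) j))
  else
    !ep d i && (List.range d.1).any fun a => decide (i < a) && (decide (a ≤ j) &&
      (decide ((0, i + 1, a, false) ∈ L) && [false, true].any fun t =>
        decide ((e + 1, a, j, t) ∈ L) && okd d (cu a j t) i)))

/-- all facts -/
def allF (d : Dt) : List Fa :=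
  List.product (List.range (d.1 + 2)) (List.product (List.range (d.1 + 1))
    (List.product (List.range (d.1 + 1)) [false, true]))

/-- the fact follows from the facts of `L` by one rule -/
def rule (d : Dt) (L : List Fa) (f : Fa) : Bool :=
  if f.1 = 0 then !f.2.2.2 && eR d L f.2.1 f.2.2.1
  else rR d L (f.1 - 1) f.2.1 f.2.2.1 f.2.2.2

/-- one round -/
def stp (d : Dt) (L : List Fa) : List Fa := (allF d).filter fun f => decide (f ∈ L) || rule d L f

/-- all derivable facts -/
def sat (d : Dt) : List Fa := (stp d)^[(allF d).length + 1] []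

/-- the answer for the line -/
def dp (d : Dt) : Bool := decide ((0, 0, d.1, false) ∈ sat d)

/-! ### Meaning of the facts -/

/-- symmetric table -/
def Sm (d : Dt) : Prop := ∀ x y, okd d x y = okd d y x

/-- `l` (newest vertex first) is an initial part of a piece which starts in the end `e` -/
structure Pt (d : Dt) (e : ℕ) (l : List ℕ) : Prop where
  nodup : l.Nodup
  last : l.getLast? = some e
  self : NX l l
  okk : ∀ f ∈ ed l, okd d f.1 f.2 = true
  epe : ep d e = true
  inn : ∀ z ∈ l, ep d z = true → z = e

/-- `p` is a complete piece -/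
structure Pc (d : Dt) (p : List ℕ) : Prop where
  nodup : p.Nodup
  self : NX p p
  okk : ∀ f ∈ ed p, okd d f.1 f.2 = true
  ends : ∃ a b, p.head? = some a ∧ p.getLast? = some b ∧ pr d a b = true
  inn : ∀ z ∈ p, ep d z = true → p.head? = some z ∨ p.getLast? = some z

/-- the complete pieces `M` cover exactly the interval `[a, b)` -/
structure Sys (d : Dt) (a b : ℕ) (M : List (List ℕ)) : Prop where
  pc : ∀ p ∈ M, Pc d p
  pw : M.Pairwise fun p q => NX p q ∧ ∀ z ∈ p, z ∉ q
  cov : ∀ z, (∃ p ∈ M, z ∈ p) ↔ a ≤ z ∧ z < b

/-- `[a, b)` can be covered -/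
def SE (d : Dt) (a b : ℕ) : Prop := ∃ M, Sys d a b M

/-- meaning of `(e + 1, i, j, s)` -/
def SR (d : Dt) (e i j : ℕ) (s : Bool) : Prop := ∃ (l : List ℕ) (M : List (List ℕ)),
  Pt d e l ∧ l.head? = some (cu i j s) ∧ i ∈ l ∧ j ∈ l ∧ (∀ p ∈ M, Pc d p) ∧
  (M.Pairwise fun p q => NX p q ∧ ∀ z ∈ p, z ∉ q) ∧ (∀ p ∈ M, NX l p ∧ ∀ z ∈ p, z ∉ l) ∧
  ∀ z, (z ∈ l ∨ ∃ p ∈ M, z ∈ p) ↔ i ≤ z ∧ z ≤ j

/-- every piece of `M` which meets `[a, b)` is contained in it -/
def Cl (M : List (List ℕ)) (a b : ℕ) : Prop :=
  ∀ p ∈ M, (∃ z ∈ p, a ≤ z ∧ z < b) → ∀ z ∈ p, a ≤ z ∧ z < b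

/-! ## The convex points -/

/-- the points which are not in `D` -/
def cm (I : In) (D : List ℕ) : List ℕ := (List.range (nn I)).filter fun v => !decide (v ∈ D)

/-- the instance of the points of `C` -/
def sub (I : In) (C : List ℕ) : In :=
  mkIn (C.map (fun a => C.map fun b => C.map fun c => chi I a b c), C.map fun a => co I a)

/-- the extreme points of the set without `D`, in cyclic order -/
def cyl (I : In) (D : List ℕ) : List ℕ := (hu (sub I (cm I D))).map fun i => (cm I D).getD i 0

/-- position in the list -/
def px (C : List ℕ) (v : ℕ) : ℕ := @List.idxOf ℕ instBEqOfDecidableEq v C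

/-! ## Skeletons -/

/-- the connecting edges of a list of tokens -/
def cn (σ : List (ℕ × ℕ)) : List (ℕ × ℕ) :=
  (List.range (σ.length - 1)).map fun i => ((σ.getD i (0, 0)).2, (σ.getD (i + 1) (0, 0)).1)

/-- the edge `x y` is alternating and crosses no connecting edge -/
def okx (I : In) (σ : List (ℕ × ℕ)) (x y : ℕ) : Bool :=
  !(co I x == co I y) && (cn σ).all fun f => sh (x, y) f || !cr I x y f.1 f.2

/-- the problem on the line for the convex points `C`, the set `D` and the skeleton `σ` -/
def dat (I : In) (D C : List ℕ) (σ : List (ℕ × ℕ)) : Dt :=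
  (C.length, ((List.range C.length).map fun x => (List.range C.length).map fun y =>
      okx I σ (C.getD x 0) (C.getD y 0) && okx I σ (C.getD y 0) (C.getD x 0),
    (σ.filter fun τ => !decide (τ.1 ∈ D)).map fun τ => (px C τ.1, px C τ.2)))

/-- the end points of the tokens -/
def eps (σ : List (ℕ × ℕ)) : List ℕ := σ.flatMap fun τ => if τ.1 = τ.2 then [τ.1] else [τ.1, τ.2]

/-- no element is repeated -/
def ndp (l : List ℕ) : Bool := (List.range l.length).all fun i => (List.range l.length).all fun j =>
  i == j || !(l.getD i 0 == l.getD j 0)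

/-- the test of a skeleton -/
def chk (I : In) (D C : List ℕ) (σ : List (ℕ × ℕ)) : Bool :=
  (C.length == (cm I D).length) &&
  ((σ.all fun τ => decide (τ.1 < nn I) &&
    (if τ.1 ∈ D then τ.1 == τ.2 else decide (τ.1 ∈ C) && decide (τ.2 ∈ C))) &&
  (ndp (eps σ) &&
  (((List.range (nn I)).all fun v => !decide (v ∈ D) || σ.any fun τ => τ.1 == v) &&
  (((cn σ).all fun f => !(co I f.1 == co I f.2) &&
    (cn σ).all fun g => sh f g || !cr I f.1 f.2 g.1 g.2) &&
  dp (dat I D C σ)))))

/-- all lists of length at most `K` over `S` -/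
def allL {α : Type} : ℕ → List α → List (List α)
  | 0, _ => [[]]
  | K + 1, S => [] :: S.flatMap fun a => (allL K S).map fun l => a :: l

/-- the search -/
def near (k : ℕ) (I : In) : Bool :=
  (allL k (List.range (nn I))).any fun D =>
    (allL (2 * k + 1) (List.product (List.range (nn I)) (List.range (nn I)))).any fun σ =>
      chk I D (cyl I D) σ

/-! ## Cutting a path -/

/-- add a vertex to a list of groups -/
def gi (D : List ℕ) (v : ℕ) (G : List (List ℕ)) : List (List ℕ) :=
  match G with
  | [] => [[v]]
  | g :: gs => if v ∈ D ∨ g.headD 0 ∈ D then [v] :: g :: gs else (v :: g) :: gs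

/-- the points of `D` and the maximal pieces without points of `D` -/
def grp (D : List ℕ) (l : List ℕ) : List (List ℕ) := l.foldr (gi D) []

/-- first and last vertex of a group -/
def tk (g : List ℕ) : ℕ × ℕ := (g.headD 0, g.getLastD 0)

end Pool.Agent.Work.MP_c6c039_lc.NC
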