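import Pool.Agent.Work.MP_c6c039_lc.NC.StmtsL

/-!
# Block NC, item A1: choice of the pieces
-/

set_option autoImplicit false

namespace Pool.Agent.Work.MP_c6c039_lc.NC

namespace IA1

/-- `l` is the path `p` in one of its two directions -/
def Dir (l p : List ℕ) : Prop := l = p ∨ l = p.reverse

theorem dir_mem {l p : List ℕ} (h : Dir l p) (z : ℕ) : z ∈ l ↔ z ∈ p := by
  rcases h with rfl | rfl
  · exact Iff.rfl
  · exact List.mem_reverse

theorem dir_nx (hNx : St_Nx) {l p l' p' : List ℕ} (h : Dir l p) (h' : Dir l' p')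
    (hp : NX p p') : NX l l' := by
  have h1 : NX l p' := by
    rcases h with rfl | rfl
    · exact hp
    · exact (hNx.2 _ _ hp).1
  rcases h' with rfl | rfl
  · exact h1
  · exact (hNx.2 _ _ h1).2

theorem ends_of {p : List ℕ} {a b : ℕ} (ha : p.head? = some a) (hb : p.getLast? = some b)
    {l : List ℕ} (h : Dir l p) {x y : ℕ} (hx : l.head? = some x) (hy : l.getLast? = some y) :
    (x = a ∧ y = b) ∨ (x = b ∧ y = a) := by
  rcases h with rfl | rfl
  · left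
    rw [ha] at hx
    rw [hb] at hy
    exact ⟨(Option.some.inj hx).symm, (Option.some.inj hy).symm⟩
  · right
    rw [List.head?_reverse, hb] at hx
    rw [List.getLast?_reverse, ha] at hy
    exact ⟨(Option.some.inj hx).symm, (Option.some.inj hy).symm⟩

/-- a prescribed pair in the list -/
theorem pr_mem {d : Dt} {a b : ℕ} (h : pr d a b = true) :
    ∃ τ ∈ d.2.2, (τ.1 = a ∧ τ.2 = b) ∨ (τ.1 = b ∧ τ.2 = a) := by
  unfold pr at h
  rw [List.any_eq_true] at h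
  obtain ⟨τ, hτ, h⟩ := h
  simp only [Bool.or_eq_true, Bool.and_eq_true, beq_iff_eq] at h
  exact ⟨τ, hτ, h⟩

theorem ep_of {d : Dt} {τ : ℕ × ℕ} (hτ : τ ∈ d.2.2) : ep d τ.1 = true := by
  unfold ep
  rw [List.any_eq_true]
  exact ⟨τ, hτ, by simp⟩

/-- two different pieces -/
theorem pw (hNx : St_Nx) {d : Dt} {M : List (List ℕ)} (hS : Sys d 0 d.1 M) {p q : List ℕ}
    (hp : p ∈ M) (hq : q ∈ M) (hpq : p ≠ q) : NX p q ∧ ∀ z ∈ p, z ∉ q := by
  have h1 : M.Pairwise fun p q => NX p q ∧ NX q p ∧ ∀ z ∈ p, z ∉ q := by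
    apply List.Pairwise.imp_of_mem _ hS.pw
    intro a b ha hb h
    exact ⟨h.1, hNx.1 a b (hS.pc a ha).nodup (hS.pc b hb).nodup h.1, h.2⟩
  have h2 : Std.Symm fun p q : List ℕ => NX p q ∧ NX q p ∧ ∀ z ∈ p, z ∉ q :=
    ⟨fun a b h => ⟨h.2.1, h.1, fun z hz hz' => h.2.2 z hz' hz⟩⟩
  have h3 := List.Pairwise.forall h1 hp hq hpq
  exact ⟨h3.1, h3.2.2⟩

theorem piece {d : Dt} {M : List (List ℕ)} (hS : Sys d 0 d.1 M)
    (hdj : ∀ τ ∈ d.2.2, ∀ τ' ∈ d.2.2, τ ≠ τ' → dj τ τ') (hlt : ∀ τ ∈ d.2.2, τ.1 < d.1)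
    {τ : ℕ × ℕ} (hτ : τ ∈ d.2.2) :
    ∃ l, ∃ p ∈ M, Dir l p ∧ l.head? = some τ.1 ∧ l.getLast? = some τ.2 := by
  obtain ⟨p, hp, hτp⟩ := (hS.cov τ.1).2 ⟨Nat.zero_le _, hlt τ hτ⟩
  have hc := hS.pc p hp
  obtain ⟨a, b, ha, hb, hab⟩ := hc.ends
  obtain ⟨τ', hτ', h⟩ := pr_mem hab
  have hin : τ.1 = a ∨ τ.1 = b := by
    rcases hc.inn τ.1 hτp (ep_of hτ) with h1 | h1
    · rw [ha] at h1
      exact Or.inl (Option.some.inj h1).symm
    · rw [hb] at h1
      exact Or.inr (Option.some.inj h1).symm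
  have he : τ = τ' := by
    by_contra hne
    have hd := hdj τ hτ τ' hτ' hne
    unfold dj at hd
    rcases h with h | h <;> rcases hin with h' | h'
    · exact hd.1 (h'.trans h.1.symm)
    · exact hd.2.1 (h'.trans h.2.symm)
    · exact hd.2.1 (h'.trans h.2.symm)
    · exact hd.1 (h'.trans h.1.symm)
  subst he
  rcases h with h | h
  · exact ⟨p, p, hp, Or.inl rfl, by rw [ha, h.1], by rw [hb, h.2]⟩
  · exact ⟨p.reverse, p, hp, Or.inr rfl, by rw [List.head?_reverse, hb, h.1],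
      by rw [List.getLast?_reverse, ha, h.2]⟩

end IA1

theorem pr_A1 (hEd : St_Ed) (hNx : St_Nx) : St_A1 := by
  intro d hSm hdj hlt hSE
  obtain ⟨M, hS⟩ := hSE
  have hex : ∀ τ : ℕ × ℕ, ∃ l : List ℕ, τ ∈ d.2.2 →
      ∃ p ∈ M, IA1.Dir l p ∧ l.head? = some τ.1 ∧ l.getLast? = some τ.2 := by
    intro τ
    by_cases hτ : τ ∈ d.2.2
    · obtain ⟨l, hl⟩ := IA1.piece hS hdj hlt hτ
      exact ⟨l, fun _ => hl⟩
    · exact ⟨[], fun h => absurd h hτ⟩
  choose g hg using hex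
  refine ⟨g, ?_, ?_, ?_⟩
  · intro τ hτ
    obtain ⟨p, hp, hd, hh, hl⟩ := hg τ hτ
    have hc := hS.pc p hp
    refine ⟨?_, hh, hl, IA1.dir_nx hNx hd hd hc.self, ?_, ?_⟩
    · rcases hd with h | h
      · rw [h]; exact hc.nodup
      · rw [h]; exact List.nodup_reverse.2 hc.nodup
    · intro f hf
      rcases hd with h | h
      · rw [h] at hf; exact hc.okk f hf
      · rw [h] at hf
        have := hc.okk _ ((hEd.2.2.1 ℕ p f).1 hf)
        rw [hSm]
        exact this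
    · intro z hz
      exact ((hS.cov z).1 ⟨p, hp, (IA1.dir_mem hd z).1 hz⟩).2
  · intro τ hτ τ' hτ' hne
    obtain ⟨p, hp, hd, hh, hl⟩ := hg τ hτ
    obtain ⟨p', hp', hd', hh', hl'⟩ := hg τ' hτ'
    obtain ⟨a, b, ha, hb, hab⟩ := (hS.pc p hp).ends
    have hpp : p ≠ p' := by
      rintro rfl
      have h1 := IA1.ends_of ha hb hd hh hl
      have h2 := IA1.ends_of ha hb hd' hh' hl'
      have h3 := hdj τ hτ τ' hτ' hne
      unfold dj at h3
      rcases h1 with h1 | h1 <;> rcases h2 with h2 | h2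
      · exact h3.1 (h1.1.trans h2.1.symm)
      · exact h3.2.1 (h1.1.trans h2.2.symm)
      · exact h3.2.1 (h1.1.trans h2.2.symm)
      · exact h3.1 (h1.1.trans h2.1.symm)
    have h4 := IA1.pw hNx hS hp hp' hpp
    refine ⟨IA1.dir_nx hNx hd hd' h4.1, ?_⟩
    intro z hz hz'
    exact h4.2 z ((IA1.dir_mem hd z).1 hz) ((IA1.dir_mem hd' z).1 hz')
  · intro z hz
    obtain ⟨p, hp, hzp⟩ := (hS.cov z).2 ⟨Nat.zero_le _, hz⟩
    obtain ⟨a, b, ha, hb, hab⟩ := (hS.pc p hp).ends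
    obtain ⟨τ, hτ, h⟩ := IA1.pr_mem hab
    obtain ⟨p', hp', hd', hh', hl'⟩ := hg τ hτ
    refine ⟨τ, hτ, ?_⟩
    have hpp : p = p' := by
      by_contra hne
      have h4 := IA1.pw hNx hS hp hp' hne
      have h5 : τ.1 ∈ p' := (IA1.dir_mem hd' _).1 (List.mem_of_mem_head? hh')
      have h6 : τ.1 ∈ p := by
        rcases h with h | h
        · rw [h.1]; exact List.mem_of_mem_head? ha
        · rw [h.1]; exact List.mem_of_mem_getLast? hb
      exact h4.2 _ h6 h5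
    subst hpp
    exact (IA1.dir_mem hd' z).2 hzp

end Pool.Agent.Work.MP_c6c039_lc.NC
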