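import Pool.Agent.Work.MP_c6c039_lc.NC.StmtsL

/-!
# Block NC, item Ec: closed intervals are facts (helper34)
-/

set_option autoImplicit false

namespace Pool.Agent.Work.MP_c6c039_lc.NC

namespace IEc

/-- facts of kind 0 are in `allF` -/
theorem mem_allF (d : Dt) (a b : ℕ) (ha : a ≤ d.1) (hb : b ≤ d.1) : ((0, a, b, false) : Fa) ∈ allF d := by
  unfold allF
  simp only [List.product, List.mem_flatMap, List.mem_map, List.mem_range]
  exact ⟨0, by omega, (a, b, false), ⟨a, by omega, (b, false), ⟨b, by omega, false, by simp, rfl⟩, rfl⟩,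
    rfl⟩

/-- two different pieces are disjoint and do not cross -/
theorem pw2 (hNx : St_Nx) (d : Dt) (M : List (List ℕ)) (hM : Sys d 0 d.1 M) (p q : List ℕ)
    (hp : p ∈ M) (hq : q ∈ M) (hpq : p ≠ q) : NX p q ∧ ∀ z ∈ p, z ∉ q := by
  have h1 : M.Pairwise fun p q => (NX p q ∧ ∀ z ∈ p, z ∉ q) ∨ (NX q p ∧ ∀ z ∈ q, z ∉ p) :=
    hM.pw.imp fun h => Or.inl h
  have : Std.Symm fun p q : List ℕ =>
      (NX p q ∧ ∀ z ∈ p, z ∉ q) ∨ (NX q p ∧ ∀ z ∈ q, z ∉ p) := ⟨fun _ _ h => h.symm⟩
  have h2 := List.Pairwise.forall (R := fun p q : List ℕ =>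
    (NX p q ∧ ∀ z ∈ p, z ∉ q) ∨ (NX q p ∧ ∀ z ∈ q, z ∉ p)) h1 hp hq hpq
  rcases h2 with h | h
  · exact h
  · refine ⟨hNx.1 q p (hM.pc q hq).nodup (hM.pc p hp).nodup h.1, fun z hz hz' => h.2 z hz' hz⟩

/-- one step of the induction -/
theorem step (hNx : St_Nx) (hPa : St_Pa) (hKc : St_Kc) (d : Dt) (hS : Sm d) (M : List (List ℕ))
    (L : List Fa) (hM : Sys d 0 d.1 M) (hC : Cr d L) (a b : ℕ) (hab : a ≤ b) (hb : b ≤ d.1)
    (hcl : Cl M a b) (hSh : Sh d M L (b - a)) : ((0, a, b, false) : Fa) ∈ L := by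
  refine hC _ (mem_allF d a b (by omega) hb) ?_
  have hr : rule d L ((0, a, b, false) : Fa) = eR d L a b := by
    simp [rule]
  rw [hr]
  unfold eR
  rcases Nat.eq_or_lt_of_le hab with h | h
  · subst h
    simp
  · obtain ⟨p, hp, hap⟩ := (hM.cov a).2 ⟨by omega, by omega⟩
    have hin : ∀ z ∈ p, a ≤ z ∧ z < b := hcl p hp ⟨a, hap, le_refl _, h⟩
    obtain ⟨X, hX, hmax⟩ := p.toFinset.exists_max_image id ⟨a, List.mem_toFinset.2 hap⟩
    have hXp : X ∈ p := List.mem_toFinset.1 hX
    have hmx : ∀ z ∈ p, z ≤ X := fun z hz => hmax z (List.mem_toFinset.2 hz)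
    have hXb := hin X hXp
    have hk : kR d L a X = true := by
      refine hKc d hS M L hM hC p a X hp (fun z hz => ⟨(hin z hz).1, hmx z hz⟩) hap hXp ?_
      intro x y hxy hy hN hc
      exact hSh x y hxy hy (by omega) hc
    have hc2 : Cl M (X + 1) b := by
      intro q hq hz
      obtain ⟨z, hzq, hz1, hz2⟩ := hz
      have hqin : ∀ w ∈ q, a ≤ w ∧ w < b := hcl q hq ⟨z, hzq, by omega, hz2⟩
      have hne : p ≠ q := by
        intro he
        subst he
        have := hmx z hzq
        omega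
      obtain ⟨hnx, hdis⟩ := pw2 hNx d M hM p q hp hq hne
      intro w hw
      refine ⟨?_, (hqin w hw).2⟩
      by_contra hlt
      have hw1 : w ≠ a := fun he => hdis a hap (he ▸ hw)
      have hw2 : w ≠ X := fun he => hdis X hXp (he ▸ hw)
      have hw3 := (hqin w hw).1
      have hil := hPa p q hnx hdis a hap X hXp w hw z hzq
      have hb1 : bt a X w = true := by
        have e1 : a < w := by omega
        have e2 : w < X := by omega
        simp [bt, e1, e2]
      have hb2 : bt a X z = false := by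
        have e1 : ¬ z < X := by omega
        have e2 : ¬ z < a := by omega
        simp only [bt, Bool.or_eq_false_iff, Bool.and_eq_false_iff, decide_eq_false_iff_not]
        exact ⟨Or.inr e1, Or.inr e2⟩
      rw [il, hb1, hb2] at hil
      simp at hil
    have hf : ((0, X + 1, b, false) : Fa) ∈ L :=
      hSh (X + 1) b (by omega) hb (by omega) hc2
    rw [Bool.or_eq_true]
    right
    rw [List.any_eq_true]
    refine ⟨X, List.mem_range.2 (by omega), ?_⟩
    rw [Bool.and_eq_true, Bool.and_eq_true, Bool.and_eq_true]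
    exact ⟨decide_eq_true hXb.1, decide_eq_true hXb.2, hk, decide_eq_true hf⟩

/-- all closed intervals are facts -/
theorem shAll (hNx : St_Nx) (hPa : St_Pa) (hKc : St_Kc) (d : Dt) (hS : Sm d) (M : List (List ℕ))
    (L : List Fa) (hM : Sys d 0 d.1 M) (hC : Cr d L) (N : ℕ) : Sh d M L N := by
  induction N with
  | zero =>
    intro x y _ _ h _
    omega
  | succ N ih =>
    intro x y hxy hy h hc
    refine step hNx hPa hKc d hS M L hM hC x y hxy hy hc ?_
    intro x' y' hxy' hy' h' hc'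
    exact ih x' y' hxy' hy' (by omega) hc'

end IEc

/-- closed intervals are facts -/
theorem pr_Ec (hNx : St_Nx) (hPa : St_Pa) (hKc : St_Kc) : St_Ec := by
  intro d hS M L hM hC a b hab hb hcl
  exact IEc.shAll hNx hPa hKc d hS M L hM hC (b - a + 1) a b hab hb (by omega) hcl

end Pool.Agent.Work.MP_c6c039_lc.NC
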