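import Pool.Agent.Work.MP_c6c039_lc.NC.StmtsL

/-!
# Block NC, item Il: symmetries of `il`
-/

set_option autoImplicit false

namespace Pool.Agent.Work.MP_c6c039_lc.NC

namespace IIl

theorem bt_iff (a b c : ℕ) : bt a b c = true ↔ (a < c ∧ c < b) ∨ (b < c ∧ c < a) := by
  unfold bt
  simp only [Bool.or_eq_true, Bool.and_eq_true, decide_eq_true_eq]

theorem bt_comm (a b c : ℕ) : bt b a c = bt a b c := by
  rw [Bool.eq_iff_iff, bt_iff, bt_iff]
  exact or_comm

theorem il_iff (a b c d : ℕ) : il a b c d = true ↔ ¬ (bt a b c = true ↔ bt a b d = true) := by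
  unfold il
  cases bt a b c <;> cases bt a b d <;> decide

end IIl

open IIl in
/-- Il: symmetries of `il`. -/
theorem pr_Il : St_Il := by
  intro a b c d
  refine ⟨?_, ?_, ?_⟩
  · unfold il
    rw [bt_comm a b c, bt_comm a b d]
  · unfold il
    exact Bool.xor_comm _ _
  · rintro ⟨h1, h2, h3, h4⟩ h5 h6
    simp only at h1 h2 h3 h4
    rw [Bool.eq_iff_iff, il_iff, il_iff, bt_iff, bt_iff, bt_iff, bt_iff]
    omega

end Pool.Agent.Work.MP_c6c039_lc.NC
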