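import Pool.Agent.Work.MP_c6c039_lc.NC.StmtsL

set_option autoImplicit false

namespace Pool.Agent.Work.MP_c6c039_lc.NC

namespace IPr

theorem mem_allF (d : Dt) (k i j : ℕ) (s : Bool) (hk : k < d.1 + 2) (hi : i < d.1 + 1)
    (hj : j < d.1 + 1) : (k, i, j, s) ∈ allF d := by
  unfold allF
  rw [List.pair_mem_product, List.pair_mem_product, List.pair_mem_product]
  refine ⟨List.mem_range.mpr hk, List.mem_range.mpr hi, List.mem_range.mpr hj, ?_⟩
  cases s <;> simp

theorem ep_of_pr (d : Dt) (a b : ℕ) (h : pr d a b = true) : ep d a = true ∧ ep d b = true := by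
  unfold pr at h
  rw [List.any_eq_true] at h
  obtain ⟨τ, hτ, h⟩ := h
  unfold ep
  constructor
  · rw [List.any_eq_true]
    refine ⟨τ, hτ, ?_⟩
    simp only [Bool.or_eq_true, Bool.and_eq_true] at h ⊢
    rcases h with h | h
    · exact Or.inl h.1
    · exact Or.inr h.2
  · rw [List.any_eq_true]
    refine ⟨τ, hτ, ?_⟩
    simp only [Bool.or_eq_true, Bool.and_eq_true] at h ⊢
    rcases h with h | h
    · exact Or.inr h.2
    · exact Or.inl h.1

theorem bt_false (u v x : ℕ) (h : bt u v x = false) : ¬ (u < x ∧ x < v) := by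
  intro hh
  unfold bt at h
  simp [hh.1, hh.2] at h

theorem right_mem (d : Dt) (L : List Fa) (hC : Cr d L) (e a b v : ℕ) (s : Bool)
    (he : e < d.1) (ha : a ≤ b) (hbv : b < v) (hv : v < d.1) (hep : ep d v = false)
    (h0 : (0, b + 1, v, false) ∈ L) (h1 : (e + 1, a, b, s) ∈ L)
    (hok : okd d (cu a b s) v = true) : (e + 1, a, v, true) ∈ L := by
  apply hC _ (mem_allF d _ _ _ _ (by omega) (by omega) (by omega))
  show (if e + 1 = 0 then _ else rR d L (e + 1 - 1) a v true) = true
  rw [if_neg (Nat.succ_ne_zero e), Nat.add_sub_cancel]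
  unfold rR
  rw [Bool.or_eq_true]
  right
  rw [if_pos rfl, hep]
  simp only [Bool.not_false, Bool.true_and]
  rw [List.any_eq_true]
  refine ⟨b, List.mem_range.mpr (by omega), ?_⟩
  simp only [Bool.and_eq_true, decide_eq_true_eq]
  refine ⟨ha, hbv, h0, ?_⟩
  rw [List.any_eq_true]
  refine ⟨s, by cases s <;> simp, ?_⟩
  simp only [Bool.and_eq_true, decide_eq_true_eq]
  exact ⟨h1, hok⟩

theorem left_mem (d : Dt) (L : List Fa) (hC : Cr d L) (e a b v : ℕ) (s : Bool)
    (he : e < d.1) (ha : a ≤ b) (hva : v < a) (hb : b < d.1) (hep : ep d v = false)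
    (h0 : (0, v + 1, a, false) ∈ L) (h1 : (e + 1, a, b, s) ∈ L)
    (hok : okd d (cu a b s) v = true) : (e + 1, v, b, false) ∈ L := by
  apply hC _ (mem_allF d _ _ _ _ (by omega) (by omega) (by omega))
  show (if e + 1 = 0 then _ else rR d L (e + 1 - 1) v b false) = true
  rw [if_neg (Nat.succ_ne_zero e), Nat.add_sub_cancel]
  unfold rR
  rw [Bool.or_eq_true]
  right
  rw [if_neg (by simp), hep]
  simp only [Bool.not_false, Bool.true_and]
  rw [List.any_eq_true]
  refine ⟨a, List.mem_range.mpr (by omega), ?_⟩
  simp only [Bool.and_eq_true, decide_eq_true_eq]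
  refine ⟨hva, ha, h0, ?_⟩
  rw [List.any_eq_true]
  refine ⟨s, by cases s <;> simp, ?_⟩
  simp only [Bool.and_eq_true, decide_eq_true_eq]
  exact ⟨h1, hok⟩

theorem base_mem (d : Dt) (L : List Fa) (hC : Cr d L) (e : ℕ) (he : e < d.1)
    (hep : ep d e = true) : (e + 1, e, e, false) ∈ L := by
  apply hC _ (mem_allF d _ _ _ _ (by omega) (by omega) (by omega))
  show (if e + 1 = 0 then _ else rR d L (e + 1 - 1) e e false) = true
  rw [if_neg (Nat.succ_ne_zero e), Nat.add_sub_cancel]
  unfold rR
  rw [Bool.or_eq_true]
  left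
  rw [hep]
  simp

end IPr

open IPr in
theorem pr_Pr (hEd : St_Ed) (hNx : St_Nx) (hGp : St_Gp) (hIn : St_In) : St_Pr := by
  intro d hSm M L hS hC p A X c g e hp hAX hA hX hSh hhd hc hg hgAX
  obtain ⟨-, -, hEr, -, -, -, hEi⟩ := hEd
  -- the piece
  have hnd : p.Nodup := by
    rcases hp with h | h
    · exact (hS.pc p h).nodup
    · exact List.nodup_reverse.mp (hS.pc _ h).nodup
  have hself : NX p p := by
    rcases hp with h | h
    · exact (hS.pc p h).self
    · have h1 := (hS.pc _ h).self
      have h2 := (hNx.2 _ _ h1).1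
      have h3 := (hNx.2 _ _ h2).2
      simpa using h3
  have hok : ∀ i, (h : i + 1 < p.length) → okd d p[i] p[i + 1] = true := by
    intro i h
    rcases hp with hm | hm
    · exact (hS.pc p hm).okk _ (hEi ℕ p i h)
    · have := (hS.pc _ hm).okk (p[i + 1], p[i]) ((hEr ℕ p _).mpr (hEi ℕ p i h))
      rw [hSm]
      exact this
  have hepe : ep d e = true := by
    rcases hp with hm | hm
    · obtain ⟨a, b, h1, h2, h3⟩ := (hS.pc p hm).ends
      have : a = e := by rw [hhd] at h1; exact (Option.some.inj h1).symm
      subst this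
      exact (ep_of_pr d a b h3).1
    · obtain ⟨a, b, h1, h2, h3⟩ := (hS.pc _ hm).ends
      rw [List.getLast?_reverse, hhd] at h2
      have : b = e := (Option.some.inj h2).symm
      subst this
      exact (ep_of_pr d a b h3).2
  have hinn : ∀ z ∈ p, ep d z = true → p.head? = some z ∨ p.getLast? = some z := by
    intro z hz hez
    rcases hp with hm | hm
    · exact (hS.pc p hm).inn z hz hez
    · have := (hS.pc _ hm).inn z (List.mem_reverse.mpr hz) hez
      rw [List.head?_reverse, List.getLast?_reverse] at this
      exact this.symm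
  have hlt : ∀ z ∈ p, z < d.1 := by
    intro z hz
    rcases hp with hm | hm
    · exact ((hS.cov z).mp ⟨p, hm, hz⟩).2
    · exact ((hS.cov z).mp ⟨_, hm, List.mem_reverse.mpr hz⟩).2
  have hgap : ∀ u ∈ p, ∀ v ∈ p, u < v → (∀ z ∈ p, ¬ (u < z ∧ z < v)) → Cl M (u + 1) v := by
    intro u hu v hv huv hz
    rcases hp with hm | hm
    · exact hGp d M d.1 hS p hm u hu v hv huv hz
    · exact hGp d M d.1 hS _ hm u (List.mem_reverse.mpr hu) v (List.mem_reverse.mpr hv) huv
        (fun z h => hz z (List.mem_reverse.mp h))
  have hext : (∀ z ∈ p, g ≤ z) ∨ ∀ z ∈ p, z ≤ g := by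
    rcases hgAX with h | h
    · exact Or.inl fun z hz => h ▸ (hAX z hz).1
    · exact Or.inr fun z hz => h ▸ (hAX z hz).2
  have hbt := hIn p c g hnd hself hg hext
  have hep' : e ∈ p := List.mem_of_mem_head? hhd
  have hed : e < d.1 := hlt e hep'
  have hp0 : 0 < p.length := List.length_pos_of_mem hep'
  have he0 : p[0] = e := by
    rw [List.head?_eq_getElem?] at hhd
    rw [List.getElem?_eq_getElem hp0] at hhd
    exact Option.some.inj hhd
  intro j hj1
  induction j, hj1 using Nat.le_induction with
  | base =>
    intro _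
    have htake : p.take 1 = [e] := by
      rw [List.take_one, hhd]
      rfl
    refine ⟨e, e, false, by simp [htake], by simp [htake], by simp [htake], ?_,
      base_mem d L hC e hed hepe⟩
    show p.getD 0 0 = e
    rw [List.getD_eq_getElem _ _ hp0, he0]
  | succ j hj1 ih =>
    intro hjc
    obtain ⟨a, b, s, ha, hb, hz, hcu, hL⟩ := ih (by omega)
    have hjl : j < p.length := by omega
    have hj1l : j - 1 < p.length := by omega
    have hap : a ∈ p := List.mem_of_mem_take ha
    have hbp : b ∈ p := List.mem_of_mem_take hb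
    have hab : a ≤ b := (hz a ha).2
    have hvp : p[j] ∈ p := List.getElem_mem hjl
    have htk : ∀ z, z ∈ p.take (j + 1) ↔ z ∈ p.take j ∨ z = p[j] := by
      intro z
      rw [List.take_succ_eq_append_getElem hjl, List.mem_append, List.mem_singleton]
    have hvd : p[j] ∈ p.drop j := by
      rw [List.drop_eq_getElem_cons hjl]
      exact List.mem_cons_self
    have hdisj : ∀ z, z ∈ p.take j → z ≠ p[j] := by
      intro z hz1 hz2
      have hd : List.Disjoint (p.take j) (p.drop j) := List.disjoint_take_drop hnd le_rfl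
      exact hd hz1 (hz2 ▸ hvd)
    have hva : p[j] ≠ a := fun h => hdisj a ha h.symm
    have hvb : p[j] ≠ b := fun h => hdisj b hb h.symm
    have hnb := bt_false a b p[j] (hbt j (by omega) a ha b hb _ hvd)
    have hepv : ep d p[j] = false := by
      by_contra hcon
      rw [Bool.not_eq_false] at hcon
      rcases hinn _ hvp hcon with h | h
      · rw [hhd] at h
        have h1 : p[0] = p[j] := he0.trans (Option.some.inj h)
        have := (hnd.getElem_inj_iff).mp h1
        omega
      · rw [List.getLast?_eq_getElem?, List.getElem?_eq_getElem (by omega)] at h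
        have := (hnd.getElem_inj_iff).mp (Option.some.inj h)
        omega
    have hokj : okd d (cu a b s) p[j] = true := by
      rw [← hcu, List.getD_eq_getElem _ _ hj1l]
      have h1 := hok (j - 1) (by omega)
      have h2 : p[j - 1 + 1] = p[j] := by
        congr 1
        omega
      rw [h2] at h1
      exact h1
    have hA' := hAX _ hap
    have hB' := hAX _ hbp
    have hV' := hAX _ hvp
    have hcases : ∀ z ∈ p, z ∈ p.take j ∨ z = p[j] ∨ z ∈ p.drop (j + 1) := by
      intro z hzp
      have h1 : z ∈ p.take (j + 1) ++ p.drop (j + 1) := by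
        rw [List.take_append_drop]
        exact hzp
      rcases List.mem_append.mp h1 with h | h
      · rcases (htk z).mp h with h | h
        · exact Or.inl h
        · exact Or.inr (Or.inl h)
      · exact Or.inr (Or.inr h)
    have hvt : p[j] ∈ p.take (j + 1) := (htk _).mpr (Or.inr rfl)
    have hat : a ∈ p.take (j + 1) := (htk _).mpr (Or.inl ha)
    have hbt' : b ∈ p.take (j + 1) := (htk _).mpr (Or.inl hb)
    have hgd : p.getD (j + 1 - 1) 0 = p[j] := by
      rw [Nat.add_sub_cancel, List.getD_eq_getElem _ _ hjl]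
    rcases Nat.lt_or_ge b p[j] with hbv | hvb'
    · refine ⟨a, p[j], true, hat, hvt, ?_, ?_, ?_⟩
      · intro z hzt
        rcases (htk z).mp hzt with h | h
        · have := hz z h
          omega
        · subst h
          omega
      · rw [hgd]
        rfl
      · refine right_mem d L hC e a b p[j] s hed hab hbv (hlt _ hvp) hepv ?_ hL hokj
        refine hSh (b + 1) p[j] hbv (hlt _ hvp).le (by omega) ?_
        refine hgap b hbp _ hvp hbv ?_
        intro z hzp hzz
        rcases hcases z hzp with h | h | h
        · have := hz z h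
          omega
        · omega
        · exact bt_false b p[j] z (hbt (j + 1) hjc b hbt' _ hvt z h) hzz
    · have hva' : p[j] < a := by
        by_contra hcon
        exact hnb ⟨by omega, by omega⟩
      refine ⟨p[j], b, false, hvt, hbt', ?_, ?_, ?_⟩
      · intro z hzt
        rcases (htk z).mp hzt with h | h
        · have := hz z h
          omega
        · subst h
          omega
      · rw [hgd]
        rfl
      · refine left_mem d L hC e a b p[j] s hed hab hva' (hlt _ hbp) hepv ?_ hL hokj
        refine hSh (p[j] + 1) a hva' (hlt _ hap).le (by omega) ?_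
        refine hgap _ hvp a hap hva' ?_
        intro z hzp hzz
        rcases hcases z hzp with h | h | h
        · have := hz z h
          omega
        · omega
        · exact bt_false p[j] a z (hbt (j + 1) hjc _ hvt a hat z h) hzz

end Pool.Agent.Work.MP_c6c039_lc.NC
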