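import Pool.Agent.Work.MP_c6c039_lc.NC.StmtsK

/-!
# Block NC, item Sg: the sub-instance
-/

set_option autoImplicit false

namespace Pool.Agent.Work.MP_c6c039_lc.NC

open Pool.Agent.Work.MP_c6c039_lc.FP

namespace ISg

theorem nn_sub (I : In) (C : List ℕ) : nn (sub I C) = C.length := by
  show (C.map fun a => co I a).length = C.length
  exact List.length_map _

theorem getD_map {β : Type} (C : List ℕ) (f : ℕ → β) (a : ℕ) (ha : a < C.length) (d : β) :
    (C.map f).getD a d = f (C.getD a 0) := by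
  have h1 : a < (C.map f).length := by rw [List.length_map]; exact ha
  rw [List.getD_eq_getElem _ _ h1, List.getD_eq_getElem _ _ ha, List.getElem_map]

theorem chi_sub (I : In) (C : List ℕ) (a b c : ℕ) (ha : a < C.length) (hb : b < C.length)
    (hc : c < C.length) :
    chi (sub I C) a b c = chi I (C.getD a 0) (C.getD b 0) (C.getD c 0) := by
  show (((C.map fun a => C.map fun b => C.map fun c => chi I a b c).getD a []).getD b []).getD c
    false = _
  rw [getD_map C _ a ha, getD_map C _ b hb, getD_map C _ c hc]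

theorem getD_lt (I : In) (C : List ℕ) (hC : ∀ v ∈ C, v < nn I) (a : ℕ) (ha : a < C.length) :
    C.getD a 0 < nn I := by
  rw [List.getD_eq_getElem _ _ ha]
  exact hC _ (List.getElem_mem ha)

theorem getD_ne (C : List ℕ) (hC : C.Nodup) (a b : ℕ) (ha : a < C.length) (hb : b < C.length)
    (hab : a ≠ b) : C.getD a 0 ≠ C.getD b 0 := by
  rw [List.getD_eq_getElem _ _ ha, List.getD_eq_getElem _ _ hb]
  intro h
  exact hab ((hC.getElem_inj_iff).1 h)

end ISg

theorem pr_Sg : St_Sg := by
  intro I hI C hC hn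
  refine ⟨ISg.nn_sub I C, fun a b c ha hb hc => ISg.chi_sub I C a b c ha hb hc, ?_⟩
  constructor
  · obtain ⟨X, Y, h1, h2⟩ := hI.real
    refine ⟨fun i => X (C.getD i 0), fun i => Y (C.getD i 0), ?_, ?_⟩
    · intro a b c ha hb hc
      rw [ISg.nn_sub] at ha hb hc
      rw [ISg.chi_sub I C a b c ha hb hc]
      exact h1 _ _ _ (ISg.getD_lt I C hn a ha) (ISg.getD_lt I C hn b hb)
        (ISg.getD_lt I C hn c hc)
    · intro a b c ha hb hc hab hbc hac
      rw [ISg.nn_sub] at ha hb hc
      exact h2 _ _ _ (ISg.getD_lt I C hn a ha) (ISg.getD_lt I C hn b hb)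
        (ISg.getD_lt I C hn c hc) (ISg.getD_ne C hC a b ha hb hab)
        (ISg.getD_ne C hC b c hb hc hbc) (ISg.getD_ne C hC a c ha hc hac)
  · rfl
  · rfl

end Pool.Agent.Work.MP_c6c039_lc.NC
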