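import Pool.Agent.Work.MP_c6c039_lc.NC.Defs

/-!
# Polynomial time for the functions of block NC (helper87)
-/

set_option autoImplicit false

namespace Pool.Agent.Work.MP_c6c039_lc.NC

open Pool.Agent.PT Pool.Agent.Work.MP_c6c039_lc.FP

variable {α : Type} [Enc α]

/-- membership, for an arbitrary lawful Boolean equality -/
@[fun_prop]
theorem ptf_memB {β : Type} [Enc β] [DecidableEq β] [BEq β] [LawfulBEq β] {f : α → β}
    {l : α → List β} (hf : PTF f) (hl : PTF l) : PTF (fun a => decide (f a ∈ l a)) := by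
  refine (PTF.any (p := fun q : α × β => decide (f q.1 = q.2)) hl
    ((hf.comp PTF.fst).eq PTF.snd)).congr (fun a => ?_)
  rw [Bool.eq_iff_iff]
  simp

@[fun_prop]
theorem ptf_okd {d : α → Dt} {x y : α → ℕ} (hd : PTF d) (hx : PTF x) (hy : PTF y) :
    PTF (fun a => okd (d a) (x a) (y a)) := by
  unfold okd
  fun_prop

@[fun_prop]
theorem ptf_ep {d : α → Dt} {z : α → ℕ} (hd : PTF d) (hz : PTF z) :
    PTF (fun a => ep (d a) (z a)) := by
  unfold ep
  fun_prop

@[fun_prop]
theorem ptf_pr {d : α → Dt} {x y : α → ℕ} (hd : PTF d) (hx : PTF x) (hy : PTF y) :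
    PTF (fun a => pr (d a) (x a) (y a)) := by
  unfold pr
  fun_prop

@[fun_prop]
theorem ptf_cu {x y : α → ℕ} {s : α → Bool} (hx : PTF x) (hy : PTF y) (hs : PTF s) :
    PTF (fun a => cu (x a) (y a) (s a)) := by
  unfold cu
  fun_prop

@[fun_prop]
theorem ptf_kR {d : α → Dt} {L : α → List Fa} {x y : α → ℕ} (hd : PTF d) (hL : PTF L)
    (hx : PTF x) (hy : PTF y) : PTF (fun a => kR (d a) (L a) (x a) (y a)) := by
  unfold kR
  fun_prop

@[fun_prop]
theorem ptf_eR {d : α → Dt} {L : α → List Fa} {x y : α → ℕ} (hd : PTF d) (hL : PTF L)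
    (hx : PTF x) (hy : PTF y) : PTF (fun a => eR (d a) (L a) (x a) (y a)) := by
  unfold eR
  fun_prop

@[fun_prop]
theorem ptf_rR {d : α → Dt} {L : α → List Fa} {e x y : α → ℕ} {s : α → Bool} (hd : PTF d)
    (hL : PTF L) (he : PTF e) (hx : PTF x) (hy : PTF y) (hs : PTF s) :
    PTF (fun a => rR (d a) (L a) (e a) (x a) (y a) (s a)) := by
  unfold rR
  fun_prop

@[fun_prop]
theorem ptf_allF {d : α → Dt} (hd : PTF d) : PTF (fun a => allF (d a)) := by
  unfold allF
  fun_prop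

@[fun_prop]
theorem ptf_rule {d : α → Dt} {L : α → List Fa} {f : α → Fa} (hd : PTF d) (hL : PTF L)
    (hf : PTF f) : PTF (fun a => rule (d a) (L a) (f a)) := by
  unfold rule
  fun_prop

@[fun_prop]
theorem ptf_stp {d : α → Dt} {L : α → List Fa} (hd : PTF d) (hL : PTF L) :
    PTF (fun a => stp (d a) (L a)) := by
  unfold stp
  fun_prop

@[fun_prop]
theorem ptf_cm {f : α → In} {D : α → List ℕ} (hf : PTF f) (hD : PTF D) :
    PTF (fun a => cm (f a) (D a)) := by
  unfold cm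
  fun_prop

@[fun_prop]
theorem ptf_sub {f : α → In} {C : α → List ℕ} (hf : PTF f) (hC : PTF C) :
    PTF (fun a => sub (f a) (C a)) := by
  unfold sub
  fun_prop

@[fun_prop]
theorem ptf_cyl {f : α → In} {D : α → List ℕ} (hf : PTF f) (hD : PTF D) :
    PTF (fun a => cyl (f a) (D a)) := by
  unfold cyl
  fun_prop

@[fun_prop]
theorem ptf_px {C : α → List ℕ} {v : α → ℕ} (hC : PTF C) (hv : PTF v) :
    PTF (fun a => px (C a) (v a)) := by
  unfold px
  fun_prop

@[fun_prop]
theorem ptf_cn {s : α → List (ℕ × ℕ)} (hs : PTF s) : PTF (fun a => cn (s a)) := by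
  unfold cn
  fun_prop

@[fun_prop]
theorem ptf_sh {e f : α → ℕ × ℕ} (he : PTF e) (hf : PTF f) : PTF (fun a => sh (e a) (f a)) := by
  unfold sh
  fun_prop

@[fun_prop]
theorem ptf_okx {f : α → In} {s : α → List (ℕ × ℕ)} {x y : α → ℕ} (hf : PTF f) (hs : PTF s)
    (hx : PTF x) (hy : PTF y) : PTF (fun a => okx (f a) (s a) (x a) (y a)) := by
  unfold okx
  fun_prop

@[fun_prop]
theorem ptf_dat {f : α → In} {D C : α → List ℕ} {s : α → List (ℕ × ℕ)} (hf : PTF f)
    (hD : PTF D) (hC : PTF C) (hs : PTF s) : PTF (fun a => dat (f a) (D a) (C a) (s a)) := by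
  unfold dat
  fun_prop

@[fun_prop]
theorem ptf_eps {s : α → List (ℕ × ℕ)} (hs : PTF s) : PTF (fun a => eps (s a)) := by
  unfold eps
  fun_prop

@[fun_prop]
theorem ptf_ndp {l : α → List ℕ} (hl : PTF l) : PTF (fun a => ndp (l a)) := by
  unfold ndp
  fun_prop

end Pool.Agent.Work.MP_c6c039_lc.NC
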