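import Pool.Agent.Work.MP_c6c039_lc.NC.Defs

/-!
# Block NC, part L: noncrossing path covers on a line (captain helper87)

Every docstring is the complete proof.  Item `X`: statement `St_X`, file `NC/I_X.lean`, theorem
`pr_X`, with the statements named after USES as hypotheses `(hA : St_A)`; namespace as here, auxiliary
lemmas in the NEW sub-namespace `IX`.  `T`/`F` are `true`/`false`.  No geometry here: vertices are
natural numbers, `il a b c d` says that the chords `a b` and `c d` interleave.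
-/

set_option autoImplicit false

namespace Pool.Agent.Work.MP_c6c039_lc.NC

/-! ## Chords, edges -/

/-- Il (EASY).  Symmetries of `il`: unfold `il`, `bt`; the first two by commutativity of `||`, `xor`; the third by the
cases of the order of four distinct numbers (`decide`s: `by_cases` on the comparisons, or turn
everything into propositions and use `omega`). -/
def St_Il : Prop := ∀ a b c d : ℕ, il b a c d = il a b c d ∧ il a b d c = il a b c d ∧
  (dj (a, b) (c, d) → a ≠ b → c ≠ d → il c d a b = il a b c d)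

/-- Ed (EASY-MEDIUM).  EDGES.  `ed (a :: b :: l) = (a, b) :: ed (b :: l)` by definition, `ed [] = ed [a] = []`.
Membership: `List.of_mem_zip`, `List.mem_of_mem_tail`.  Append: induction on `l`.  Reverse: induction
and the formula for append.  `take`, `drop`: from append with `List.take_append_drop`.  `nodup`: the two
entries of an edge are different (induction).  `map`: `List.zip_map`, `List.map_tail`. -/
def St_Ed : Prop :=
  (∀ (α : Type) (l : List α) (e : α × α), e ∈ ed l → e.1 ∈ l ∧ e.2 ∈ l) ∧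
  (∀ (α : Type) (l r : List α) (e : α × α), e ∈ ed (l ++ r) ↔
    (e ∈ ed l ∨ e ∈ ed r ∨ (l.getLast? = some e.1 ∧ r.head? = some e.2))) ∧
  (∀ (α : Type) (l : List α) (e : α × α), e ∈ ed l.reverse ↔ (e.2, e.1) ∈ ed l) ∧
  (∀ (α : Type) (l : List α) (t : ℕ) (e : α × α), (e ∈ ed (l.take t) → e ∈ ed l) ∧
    (e ∈ ed (l.drop t) → e ∈ ed l)) ∧
  (∀ (α : Type) (l : List α) (e : α × α), l.Nodup → e ∈ ed l → e.1 ≠ e.2) ∧
  (∀ (α β : Type) (f : α → β) (l : List α), ed (l.map f) = (ed l).map fun e => (f e.1, f e.2)) ∧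
  (∀ (α : Type) (l : List α) (i : ℕ) (h : i + 1 < l.length),
    (l[i], l[i + 1]) ∈ ed l)

/-- Nx (EASY).  `NX` is symmetric for nodup paths (Il, third clause; the end points of an edge of a nodup list are
different, Ed) and it does not change under reversal (Ed, Il). -/
def St_Nx : Prop := (∀ p q : List ℕ, p.Nodup → q.Nodup → NX p q → NX q p) ∧
  (∀ p q : List ℕ, NX p q → NX p.reverse q ∧ NX p q.reverse)

/-- Iv (EASY).  SEPARATED PATHS.  All vertices of `p` are `< c`, all vertices of `q` are `≥ c`: for `e ∈ ed p`, `f ∈ ed q`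
no end of `f` is between the ends of `e`, so `il = F`; and no end of `e` is between the ends of `f`.  Second clause:
both ends of `f` are strictly between `a` and `b`, `il = xor T T`.  Third: all are outside. -/
def St_Iv : Prop := (∀ (p q : List ℕ) (c : ℕ), (∀ z ∈ p, z < c) → (∀ z ∈ q, c ≤ z) →
    NX p q ∧ NX q p) ∧
  (∀ a b c d : ℕ, a < b → a < c → c < b → a < d → d < b → il a b c d = false) ∧
  (∀ a b c d : ℕ, a ≤ b → (c ≤ a ∨ b ≤ c) → (d ≤ a ∨ b ≤ d) → il a b c d = false)

/-! ## Soundness of the rules -/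

/-- S1 (EASY).  `Sys d a b M1`, `Sys d b c M2` give `Sys d a c (M1 ++ M2)`: `List.pairwise_append`; `p ∈ M1` has its
vertices in `[a, b)`, `q ∈ M2` in `[b, c)` (`cov`), so Iv.  `cov`: `a ≤ z < c` iff one of the two. -/
def St_S1 : Prop := ∀ (d : Dt) (a b c : ℕ), a ≤ b → b ≤ c → SE d a b → SE d b c → SE d a c

/-- S2 (EASY).  `M = []` for the first; `M = [[i]]` for the second (`ed [i] = []`, `head? = getLast? = some i`). -/
def St_S2 : Prop := ∀ (d : Dt) (i : ℕ), SE d i i ∧ (pr d i i = true → SE d i (i + 1))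

/-- S3 (EASY).  `l = [e]`, `M = []`. -/
def St_S3 : Prop := ∀ (d : Dt) (e : ℕ) (s : Bool), ep d e = true → SR d e e e s

/-- S4 (MEDIUM).  EXTENSION TO THE RIGHT.  `(l, M1)` from the first, `M2` from the second hypothesis (its pieces cover
`[a + 1, j)`); take `l' = j :: l`, `M = M1 ++ M2`.  Let `u = cu i a t`, the head of `l`.  New edge `(j, u)`, allowed by
`Sm`.  It does not interleave with an edge `f` of `l` or of a piece of `M1` that avoids `u`: both ends of `f` are in
`[i, a]`, different from `u ∈ {i, a}`: if `u = a` both are outside `(u, j)`, if `u = i` both are inside (Iv).  An edge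
of a piece of `M2` has both ends in `(a, j)`, inside `(u, j)`.  (If `e = (j, u)` and `f` is an edge of `l` with
`dj e f` then `f` avoids `u` and `j`; pieces of `M1` are disjoint from `l ∋ u`.)  Edges of `l` against pieces of `M2`: Iv
with `c = a + 1`; pieces of `M1` against `M2` too.  Symmetric cases by Nx/Il.  `cov`: `[i, a] ∪ [a+1, j) ∪ {j}`.
`ep d j = F`, so `inn` is vacuous for `j`.  USES Il Ed Nx Iv. -/
def St_S4 : Prop := ∀ (d : Dt), Sm d → ∀ (e i a j : ℕ) (t : Bool), i ≤ a → a < j →
  ep d j = false → SR d e i a t → SE d (a + 1) j → okd d (cu i a t) j = true → SR d e i j true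

/-- S5 (MEDIUM).  EXTENSION TO THE LEFT: the mirror image of S4 (`l' = i :: l`, old interval `[a, j]`, gap
`[i + 1, a)`, `u = cu a j t`).  USES Il Ed Nx Iv. -/
def St_S5 : Prop := ∀ (d : Dt), Sm d → ∀ (e i a j : ℕ) (t : Bool), i < a → a ≤ j →
  ep d i = false → SR d e a j t → SE d (i + 1) a → okd d (cu a j t) i = true → SR d e i j false

/-- S6 (MEDIUM).  JOIN.  `(l, M1)` on `[i, a]` with head `u = cu i a s`, `M0` on `[a + 1, b)`, `(l', M2)` on `[b, y]` with head
`u' = cu b y s'`.  The piece `p = l.reverse ++ l'` has the first vertex `e` (last of `l`), the last vertex `e'`, and the edges of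
`l` reversed, of `l'`, and `(u, u')` (Ed).  `M = p :: (M1 ++ (M0 ++ M2))`.  `(u, u')` against an edge with both ends in
`[i, a] \ {u}`: both inside `(u, u')` if `u = i`, both outside if `u = a`; in `(a, b)`: both inside; in
`[b, y] \ {u'}`: both outside if `u' = b`, both inside if `u' = y` (Iv).  All other pairs: given, or separated (Iv).
`inn`: a prescribed end in `l` is `e`, in `l'` it is `e'`.  `nodup`: the intervals are disjoint.  USES Il Ed Nx Iv. -/
def St_S6 : Prop := ∀ (d : Dt), Sm d → ∀ (e e' i a b y : ℕ) (s s' : Bool), a < b →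
  pr d e e' = true → SR d e i a s → SE d (a + 1) b → SR d e' b y s' →
  okd d (cu i a s) (cu b y s') = true → SE d i (y + 1)

/-- S7 (EASY-MEDIUM).  SOUNDNESS.  Induction on `t`.  `f ∈ stp d L`: `f ∈ L` (induction) or `rule d L f = T`.  Kind 0: `eR`: `i = j`
(S2) or `y` with `kR d L i y` and `(0, y + 1, j, F) ∈ L`: `kR` gives `SE d i (y + 1)` (S2, or S6 with the induction
hypothesis), then S1 (`i ≤ y + 1 ≤ j`).  Kind `e + 1`: base S3, S4, S5.  USES S1 S2 S3 S4 S5 S6. -/
def St_S7 : Prop := ∀ (d : Dt), Sm d → ∀ (t : ℕ) (f : Fa), f ∈ (stp d)^[t] [] →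
  (f.1 = 0 → f.2.2.2 = false ∧ SE d f.2.1 f.2.2.1) ∧
  ∀ e, f.1 = e + 1 → SR d e f.2.1 f.2.2.1 f.2.2.2

/-! ## Saturation -/

/-- Sa (EASY-MEDIUM).  Let `L t = (stp d)^[t] []`.  `L t ⊆ L (t + 1)` as sets (elements of `L t` are in `allF d`: for `t = 0`
trivial, then by the filter; and `f ∈ L` is kept).  All `L t`, `t ≥ 1`, are filters of `allF d`, so `L t` is a sublist of
`L (t + 1)` (filters by predicates `P ≤ Q`), lengths are at most `(allF d).length`; so for some
`t ≤ (allF d).length + 1` we have `L t = L (t + 1)` (`List.Sublist.eq_of_length`), and then all later ones are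
equal: `L ((allF d).length + 1) = sat d` satisfies `stp d (sat d) = sat d` (careful with the index: lengths of
`L 1, L 2, ..` increase strictly until they are constant; `L 0 = []` and if `L 1 = []` then all are empty; there are
at most `(allF d).length` strict increases starting from length 0 at `t = 0`).  So a fact with `rule d (sat d) f = T` is
in `stp d (sat d) = sat d`. -/
def St_Sa : Prop := ∀ (d : Dt) (f : Fa), f ∈ allF d → rule d (sat d) f = true → f ∈ sat d

/-! ## Completeness -/

/-- Pa (EASY-MEDIUM).  PARITY.  Disjoint noncrossing paths `p`, `q`: the chord of two vertices `u, v` of `p` does not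
interleave with that of two vertices `x, y` of `q`.  (1) `u, v` first and last vertex of `p`: for `z ∉ p` the parity
`φ z` of the number of `e ∈ ed p` with `bt e.1 e.2 z` is `bt u v z` (induction: `p = a :: c :: r`:
`xor (bt a c z) (bt c b z) = bt a b z` for `z` different from `a, b, c`; `bt a a z = F`).  For an edge `(x, x')` of `q` and
`e ∈ ed p`: `il e.1 e.2 x x' = F` (`dj` because disjoint), so `bt e.1 e.2 x = bt e.1 e.2 x'`, `φ x = φ x'`; so `φ` is constant on `q`.
(2) General `u, v`: a sublist of consecutive vertices of `p` from one to the other (`p = l1 ++ (u :: l2) ++ ..`, or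
`u = v`: `bt u u z = F`); its edges are edges of `p`; orders by Il.  USES Il Ed. -/
def St_Pa : Prop := ∀ p q : List ℕ, NX p q → (∀ z ∈ p, z ∉ q) → ∀ u ∈ p, ∀ v ∈ p, ∀ x ∈ q, ∀ y ∈ q,
  il u v x y = false

/-- Gp (EASY).  GAPS ARE CLOSED.  `q ≠ p` because `z ∉ p`; `NX p q` and disjoint by `pw` (symmetric by Nx;
`List.Pairwise.forall`), Pa for `u, v ∈ p`, `z, z' ∈ q`: `bt u v z = T` so `bt u v z' = T`.  USES Nx Pa. -/
def St_Gp : Prop := ∀ (d : Dt) (M : List (List ℕ)) (m : ℕ), Sys d 0 m M → ∀ p ∈ M, ∀ u ∈ p, ∀ v ∈ p,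
  u < v → (∀ z ∈ p, ¬ (u < z ∧ z < v)) → Cl M (u + 1) v

/-- In (EASY-MEDIUM).  INITIAL SETS.  `p` does not cross itself, `g` is a vertex after the first `c`, and `g` is the smallest or
the largest vertex of `p`.  Then for `j ≤ c` no later vertex `x` is between two of the first `j` vertices `u, v`:
`p.take j` and `p.drop j` are disjoint and `NX` (their edges are edges of `p`, Ed), `g ∈ p.drop j`, so by Pa
`il u v x g = F`, and `bt u v g = F`.  USES Ed Pa. -/
def St_In : Prop := ∀ (p : List ℕ) (c g : ℕ), p.Nodup → NX p p → g ∈ p.drop c →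
  ((∀ z ∈ p, g ≤ z) ∨ ∀ z ∈ p, z ≤ g) → ∀ j, j ≤ c → ∀ u ∈ p.take j, ∀ v ∈ p.take j, ∀ x ∈ p.drop j,
  bt u v x = false

/-- closed under the rules -/
def Cr (d : Dt) (L : List Fa) : Prop := ∀ f ∈ allF d, rule d L f = true → f ∈ L

/-- all closed intervals of length less than `N` are facts -/
def Sh (d : Dt) (M : List (List ℕ)) (L : List Fa) (N : ℕ) : Prop :=
  ∀ x y, x ≤ y → y ≤ d.1 → y - x < N → Cl M x y → (0, x, y, false) ∈ L

/-- Pr (MEDIUM).  THE PROCESS.  `p` or its reverse is a piece, `e` its first vertex, all vertices in `[A, X]`, `N = X - A`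
(closed intervals shorter than `X - A` are facts), `g` as in In.  Claim for `1 ≤ j ≤ c`: there are `a ≤ b`
and `s` with `a, b ∈ p.take j`, all of `p.take j` in `[a, b]`, `p[j - 1] = cu a b s` and `(e + 1, a, b, s) ∈ L`.
`j = 1`: `a = b = e` (first alternative of `rR`: `ep d e` because `pr`; the fact is in `allF` as `e < d.1`).  Step: `v = p[j]` is not
between `a` and `b` (In for `j`), so `v > b` or `v < a`.  `v > b`: new interval `[a, v]`, `s = T`: rule with the old fact
(`t = s`), `(0, b + 1, v, F)`: no vertex of `p` is in `(b, v)` (vertices of `p.take j` are `≤ b`, `v` itself no, later ones by In for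
`j + 1`, `u = b`), so it is closed (Gp; `M` contains `p` or its reverse) and shorter than `X - A` (inside `[A, X]`), Sh; `ep d v = F`:
otherwise `v` is the first or last vertex (`Pc.inn`), but `1 ≤ j < p.length - 1` or so: `j + 1 ≤ c < p.length`; nodup;
`okd d p[j-1] p[j] = T` (`Sm` for the reverse).  `v < a`: mirror image.  USES Ed Nx Gp In. -/
def St_Pr : Prop := ∀ (d : Dt), Sm d → ∀ (M : List (List ℕ)) (L : List Fa), Sys d 0 d.1 M → Cr d L →
  ∀ (p : List ℕ) (A X c g e : ℕ), (p ∈ M ∨ p.reverse ∈ M) → (∀ z ∈ p, A ≤ z ∧ z ≤ X) → A ∈ p → X ∈ p →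
  Sh d M L (X - A) → p.head? = some e → c < p.length → g ∈ p.drop c → (g = A ∨ g = X) →
  ∀ j, 1 ≤ j → j ≤ c → ∃ (a b : ℕ) (s : Bool), a ∈ p.take j ∧ b ∈ p.take j ∧
    (∀ z ∈ p.take j, a ≤ z ∧ z ≤ b) ∧ p.getD (j - 1) 0 = cu a b s ∧ (e + 1, a, b, s) ∈ L

/-- Cu (EASY).  `A ≠ X` in the nodup list `p`: let `i, j` be their positions, say `i < j`, `c = j`: `A ∈ p.take c`,
`X ∉ p.take c`, `p[c] = X`; the other case is the mirror image. -/
def St_Cu : Prop := ∀ (p : List ℕ) (A X : ℕ), p.Nodup → A ∈ p → X ∈ p → A ≠ X →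
  ∃ c, 1 ≤ c ∧ c < p.length ∧
    ((A ∈ p.take c ∧ X ∉ p.take c ∧ p.getD c 0 = X) ∨ (X ∈ p.take c ∧ A ∉ p.take c ∧ p.getD c 0 = A))

/-- Kc (MEDIUM-HARD).  A PIECE IS A JOIN.  `p ∈ M` with smallest vertex `A` and largest `X`.  `A = X`: `p = [A]`, `ends` gives
`pr d A A`.  Otherwise Cu: `c`.  Case `X ∈ p.take c`, `p[c] = A`: Pr for `p`, `c`, `g = A` (`A ∈ p.drop c`) at `j = c`: `a, b, s` with
`b = X` (largest), `p[c-1] = cu a X s`, `(e + 1, a, X, s) ∈ L`, `e` the first vertex.  Pr for `p.reverse`, `c' = p.length - c`,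
`g = X` at `j = c'`: `p.reverse.take c' = (p.drop c).reverse`, `p.reverse.drop c' = (p.take c).reverse ∋ X`; we get `a', b', s'`
with `a' = A`, last vertex `p.reverse[c' - 1] = p[c] = A = cu A b' s'`, `(e' + 1, A, b', s') ∈ L`, `e'` the last vertex of `p`.
`b' < a`: `b' ∈ p.drop c` is not between `a` and `X` (In for `p`, `j = c`), is `≤ X` and different from both.  The gap
`[b' + 1, a)` contains no vertex of `p` (vertices of `p.take c` are `≥ a`, those of `p.drop c` are `≤ b'`), so it is closed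
(Gp) and shorter than `X - A`: Sh.  So the second alternative of `kR` with `i = A`, `a := b'`, `b := a`, `y = X`, ends `e'`, `e`
(`pr` is symmetric by definition), `okd d p[c] p[c-1]` (`okk`, `Sm`).  Case `A ∈ p.take c`, `p[c] = X`: the same with the
roles exchanged: `(e + 1, A, b, s)`, gap `[b + 1, a')`, `(e' + 1, a', X, s')`, chord `p[c-1] p[c]`.
USES Ed Gp In Pr Cu. -/
def St_Kc : Prop := ∀ (d : Dt), Sm d → ∀ (M : List (List ℕ)) (L : List Fa), Sys d 0 d.1 M → Cr d L →
  ∀ (p : List ℕ) (A X : ℕ), p ∈ M → (∀ z ∈ p, A ≤ z ∧ z ≤ X) → A ∈ p → X ∈ p → Sh d M L (X - A) →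
  kR d L A X = true

/-- Ec (EASY-MEDIUM).  CLOSED INTERVALS ARE FACTS.  Strong induction on `b - a` (so Sh holds for `N = b - a`).  `a = b`: rule.
`a < b ≤ d.1`: `a` is in a piece `p` (`cov`), which is inside `[a, b)` (closed); `a` is its smallest vertex, let `X` be the
largest (`List.maximum` or `Finset.exists_max_image`), `X < b`.  Kc (`X - a < b - a`).  `[X + 1, b)` is closed: let `q ∈ M` meet it in `z`;
`q` is inside `[a, b)`; if `z' ∈ q`, `z' ≤ X`, then `z' ≠ a, X` (disjoint from `p`, as `q ≠ p` because `z > X`), so `bt a X z' = T`,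
`bt a X z = F`, against Pa.  So `(0, X + 1, b, F) ∈ L` by induction and the rule `eR` with `y = X` applies.
USES Nx Pa Kc. -/
def St_Ec : Prop := ∀ (d : Dt), Sm d → ∀ (M : List (List ℕ)) (L : List Fa), Sys d 0 d.1 M → Cr d L →
  ∀ a b, a ≤ b → b ≤ d.1 → Cl M a b → (0, a, b, false) ∈ L

/-- Dq (EASY).  THE LINE PROBLEM.  `dp d = T` gives `SE d 0 d.1` by S7 with `t = (allF d).length + 1`.  Conversely
`L = sat d` is closed under the rules (Sa), `[0, d.1)` is closed (all vertices are `< d.1` by `cov`), Ec.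
USES S7 Sa Ec. -/
def St_Dq : Prop := ∀ (d : Dt), Sm d → (dp d = true ↔ SE d 0 d.1)

/-- A1 (MEDIUM).  CHOICE OF THE PIECES.  Different prescribed pairs have no common end, all ends are `< m = d.1`.  From `M`:
for `τ ∈ d.2.2` the end `τ.1 < m` is in a piece `p` (`cov`), it is the first or last vertex of `p` (`inn`, as
`ep d τ.1 = T`); by `ends` the first vertex `a` and the last `b` form a prescribed pair `τ'` (in some order), so `τ' = τ`
(common end); so `{a, b} = {τ.1, τ.2}` and `g τ := p` or `p.reverse` has first vertex `τ.1` and last `τ.2`.  For different `τ, τ'`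
the pieces are different (their ends are different), so disjoint and `NX` (`pw`, Nx, reversal).  `okd` under reversal:
`Sm`.  Every `z < m` is in a piece `p`, whose ends are a pair `τ`, and the piece of `τ` is `p` (it contains `τ.1`).
Choose `g` with `Classical.choice` for every `τ` (`if h : τ ∈ d.2.2 then .. else []`).  USES Ed Nx. -/
def St_A1 : Prop := ∀ (d : Dt), Sm d →
  (∀ τ ∈ d.2.2, ∀ τ' ∈ d.2.2, τ ≠ τ' → dj τ τ') → (∀ τ ∈ d.2.2, τ.1 < d.1) → SE d 0 d.1 →
  ∃ g : ℕ × ℕ → List ℕ,
    (∀ τ ∈ d.2.2, (g τ).Nodup ∧ (g τ).head? = some τ.1 ∧ (g τ).getLast? = some τ.2 ∧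
      NX (g τ) (g τ) ∧ (∀ f ∈ ed (g τ), okd d f.1 f.2 = true) ∧ ∀ z ∈ g τ, z < d.1) ∧
    (∀ τ ∈ d.2.2, ∀ τ' ∈ d.2.2, τ ≠ τ' → NX (g τ) (g τ') ∧ ∀ z ∈ g τ, z ∉ g τ') ∧
    ∀ z, z < d.1 → ∃ τ ∈ d.2.2, z ∈ g τ

end Pool.Agent.Work.MP_c6c039_lc.NC
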