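import Pool.Agent.Work.MP_c6c039_lc.NC.StmtsK
import Pool.Agent.Work.MP_c6c039_lc.FP.StmtsE

/-!
# Block NC, part M: the plane (captain helper87)

Every docstring is the complete proof.  Item `X`: statement `St_X`, file `NC/I_X.lean`, theorem
`pr_X`, with the statements named after USES as hypotheses `(hA : St_A)` (a name `FP.A` means
`(hA : FP.St_A)`, a proved statement of block FP); namespace as here, auxiliary lemmas in the NEW
sub-namespace `IX`.
-/

set_option autoImplicit false

namespace Pool.Agent.Work.MP_c6c039_lc.NC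

open Pool.Agent.PT Pool.Agent.Work.MP_c6c039_lc.FP N487b59b3

/-- After the removal of at most `k` suitable points the points of the instance are in convex
position: none of them lies in the convex hull of the others. -/
def DC (k : ℕ) (I : List (ℚ × ℚ) × List (ℚ × ℚ)) : Prop :=
  ∃ D : Finset (ℝ × ℝ), D.card ≤ k ∧ ∀ p ∈ allPts I, p ∉ D →
    p ∉ convexHull ℝ {q : ℝ × ℝ | q ∈ allPts I ∧ q ∉ D ∧ q ≠ p}

/-- Gx (MEDIUM).  CONVEX POSITION.  `F = full (bitEncode I)`, `Good F` (FP.GD), `C = cm F D` (nodup, elements `< nn F`),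
`J = sub F C`: Sg: `Good J`, `nn J = C.length`, `chi J a b c = chi F (C a) (C b) (C c)` (here `C a = C.getD a 0`).
`cyl F D` has the length of `hu J`.  By FP.Hl (`CH J` by FP.Sy) `hu J` is nodup and its elements are the `p < nn J` with
`ext J p = T`; so it is enough that `ext J p = T` for all `p < C.length`.  Otherwise there are `a, b, c < C.length`, different
from each other and from `p`, with `inT J a b c p = T`, i.e. `inT F (C a) (C b) (C c) (C p) = T`; exactly as in the proof of
NM in FP/I_NM.lean (that file may be copied: `INM.tri`, and the computation after `inT`) the point `pnt I (C p)` is in the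
convex hull of `pnt I (C a)`, `pnt I (C b)`, `pnt I (C c)`, and these are points of the set in the hypothesis
(`C a ≠ C p`, ..: `C` is nodup; `convexHull_mono`).  USES FP.Sy FP.Hl FP.GD FP.CT FP.PI Sg. -/
def St_Gx : Prop := ∀ I : List (ℚ × ℚ) × List (ℚ × ℚ), GenPos I → ∀ D : List ℕ,
  (∀ i ∈ cm (full (bitEncode I)) D,
    pnt I i ∉ convexHull ℝ {q : ℝ × ℝ | ∃ j ∈ cm (full (bitEncode I)) D, j ≠ i ∧ q = pnt I j}) →
  (cyl (full (bitEncode I)) D).length = (cm (full (bitEncode I)) D).length

/-- Fd (EASY-MEDIUM).  `D` from `DC k I`, `n = (I.1 ++ I.2).length = nn F` (FP.CT), `D'` = the numbers `i < n` with `pnt I i ∈ D`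
(`List.filter` of `List.range n`, classical).  Its image under `pnt I` is a nodup list in `D` (FP.PI: injective), so
`D'.length ≤ D.card ≤ k`.  `cm F D'` = the numbers `i < n` with `pnt I i ∉ D`.  Gx: for such `i` the set of the `pnt I j`,
`j ∈ cm F D'`, `j ≠ i`, is contained in `{q | q ∈ allPts I, q ∉ D, q ≠ pnt I i}` (FP.PI), `convexHull_mono`.
USES FP.CT FP.PI Gx. -/
def St_Fd : Prop := ∀ I : List (ℚ × ℚ) × List (ℚ × ℚ), GenPos I → ∀ k : ℕ, DC k I →
  ∃ D : List ℕ, D.Nodup ∧ D.length ≤ k ∧ (∀ v ∈ D, v < nn (full (bitEncode I))) ∧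
    (cyl (full (bitEncode I)) D).length = (cm (full (bitEncode I)) D).length

end Pool.Agent.Work.MP_c6c039_lc.NC
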